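import Pool.Agent.Work.MP_8f87b2_h22.JX
import Pool.Agent.Work.MP_8f87b2_h13.IndepAll

/-!
# MP_8f87b2_co: the one-soliton gadgets (JM, J5, NM) against E

`JG.disj_E`: only the E pair `{y_f, y'_f}` of a line can meet the gadgets of the line.
-/

set_option autoImplicit false
set_option linter.unusedSimpArgs false

namespace Pool.OddHC

open Finset Equiv BinaryTree Pool.Agent.Work.MP_8f87b2_co

namespace J

variable {k n : ℕ}

/-- one soliton: `X()` and `()X` are on the same T-cycle -/
theorem one_cyc {m : ℕ} (hm : 1 ≤ m) (G : ZMod (2 * m + 1) → ℕ) {b c : X k}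
    (hb : b.1 = app (Ring1.RF m G) (.nil △ .nil)) (hc : c.1 = .nil △ Ring1.RF m G) :
    cyc b = cyc c := by
  obtain ⟨w, hw⟩ : ∃ w : X (m + 1 + ∑ x, G x), w = phi (pwX m) G (Ring1.low_word hm G) := ⟨_, rfl⟩
  have hw1 : w.1 = ins (H1.ch m) (lf G) := by
    rw [hw, Ring1.ch_eq]; rfl
  have hRF : Ring1.RF m G = ins w.1 (lf fun _ : ZMod (2 * (m + 1 + ∑ x, G x) + 1) => 0) := by
    rw [lf_zero]
    unfold Ring1.RF inf
    rw [hw1, (Ring1.in_num hm G).1]
  have hb' := ins_back w (fun _ => 0)
  have hc' := ins_front w (fun _ => 0)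
  rw [← hRF] at hb' hc'
  have hk : (m + 1 + ∑ x, G x) + pkn w.1 +
      ∑ x : ZMod (2 * (m + 1 + ∑ x, G x) + 1), ((fun _ => 0) x + if x = 0 then 1 else 0) = k := by
    have h1 := X_num c
    have h2 := (ins_num w.1 (lf fun x : ZMod (2 * (m + 1 + ∑ x, G x) + 1) => 0 + if x = 0 then 1 else 0)
      (by rw [lf_length, X_num])).1
    rw [hc, ← hc', h2, lf_sum, X_num] at h1
    rw [← h1]
  have hk' : (m + 1 + ∑ x, G x) + pkn w.1 +
      ∑ x : ZMod (2 * (m + 1 + ∑ x, G x) + 1), ((fun _ => 0) x + if x = -1 then 1 else 0) = k := by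
    rw [← hk]
    congr 1
    simp
  have eb : b = phi w _ hk' := Subtype.ext (by rw [hb, ← hb']; rfl)
  have ec : c = phi w _ hk := Subtype.ext (by rw [hc, ← hc']; rfl)
  obtain ⟨i, h1, h2⟩ := indep1_all (pwX m) (lf G) (lf_length G) w (by
    rw [hw1, Ring1.ch_eq]; rfl) 0 1
  have hTw : (TT ^ i) w = w := by
    rw [hw, pow_phi]
    apply Subtype.ext
    change ins ((TT ^ i) (pwX m)).1 _ = ins (pwX m).1 _
    rw [(sp_pw m hm i).2, h1]
    simp only [add_zero]
  rw [eb, ec, cyc_eq]
  refine Equiv.Perm.SameCycle.symm ⟨(i : ℤ), ?_⟩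
  rw [zpow_natCast, pow_phi]
  apply Subtype.ext
  change ins ((TT ^ i) w).1 _ = ins w.1 _
  rw [hTw, h2]
  congr 2
  funext x
  have : (x + 1 = 0) ↔ (x = -1) := by
    constructor
    · intro h; linear_combination h
    · rintro rfl; ring
  simp only [this]

/-- a low word `X` without `()` and with a light part starts with `(())` -/
theorem low_first {r : BinaryTree Unit} {f : List ℕ} (hf : f.length = 2 * r.numNodes + 1)
    (hl : Low r) (h1 : (OddHC.cont (ins r f)).count 1 = 0) (h2 : 1 ≤ (OddHC.cont (ins r f)).count 2) :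
    ∃ Y, ins r f = l1 △ Y := by
  have s0 := count_one_ins r f hf
  rw [h1] at s0
  have hf0 : f = List.replicate (2 * r.numNodes + 1) 0 := by
    rw [List.eq_replicate_iff]
    refine ⟨hf, fun b hb => ?_⟩
    exact List.sum_eq_zero_iff.1 s0.symm b hb
  have e : ins r f = inf r := by rw [hf0]; rfl
  rw [e, count_two_inf] at h2
  obtain ⟨r', hr⟩ := hl.1 h2
  refine ⟨inf r', ?_⟩
  rw [e, hr, inf_node]
  rfl

theorem RR_first (p : ℕ) (D : BinaryTree Unit) (q : ℕ) (hD : GD D) (Z : BinaryTree Unit) :
    ∃ A Y, app (RR p D q) Z = A △ Y ∧ A ≠ .nil := by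
  cases p with
  | zero => exact ⟨D, _, rfl, fun h => by have := hD.ht; rw [h, ht] at this; omega⟩
  | succ p => exact ⟨l1, _, rfl, by simp⟩

theorem RR_last (p : ℕ) (D : BinaryTree Unit) (q : ℕ) (hD : GD D) (Z W : BinaryTree Unit) :
    app Z (RR p D q) ≠ app W (.nil △ .nil) := by
  intro h
  have h1 := congrArg (fun t => (cs t).reverse) h
  simp only [cs_app, cs_RR, List.reverse_append, List.reverse_cons, List.reverse_replicate,
    cs_node, cs_nil, List.reverse_nil, List.nil_append, List.singleton_append, List.append_assoc,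
    List.cons_append] at h1
  have hD' : D ≠ .nil := fun h => by have := hD.ht; rw [h, ht] at this; omega
  cases q with
  | zero => simp [hD'] at h1
  | succ q => simp [List.replicate_succ] at h1

theorem app_r {P P' X : BinaryTree Unit} (h : app P X = app P' X) : P = P' := app_right h

theorem count_RF (hn : 1 ≤ n) (F : ZMod (2 * n + 1) → ℕ) :
    (OddHC.cont (Ring1.RF n F)).count 1 = 0 ∧ (OddHC.cont (Ring1.RF n F)).count 2 = ∑ x, F x := by
  rw [Ring1.cont_RF hn, Multiset.count_add, Multiset.count_add, Multiset.count_singleton,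
    Multiset.count_singleton, Multiset.count_replicate, Multiset.count_replicate]
  rw [if_neg (by omega), if_neg (by omega), if_neg (by omega), if_pos rfl]
  exact ⟨rfl, by ring⟩

theorem cont_prime_RF (hn : 1 ≤ n) (F : ZMod (2 * n + 1) → ℕ) :
    OddHC.cont (Ring1.RF n F △ .nil) = {n + 3} + Multiset.replicate (∑ x, F x) 2 := by
  rw [cont_node, cont_nil, add_zero, Ring1.cont_RF hn]
  have hs : ({n + 2} + Multiset.replicate (∑ x, F x) 2 : Multiset ℕ).sup = n + 2 := by
    rw [Multiset.sup_add, Multiset.sup_singleton]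
    apply sup_eq_left.2
    apply Multiset.sup_le.2
    intro b hb
    rw [Multiset.eq_of_mem_replicate hb]
    omega
  unfold raise
  rw [hs, Multiset.singleton_add, Multiset.erase_cons_head]
  rfl

/-- `(R)` is not a low word -/
theorem not_low_prime (hn : 1 ≤ n) {Φ : ZMod (2 * n + 1) → ℕ} (hΦ : 1 ≤ ∑ x, Φ x)
    {r : BinaryTree Unit} {f : List ℕ} (hf : f.length = 2 * r.numNodes + 1) (hl : Low r)
    (h : ins r f = Ring1.RF n Φ △ .nil) : False := by
  have hc := cont_prime_RF hn Φ
  obtain ⟨Y, hY⟩ := low_first hf hl (by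
    rw [h, hc, Multiset.count_add, Multiset.count_singleton, Multiset.count_replicate,
      if_neg (by omega), if_neg (by omega)]) (by
    rw [h, hc, Multiset.count_add, Multiset.count_singleton, Multiset.count_replicate,
      if_neg (by omega), if_pos rfl]
    omega)
  rw [h] at hY
  obtain ⟨D, hD, e⟩ := RF_shape hn Φ
  have h1 := (node_inj' hY).1
  rw [e] at h1
  have h2 := congrArg cs h1
  rw [cs_RR] at h2
  have hD' := hD.ht
  have hDn : D ≠ .nil := fun h => by rw [h, OddHC.ht] at hD'; omega
  generalize Φ 0 = p at h2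
  cases p with
  | zero => simp [hDn] at h2
  | succ p => simp [List.replicate_succ] at h2

/-- `(B')S'` is not a low word -/
theorem not_low_BS (hn : 1 ≤ n) {Ψ : ZMod (2 * n + 1) → ℕ} (hΨ : 2 ≤ ∑ x, Ψ x) {u t : ℕ}
    {D : BinaryTree Unit} (ht : 1 ≤ t) (e : Ring1.RF n Ψ = RR u D t)
    {r : BinaryTree Unit} {f : List ℕ} (hf : f.length = 2 * r.numNodes + 1) (hl : Low r)
    (h : ins r f = b2 t △ RR u D 0) : False := by
  have hRF := count_RF hn Ψ
  have e1 : Ring1.RF n Ψ = app (RR u D 0) (b2 t) := by
    rw [e]
    apply cs_inj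
    simp
  rw [e1, cont_app, Multiset.count_add, Multiset.count_add] at hRF
  have hb : ∀ t, (OddHC.cont (b2 t)).count 2 = t := by
    intro t
    induction t with
    | zero => rfl
    | succ t ih =>
      change (OddHC.cont (l1 △ b2 t)).count 2 = t + 1
      rw [cont_l1', Multiset.count_add, ih, Multiset.count_singleton, if_pos rfl]
      omega
  have hb1 := count_b2 t
  have hb2 := hb t
  have hsup : ∀ t, 1 ≤ t → (OddHC.cont (b2 t)).sup = 2 := by
    intro t ht
    obtain ⟨t, rfl⟩ : ∃ m, t = m + 1 := ⟨t - 1, by omega⟩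
    change (OddHC.cont (l1 △ b2 t)).sup = 2
    rw [cont_l1', sup_add', Multiset.sup_singleton, ← OddHC.ht_eq]
    have := ht_b2 t
    omega
  have hraise : (raise (OddHC.cont (b2 t))).count 1 = 0 ∧
      (raise (OddHC.cont (b2 t))).count 2 = t - 1 := by
    unfold raise
    rw [hsup t ht]
    constructor
    · rw [Multiset.count_cons_of_ne (by omega), Multiset.count_erase_of_ne (by omega), hb1]
    · rw [Multiset.count_cons_of_ne (by omega), Multiset.count_erase_self, hb2]
  obtain ⟨Y, hY⟩ := low_first hf hl (by
    rw [h, cont_node, Multiset.count_add, hraise.1]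
    omega) (by
    rw [h, cont_node, Multiset.count_add, hraise.2]
    omega)
  rw [h] at hY
  have h1 := (node_inj' hY).1
  obtain ⟨t, rfl⟩ : ∃ m, t = m + 1 := ⟨t - 1, by omega⟩
  have h2 := congrArg cs h1
  rw [cs_b2, List.replicate_succ] at h2
  simp at h2

/-- `B'(S')` is a word of one soliton -/
theorem BS_RF (hn : 1 ≤ n) {Ψ : ZMod (2 * n + 1) → ℕ} {u t : ℕ}
    {D : BinaryTree Unit} (hD : GD D) (e : Ring1.RF n Ψ = RR u D t) :
    ∃ G : ZMod (2 * (n + 1) + 1) → ℕ, app (b2 t) (RR u D 0 △ .nil) = Ring1.RF (n + 1) G := by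
  have e1 : Ring1.RF n Ψ = app (RR u D 0) (b2 t) := by
    rw [e]
    apply cs_inj
    simp
  have hc := Ring1.cont_RF hn Ψ
  rw [e1, cont_app] at hc
  have hb : ∀ t, OddHC.cont (b2 t) = Multiset.replicate t 2 := by
    intro t
    induction t with
    | zero => rfl
    | succ t ih =>
      change OddHC.cont (l1 △ b2 t) = _
      rw [cont_l1', ih, Multiset.replicate_succ]
      rfl
  rw [hb] at hc
  -- `cont S' = {n+2} + 2^a`
  have ha : t ≤ ∑ x, Ψ x := by
    have h1 := congrArg (Multiset.count 2) hc
    rw [Multiset.count_add, Multiset.count_add, Multiset.count_replicate, Multiset.count_replicate,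
      Multiset.count_singleton, if_pos rfl, if_pos rfl, if_neg (by omega)] at h1
    omega
  obtain ⟨a, ha⟩ := Nat.exists_eq_add_of_le ha
  have hS : OddHC.cont (RR u D 0) = {n + 2} + Multiset.replicate a 2 := by
    rw [ha, Multiset.replicate_add, add_comm (Multiset.replicate t 2), ← add_assoc] at hc
    exact add_right_cancel hc
  have hSS : OddHC.cont (RR u D 0 △ .nil) = {n + 3} + Multiset.replicate a 2 := by
    rw [cont_node, cont_nil, add_zero, hS]
    have hs : ({n + 2} + Multiset.replicate a 2 : Multiset ℕ).sup = n + 2 := by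
      rw [Multiset.sup_add, Multiset.sup_singleton]
      apply sup_eq_left.2
      apply Multiset.sup_le.2
      intro b hb
      rw [Multiset.eq_of_mem_replicate hb]
      omega
    unfold raise
    rw [hs, Multiset.singleton_add, Multiset.erase_cons_head]
    rfl
  obtain ⟨G, _, h2⟩ := Ring1.exists_RF (n := n + 1) (a := t + a) (by omega)
    (w := app (b2 t) (RR u D 0 △ .nil)) (by
      rw [cont_app, hb, hSS, Multiset.replicate_add, ← add_assoc, ← add_assoc,
        add_comm (Multiset.replicate t 2)])
  exact ⟨G, h2⟩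

/-- **E against the gadgets of a class**: no common word, if the `E`-group does not contain the T-cycle of `()R()` -/
theorem JG.disj_E (hn : 1 ≤ n) {B : Finset (X k)} {P U M : Set (ZMod (2 * n + 1) → ℕ)}
    (h : JG n B P U M) (hP : ∀ Φ ∈ P, 1 ≤ ∑ x, Φ x) (hM : ∀ Ψ ∈ M, 2 ≤ ∑ x, Ψ x)
    {F : Set (Cyc k)} {g : DG k} (hE : TyE F g)
    (hy : ∀ Φ ∈ P, ∀ x : X k, x.1 = pw (Ring1.RF n Φ) 2 → cyc x ∉ F) : ∀ w ∈ B, w ∉ g.B := by
  obtain ⟨X0, hX0, ht, r, f, hf, rfl, hl⟩ := hE.data
  obtain ⟨a, b, c, ha, hb, hc, h1, h2, h3, rfl, rfl⟩ := ht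
  have ha' : a.1 = ins r f △ .nil := ha
  have hb' : b.1 = app (ins r f) (.nil △ .nil) := hb
  have hc' : c.1 = .nil △ ins r f := hc
  intro w hw hwE
  have hwE' : w = a ∨ w = b ∨ w = c := by
    have : w ∈ ({a, b, c} : Finset (X k)) := hwE
    rwa [Finset.mem_insert, Finset.mem_insert, Finset.mem_singleton] at this
  have hX1 : ∀ A : BinaryTree Unit, app (ins r f) (.nil △ .nil) ≠ A △ .nil := by
    intro A e
    have e1 := congrArg (fun t => (cs t).length) e
    simp only [cs_app, cs_node, cs_nil, List.length_append, List.length_cons, List.length_nil] at e1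
    cases h4 : ins r f with
    | nil => exact hX0 h4
    | node _ C D => rw [h4, cs_node'] at e1; simp at e1
  rcases h w hw with ⟨Φ, hΦ, hp⟩ | ⟨G, hG, hu⟩ | ⟨Ψ, hΨ, hm⟩
  · have hS := hP Φ hΦ
    obtain ⟨p, q, D, hD, e, hcs⟩ := pu_cases hn hp
    have key : ∀ x : X k, x.1 = .nil △ app (RR p D q) (.nil △ .nil) → (x = b ∨ x = c) → False := by
      intro x hx hxb
      refine hy Φ hΦ x (by rw [hx, e]; rfl) ?_
      rcases hxb with rfl | rfl
      · exact Or.inl rfl
      · exact Or.inr rfl
    have hlast : ∀ Z : BinaryTree Unit, app Z (RR p D q) ≠ app (ins r f) (.nil △ .nil) := by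
      intro Z
      exact RR_last p D q hD Z _
    rcases hcs with e1 | e1 | e1 | e1 | e1 | e1 | e1 | e1
    · -- R()()
      obtain ⟨A, Y, e2, hA⟩ := RR_first p D q hD (.nil △ (.nil △ .nil))
      rcases hwE' with rfl | rfl | rfl
      · rw [ha', e2] at e1
        have h5 := congrArg (fun t => (cs t).length) (e2.trans e1.symm)
        simp only [cs_app, cs_RR, cs_node, cs_nil, List.length_append, List.length_cons,
          List.length_nil, List.length_replicate] at h5
        omega
      · rw [hb'] at e1
        have e3 : ins r f = app (RR p D q) (.nil △ .nil) := by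
          apply app_right (X := .nil △ .nil)
          rw [e1]
          apply cs_inj
          simp
        exact key c (by rw [hc', e3]) (Or.inr rfl)
      · rw [hc', e2] at e1
        exact hA (node_inj' e1).1.symm
    · -- ()R()
      rcases hwE' with rfl | rfl | rfl
      · rw [ha'] at e1
        exact hX0 (node_inj' e1).1
      · exact key _ e1 (Or.inl rfl)
      · exact key _ e1 (Or.inr rfl)
    · -- (R())
      rcases hwE' with rfl | rfl | rfl
      · rw [ha'] at e1
        exact key c (by rw [hc', (node_inj' e1).1]) (Or.inr rfl)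
      · rw [hb'] at e1
        exact hX1 _ e1
      · rw [hc'] at e1
        obtain ⟨A, Y, e2, hA⟩ := RR_first p D q hD (.nil △ .nil)
        rw [e2] at e1
        have := (node_inj' e1).1
        simp at this
    · -- ()()R
      rcases hwE' with rfl | rfl | rfl
      · rw [ha'] at e1
        exact hX0 (node_inj' e1).1
      · rw [hb'] at e1
        exact hlast (.nil △ (.nil △ .nil)) e1.symm
      · rw [hc'] at e1
        have e3 := (node_inj' e1).2
        refine key b ?_ (Or.inl rfl)
        rw [hb', e3]
        rfl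
    · -- (R)()
      rcases hwE' with rfl | rfl | rfl
      · rw [ha'] at e1
        exact absurd (node_inj' e1).2.symm (by simp)
      · rw [hb'] at e1
        refine not_low_prime hn hS hf hl ?_
        rw [e]
        exact app_right (X := .nil △ .nil) e1
      · rw [hc'] at e1
        exact absurd (node_inj' e1).1.symm (RR_ne p D q)
    · -- (()R)
      rcases hwE' with rfl | rfl | rfl
      · rw [ha'] at e1
        refine key b ?_ (Or.inl rfl)
        rw [hb', (node_inj' e1).1]
        rfl
      · rw [hb'] at e1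
        exact hX1 _ e1
      · rw [hc'] at e1
        exact absurd (node_inj' e1).1.symm (by simp)
    · -- ()(R)
      rcases hwE' with rfl | rfl | rfl
      · rw [ha'] at e1
        exact hX0 (node_inj' e1).1
      · rw [hb'] at e1
        have h5 := congrArg (fun t => (cs t).reverse) e1
        simp only [cs_app, cs_node, cs_nil, List.reverse_append, List.reverse_cons,
          List.reverse_nil, List.nil_append, List.singleton_append, List.cons_append,
          List.cons.injEq] at h5
        exact RR_ne p D q h5.1.symm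
      · rw [hc'] at e1
        refine not_low_prime hn hS hf hl ?_
        rw [e]
        exact (node_inj' e1).2
    · -- ((R))
      rcases hwE' with rfl | rfl | rfl
      · rw [ha'] at e1
        refine not_low_prime hn hS hf hl ?_
        rw [e]
        exact (node_inj' e1).1
      · rw [hb'] at e1
        exact hX1 _ e1
      · rw [hc'] at e1
        exact absurd (node_inj' e1).1.symm (by simp)
  · -- words of the class
    obtain ⟨h0, hw0⟩ := hu
    obtain ⟨D, hD, e⟩ := RF_shape hn G
    rw [e] at hw0
    obtain ⟨A, Y, e2, hA⟩ := RR_first (G 0) D (G (-1)) hD .nil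
    rw [app_nil'] at e2
    rcases hwE' with rfl | rfl | rfl
    · rw [ha'] at hw0
      have h5 := congrArg (fun t => (cs t).length) hw0
      simp only [cs_RR, cs_node, cs_nil, List.length_append, List.length_cons,
          List.length_nil, List.length_replicate] at h5
      omega
    · rw [hb'] at hw0
      exact RR_last _ D _ hD .nil _ hw0.symm
    · rw [hc', e2] at hw0
      exact hA (node_inj' hw0).1.symm
  · -- mixed words
    have hS := hM Ψ hΨ
    obtain ⟨t, u, D, ht, hD, e, hcs⟩ := mx_cases hm
    have hBS : ∀ X1 : BinaryTree Unit, ins r f = X1 → X1 = app (b2 t) (RR u D 0 △ .nil) → False := by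
      intro X1 h5 h6
      obtain ⟨G, hG⟩ := BS_RF hn hD e
      apply h1
      refine one_cyc (m := n + 1) (by omega) G ?_ ?_
      · rw [hb', h5, h6, hG]
      · rw [hc', h5, h6, hG]
    have hlow : ins r f = b2 t △ RR u D 0 → False := not_low_BS hn hS ht e hf hl
    obtain ⟨t, rfl⟩ : ∃ m, t = m + 1 := ⟨t - 1, by omega⟩
    have hDn : D ≠ .nil := fun h => by have := hD.ht; rw [h, OddHC.ht] at this; omega
    have hRn := RR_ne u D 0
    rcases hcs with e1 | e1 | e1 | e1 | e1 | e1 | e1 | e1 | e1
    · -- S'()()B'
      obtain ⟨A, Y, e2, hA⟩ := RR_first u D 0 hD (.nil △ (.nil △ b2 (t + 1)))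
      rcases hwE' with rfl | rfl | rfl
      · rw [ha'] at e1
        have h5 := congrArg (fun t => (cs t).length) e1
        simp only [cs_app, cs_RR, cs_b2, cs_node, cs_nil, List.length_append, List.length_cons,
          List.length_nil, List.length_replicate] at h5
        omega
      · rw [hb'] at e1
        have h5 := congrArg (fun t => (cs t).reverse) e1
        simp [List.replicate_succ'] at h5
      · rw [hc', e2] at e1
        exact hA (node_inj' e1).1.symm
    · -- ()B'(S')
      rcases hwE' with rfl | rfl | rfl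
      · rw [ha'] at e1
        exact hX0 (node_inj' e1).1
      · rw [hb'] at e1
        have h5 := congrArg (fun t => (cs t).reverse) e1
        simp [hRn.symm] at h5
      · rw [hc'] at e1
        exact hBS _ (node_inj' e1).2 rfl
    · -- (()B')S'
      rcases hwE' with rfl | rfl | rfl
      · rw [ha'] at e1
        exact hRn (node_inj' e1).2.symm
      · rw [hb'] at e1
        exact RR_last u D 0 hD ((.nil △ b2 (t + 1)) △ .nil) _ e1.symm
      · rw [hc'] at e1
        exact absurd (node_inj' e1).1.symm (by simp)
    · -- B'(S'())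
      rcases hwE' with rfl | rfl | rfl
      · rw [ha'] at e1
        have h5 := congrArg (fun t => (cs t).length) e1
        simp at h5
      · rw [hb'] at e1
        have h5 := congrArg (fun t => (cs t).reverse) e1
        have h6 : app (RR u D 0) (.nil △ .nil) ≠ .nil := by
          obtain ⟨A, Y, e2, hA⟩ := RR_first u D 0 hD (.nil △ .nil)
          rw [e2]; simp
        simp [h6.symm] at h5
      · rw [hc'] at e1
        exact absurd (node_inj' e1).1.symm (by simp)
    · -- B'(S')()
      rcases hwE' with rfl | rfl | rfl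
      · rw [ha'] at e1
        have h5 := congrArg (fun t => (cs t).length) e1
        simp at h5
      · rw [hb'] at e1
        refine hBS _ ?_ rfl
        apply app_right (X := .nil △ .nil)
        rw [e1]
        apply cs_inj
        simp
      · rw [hc'] at e1
        exact absurd (node_inj' e1).1.symm (by simp)
    · -- ()(B')S'
      rcases hwE' with rfl | rfl | rfl
      · rw [ha'] at e1
        exact hX0 (node_inj' e1).1
      · rw [hb'] at e1
        exact RR_last u D 0 hD (.nil △ (b2 (t + 1) △ .nil)) _ e1.symm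
      · rw [hc'] at e1
        exact hlow (node_inj' e1).2
    · -- (B'(S'))
      rcases hwE' with rfl | rfl | rfl
      · rw [ha'] at e1
        exact hBS _ (node_inj' e1).1 rfl
      · rw [hb'] at e1
        exact hX1 _ e1
      · rw [hc'] at e1
        exact absurd (node_inj' e1).1.symm (by
          have : b2 (t + 1) = l1 △ b2 t := rfl
          rw [this]; simp [app])
    · -- (B')S'()
      rcases hwE' with rfl | rfl | rfl
      · rw [ha'] at e1
        have h5 := congrArg (fun t => (cs t).length) e1
        simp at h5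
      · rw [hb'] at e1
        refine hlow ?_
        apply app_right (X := .nil △ .nil)
        rw [e1]
        apply cs_inj
        simp
      · rw [hc'] at e1
        exact absurd (node_inj' e1).1.symm (by
          have : b2 (t + 1) = l1 △ b2 t := rfl
          rw [this]; simp)
    · -- ((B')S')
      rcases hwE' with rfl | rfl | rfl
      · rw [ha'] at e1
        exact hlow (node_inj' e1).1
      · rw [hb'] at e1
        exact hX1 _ e1
      · rw [hc'] at e1
        exact absurd (node_inj' e1).1.symm (by simp)

end J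

end Pool.OddHC
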