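import Pool.Agent.Work.MP_8f87b2_h24.Ring1
import Pool.Agent.Work.MP_8f87b2_h24.FRs

/-!
MP_8f87b2_co: ONE SOLITON, `m = 0`, part (B6): the words over `u = ins (ch n) (lf F)` (content `(n + 1, 1^a)`):
after `2 n + 1` steps of `T` the word `u` is back and the star has moved by ONE letter. So the T-cycle of `ins u (lf b)`
depends on `b` only up to rotation, and on `F` only up to rotation.

* `full_turn`: `TT ^ (2 n + 1) u = u`, `sp u (2 n + 1) = 1`;
* `same_all`: `ins (ch n, F) b ~ ins (ch n, F (. + s)) (b (. + c))`;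
* words with two beads over `R = RF n F`, `R' = RF n (F (. + s))`:
  `same_bb : R()() ~ R'()()`, `same_bf : R()() ~ ()()R'`, `same_mid : ()R() ~ ()R'()`;
* `turn_fb`: `TT ^ (2 n + 1) (()()R) = R()()`; `TT_b_ne_f`: `TT (R()()) ≠ ()()R`.
-/

set_option autoImplicit false

namespace Pool.OddHC

namespace Ring1

open Finset BinaryTree

variable {n j k : ℕ}

/-- the first steps of `lf` -/
theorem take_lf_sum {L : ℕ} (F : ZMod L → ℕ) {q : ℕ} (hq : q ≤ L) :
    ((lf F).take q).sum = ∑ i ∈ range q, F ((i : ℕ) : ZMod L) := by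
  unfold lf
  rw [← List.map_take, List.take_range, Nat.min_eq_left hq]
  rfl

/-- the displacement over the word with one soliton -/
theorem Vo_phi_pw {q : ℕ} (hq : 1 ≤ q) (F : ZMod (2 * q + 1) → ℕ)
    (hk : q + pkn (pwX q).1 + ∑ x, F x = k) :
    Vo (phi (pwX q) F hk) =
      ((q + 1 + 2 * ∑ i ∈ range q, F ((i : ℕ) : ZMod (2 * q + 1)) : ℕ) : ZMod (2 * k + 1)) := by
  have h := (TF_ins (pwX q) (lf F) (lf_length _) (phi (pwX q) F hk) rfl).2
  rw [h]
  have hv : (Vo (pwX q)).val = q := by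
    rw [Vo_pw q hq, ZMod.val_natCast_of_lt (by omega)]
  rw [hv]
  have e1 : dsc true ((sl (pwX q).1).take (q + 1)) = 0 := by
    change dsc true ((sl (pw q)).take (q + 1)) = 0
    rw [take_pw, dsc, dsc_one]
    rfl
  rw [e1, take_lf_sum F (by omega)]
  congr 1

theorem unit_q {q : ℕ} (hq : 1 ≤ q) :
    Function.Bijective (fun t : ZMod (2 * q + 1) => t * (q : ZMod (2 * q + 1))) := by
  rw [← Finite.injective_iff_bijective]
  intro t t' htt
  simp only at htt
  have h6 : (2 * (q : ZMod (2 * q + 1)) + 1) = 0 := by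
    have := ZMod.natCast_self (2 * q + 1)
    push_cast at this
    exact this
  linear_combination -2 * htt + (t - t') * h6

/-- the sum over all rotations by multiples of `q` -/
theorem sum_turn {q : ℕ} (hq : 1 ≤ q) (F : ZMod (2 * q + 1) → ℕ) (c : ZMod (2 * q + 1)) :
    ∑ i ∈ range (2 * q + 1), F (c + ((i : ℕ) : ZMod (2 * q + 1)) * q) = ∑ x, F x := by
  have h5 : ∑ i ∈ range (2 * q + 1), F (c + ((i : ℕ) : ZMod (2 * q + 1)) * q) =
      (lf (fun t : ZMod (2 * q + 1) => F (c + t * q))).sum := rfl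
  rw [h5, lf_sum]
  have h1 := Function.Bijective.sum_comp (unit_q hq) (fun y : ZMod (2 * q + 1) => F (c + y))
  rw [h1]
  exact Equiv.sum_comp (Equiv.addLeft c) F

/-- ONE FULL TURN over one soliton -/
theorem full_turn {q : ℕ} (hq : 1 ≤ q) (F : ZMod (2 * q + 1) → ℕ)
    (hk : q + pkn (pwX q).1 + ∑ x, F x = k) :
    (TT ^ (2 * q + 1)) (phi (pwX q) F hk) = phi (pwX q) F hk ∧
      sp (phi (pwX q) F hk) (2 * q + 1) = 1 := by
  have hL : ((2 * q + 1 : ℕ) : ZMod (2 * q + 1)) = 0 := ZMod.natCast_self _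
  have hstep : ∀ i : ℕ, ∃ hk' : q + pkn (pwX q).1 +
      ∑ x : ZMod (2 * q + 1), F (x + (i : ZMod (2 * q + 1)) * q) = k,
      (TT ^ i) (phi (pwX q) F hk) = phi (pwX q) (fun x => F (x + (i : ZMod (2 * q + 1)) * q)) hk' := by
    intro i
    refine ⟨by rw [sum_shift]; exact hk, ?_⟩
    rw [pow_phi]
    apply phi_congr (sp_pw q hq i).2
    funext x
    rw [(sp_pw q hq i).1]
  constructor
  · obtain ⟨hk', h1⟩ := hstep (2 * q + 1)
    rw [h1]
    apply phi_congr rfl
    funext x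
    rw [hL, zero_mul, add_zero]
  · rw [sp_sum]
    have h2 : ∀ i ∈ range (2 * q + 1), Vo ((TT ^ i) (phi (pwX q) F hk)) =
        ((q + 1 + 2 * ∑ l ∈ range q, F (((l : ℕ) : ZMod (2 * q + 1)) + (i : ZMod (2 * q + 1)) * q) : ℕ) :
          ZMod (2 * k + 1)) := by
      intro i _
      obtain ⟨hk', h1⟩ := hstep i
      rw [h1, Vo_phi_pw hq]
    rw [sum_congr rfl h2, ← Nat.cast_sum]
    have h3 : ∑ i ∈ range (2 * q + 1),
        (q + 1 + 2 * ∑ l ∈ range q, F (((l : ℕ) : ZMod (2 * q + 1)) + (i : ZMod (2 * q + 1)) * q)) =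
        (2 * q + 1) * (q + 1) + 2 * (q * ∑ x, F x) := by
      rw [sum_add_distrib, sum_const, card_range, smul_eq_mul, ← mul_sum, sum_comm]
      congr 2
      rw [sum_congr rfl (fun l _ => sum_turn hq F ((l : ℕ) : ZMod (2 * q + 1))), sum_const,
        card_range, smul_eq_mul]
    rw [h3]
    have hp : pkn (pwX q).1 = 1 := by
      obtain ⟨p, hp⟩ : ∃ p, q = p + 1 := ⟨q - 1, by omega⟩
      change pkn (pw q) = 1
      rw [hp, pkn_pw]
    have h4 : (2 * q + 1) * (q + 1) + 2 * (q * ∑ x, F x) = q * (2 * k + 1) + 1 := by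
      rw [← hk, hp]
      ring
    rw [h4, Nat.cast_add, Nat.cast_mul, ZMod.natCast_self, mul_zero, zero_add, Nat.cast_one]

/-- the full turn moves the beads of the second level by one gap -/
theorem turn_phi {q : ℕ} (hq : 1 ≤ q) (F : ZMod (2 * q + 1) → ℕ)
    (hj : q + pkn (pwX q).1 + ∑ x, F x = j) (b : ZMod (2 * j + 1) → ℕ)
    (h : j + pkn (phi (pwX q) F hj).1 + ∑ x, b x = k) :
    (TT ^ (2 * q + 1)) (phi (phi (pwX q) F hj) b h) =
      phi (phi (pwX q) F hj) (fun x => b (x + 1)) (by rw [sum_shift]; exact h) := by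
  rw [pow_phi]
  obtain ⟨h1, h2⟩ := full_turn hq F hj
  apply phi_congr h1
  funext x
  rw [h2]

/-- rotation of the beads of the second level -/
theorem same_rot {q : ℕ} (hq : 1 ≤ q) (F : ZMod (2 * q + 1) → ℕ)
    (hj : q + pkn (pwX q).1 + ∑ x, F x = j) (b : ZMod (2 * j + 1) → ℕ)
    (h : j + pkn (phi (pwX q) F hj).1 + ∑ x, b x = k) (c : ZMod (2 * j + 1)) :
    (TT : Equiv.Perm (X k)).SameCycle (phi (phi (pwX q) F hj) b h)
      (phi (phi (pwX q) F hj) (fun x => b (x + c)) (by rw [sum_shift]; exact h)) := by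
  obtain ⟨i, rfl⟩ : ∃ i : ℕ, (i : ZMod (2 * j + 1)) = c := ⟨c.val, ZMod.natCast_zmod_val c⟩
  induction i with
  | zero =>
    have e : phi (phi (pwX q) F hj) (fun x => b (x + ((0 : ℕ) : ZMod (2 * j + 1))))
        (by rw [sum_shift]; exact h) = phi (phi (pwX q) F hj) b h :=
      phi_congr rfl (by funext x; rw [Nat.cast_zero, add_zero]) _ _
    rw [e]
  | succ i ih =>
    refine ih.trans ⟨((2 * q + 1 : ℕ) : ℤ), ?_⟩
    rw [zpow_natCast, turn_phi hq]
    apply phi_congr rfl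
    funext x
    rw [Nat.cast_succ, add_assoc, add_comm (1 : ZMod (2 * j + 1))]

/-- rotation of both levels -/
theorem same_all {q : ℕ} (hq : 1 ≤ q) (F F' : ZMod (2 * q + 1) → ℕ) (s : ZMod (2 * q + 1))
    (hF : F' = fun x => F (x + s))
    (hj : q + pkn (pwX q).1 + ∑ x, F x = j) (hj' : q + pkn (pwX q).1 + ∑ x, F' x = j)
    (b b' : ZMod (2 * j + 1) → ℕ) (c : ZMod (2 * j + 1)) (hb : b' = fun x => b (x + c))
    (h : j + pkn (phi (pwX q) F hj).1 + ∑ x, b x = k)
    (h' : j + pkn (phi (pwX q) F' hj').1 + ∑ x, b' x = k) :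
    (TT : Equiv.Perm (X k)).SameCycle (phi (phi (pwX q) F hj) b h)
      (phi (phi (pwX q) F' hj') b' h') := by
  -- `s = i q`
  obtain ⟨t, ht⟩ := (unit_q hq).2 s
  simp only at ht
  have h1 : (TT : Equiv.Perm (X k)).SameCycle (phi (phi (pwX q) F hj) b h)
      ((TT ^ t.val) (phi (phi (pwX q) F hj) b h)) := ⟨(t.val : ℤ), by rw [zpow_natCast]⟩
  refine h1.trans ?_
  rw [pow_phi]
  have h2 : (TT ^ t.val) (phi (pwX q) F hj) = phi (pwX q) F' hj' := by
    rw [pow_phi]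
    apply phi_congr (sp_pw q hq t.val).2
    rw [hF]
    funext x
    rw [(sp_pw q hq t.val).1, ZMod.natCast_zmod_val, ht]
  have h3 : j + pkn (phi (pwX q) F' hj').1 +
      ∑ x, b (x + sp (phi (pwX q) F hj) t.val) = k := by
    rw [sum_shift, ← h2, pkn_pow]
    exact h
  have h4 : phi ((TT ^ t.val) (phi (pwX q) F hj)) (fun x => b (x + sp (phi (pwX q) F hj) t.val))
      (by rw [pkn_pow, sum_shift]; exact h) =
      phi (phi (pwX q) F' hj') (fun x => b (x + sp (phi (pwX q) F hj) t.val)) h3 :=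
    phi_congr h2 rfl _ _
  rw [h4]
  have h5 := same_rot hq F' hj' (fun x => b (x + sp (phi (pwX q) F hj) t.val)) h3
    (c - sp (phi (pwX q) F hj) t.val)
  have h6 : phi (phi (pwX q) F' hj')
      (fun x => b (x + (c - sp (phi (pwX q) F hj) t.val) + sp (phi (pwX q) F hj) t.val))
      (by
        have e := sum_shift (fun x => b (x + sp (phi (pwX q) F hj) t.val)) (c - sp (phi (pwX q) F hj) t.val)
        rw [e]
        exact h3) = phi (phi (pwX q) F' hj') b' h' := by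
    apply phi_congr rfl
    rw [hb]
    funext x
    congr 1
    ring
  rw [← h6]
  exact h5

/-! ### words with two beads -/

/-- `j` for `F` -/
theorem pk_pwX (hn : 1 ≤ n) : pkn (pwX n).1 = 1 := by
  obtain ⟨p, hp⟩ : ∃ p, n = p + 1 := ⟨n - 1, by omega⟩
  change pkn (pw n) = 1
  rw [hp, pkn_pw]

/-- the word of the first level as an element of `X j` -/
theorem pkn_phi_pw (hn : 1 ≤ n) (F : ZMod (2 * n + 1) → ℕ) (hj : n + pkn (pwX n).1 + ∑ x, F x = j) :
    pkn (phi (pwX n) F hj).1 = 1 + ∑ x, F x := by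
  have h := (in_num hn F).2
  rw [ch_eq] at h
  exact h

theorem RF_phi (F : ZMod (2 * n + 1) → ℕ) (hj : n + pkn (pwX n).1 + ∑ x, F x = j) :
    RF n F = ins (phi (pwX n) F hj).1 (lf (fun _ : ZMod (2 * j + 1) => 0)) := by
  unfold RF inf
  rw [lf_zero, ch_eq]
  have h : (ins (pw n) (lf F)).numNodes = j := by
    have h1 := X_num (phi (pwX n) F hj)
    exact h1
  rw [h]
  rfl

/-- `R()()` -/
theorem RF_bb (F : ZMod (2 * n + 1) → ℕ) (hj : n + pkn (pwX n).1 + ∑ x, F x = j) :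
    app (RF n F) (.nil △ (.nil △ .nil)) =
      ins (phi (pwX n) F hj).1 (lf (fun x : ZMod (2 * j + 1) => if x = -1 then 2 else 0)) := by
  rw [RF_phi F hj]
  have h1 := ins_back (phi (pwX n) F hj) (fun _ => 0)
  have h2 := ins_back (phi (pwX n) F hj) (fun x => 0 + if x = -1 then 1 else 0)
  rw [h1, app_assoc'] at h2
  have e : (fun x : ZMod (2 * j + 1) => if x = -1 then 2 else 0) =
      fun x => 0 + (if x = -1 then 1 else 0) + if x = -1 then 1 else 0 := by
    funext x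
    split_ifs <;> rfl
  rw [e, h2]
  rfl

/-- `()R()` -/
theorem RF_fb (F : ZMod (2 * n + 1) → ℕ) (hj : n + pkn (pwX n).1 + ∑ x, F x = j) :
    .nil △ app (RF n F) (.nil △ .nil) =
      ins (phi (pwX n) F hj).1
        (lf (fun x : ZMod (2 * j + 1) => (0 + if x = -1 then 1 else 0) + if x = 0 then 1 else 0)) := by
  rw [RF_phi F hj]
  have h1 := ins_back (phi (pwX n) F hj) (fun _ => 0)
  have h2 := ins_front (phi (pwX n) F hj) (fun x => 0 + if x = -1 then 1 else 0)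
  rw [h1] at h2
  rw [h2]

/-- `()()R` -/
theorem RF_ff (F : ZMod (2 * n + 1) → ℕ) (hj : n + pkn (pwX n).1 + ∑ x, F x = j) :
    .nil △ (.nil △ RF n F) =
      ins (phi (pwX n) F hj).1 (lf (fun x : ZMod (2 * j + 1) => if x = 0 then 2 else 0)) := by
  rw [RF_phi F hj]
  have h1 := ins_front (phi (pwX n) F hj) (fun _ => 0)
  have h2 := ins_front (phi (pwX n) F hj) (fun x => 0 + if x = 0 then 1 else 0)
  rw [h1] at h2
  have e : (fun x : ZMod (2 * j + 1) => if x = 0 then 2 else 0) =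
      fun x => 0 + (if x = 0 then 1 else 0) + if x = 0 then 1 else 0 := by
    funext x
    split_ifs <;> rfl
  rw [e, h2]

/-- a word over `(ch n, F)` as a `phi` -/
theorem eq_phi (F : ZMod (2 * n + 1) → ℕ) (hj : n + pkn (pwX n).1 + ∑ x, F x = j)
    (b : ZMod (2 * j + 1) → ℕ) {y : X k} (hy : y.1 = ins (phi (pwX n) F hj).1 (lf b)) :
    ∃ h : j + pkn (phi (pwX n) F hj).1 + ∑ x, b x = k, y = phi (phi (pwX n) F hj) b h := by
  have h1 := (ins_num (phi (pwX n) F hj).1 (lf b) (by rw [X_num, lf_length])).1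
  rw [← hy, X_num, X_num, lf_sum] at h1
  exact ⟨h1.symm, Subtype.ext hy⟩

theorem hj_of (hn : 1 ≤ n) (F : ZMod (2 * n + 1) → ℕ) :
    n + pkn (pwX n).1 + ∑ x, F x = n + 1 + ∑ x, F x := by rw [pk_pwX hn]

/-- the general transfer -/
theorem same_words (hn : 1 ≤ n) (F : ZMod (2 * n + 1) → ℕ) (s : ZMod (2 * n + 1)) {j : ℕ}
    (hj : n + pkn (pwX n).1 + ∑ x, F x = j) (hj' : n + pkn (pwX n).1 + ∑ x, F (x + s) = j)
    (b b' : ZMod (2 * j + 1) → ℕ) (c : ZMod (2 * j + 1)) (hb : b' = fun x => b (x + c))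
    {y z : X k} (hy : y.1 = ins (phi (pwX n) F hj).1 (lf b))
    (hz : z.1 = ins (phi (pwX n) (fun x => F (x + s)) hj').1 (lf b')) :
    (TT : Equiv.Perm (X k)).SameCycle y z := by
  obtain ⟨h1, rfl⟩ := eq_phi F hj b hy
  obtain ⟨h2, rfl⟩ := eq_phi (fun x => F (x + s)) hj' b' hz
  exact same_all hn F (fun x => F (x + s)) s rfl hj hj' b b' c hb h1 h2

variable {y z : X k}

/-- `R()() ~ R'()()`, `R' = RF n (F (. + s))` -/
theorem same_bb (hn : 1 ≤ n) (F : ZMod (2 * n + 1) → ℕ) (s : ZMod (2 * n + 1))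
    (hy : y.1 = app (RF n F) (.nil △ (.nil △ .nil)))
    (hz : z.1 = app (RF n fun x => F (x + s)) (.nil △ (.nil △ .nil))) :
    (TT : Equiv.Perm (X k)).SameCycle y z := by
  have hj := hj_of hn F
  have hj' : n + pkn (pwX n).1 + ∑ x, F (x + s) = n + 1 + ∑ x, F x := by rw [shift_sum]; exact hj
  rw [RF_bb F hj] at hy
  rw [RF_bb _ hj'] at hz
  exact same_words hn F s hj hj' _ _ 0 (by funext x; rw [add_zero]) hy hz

/-- `R()() ~ ()()R'` -/
theorem same_bf (hn : 1 ≤ n) (F : ZMod (2 * n + 1) → ℕ) (s : ZMod (2 * n + 1))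
    (hy : y.1 = app (RF n F) (.nil △ (.nil △ .nil)))
    (hz : z.1 = .nil △ (.nil △ RF n fun x => F (x + s))) :
    (TT : Equiv.Perm (X k)).SameCycle y z := by
  have hj := hj_of hn F
  have hj' : n + pkn (pwX n).1 + ∑ x, F (x + s) = n + 1 + ∑ x, F x := by rw [shift_sum]; exact hj
  rw [RF_bb F hj] at hy
  rw [RF_ff _ hj'] at hz
  refine same_words hn F s hj hj' _ _ (-1) ?_ hy hz
  funext x
  have : x + -1 = -1 ↔ x = 0 := by
    constructor
    · intro h; linear_combination h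
    · rintro rfl; ring
  simp only [this]

/-- `()()R ~ ()()R'` -/
theorem same_ff (hn : 1 ≤ n) (F : ZMod (2 * n + 1) → ℕ) (s : ZMod (2 * n + 1))
    (hy : y.1 = .nil △ (.nil △ RF n F))
    (hz : z.1 = .nil △ (.nil △ RF n fun x => F (x + s))) :
    (TT : Equiv.Perm (X k)).SameCycle y z := by
  have hj := hj_of hn F
  have hj' : n + pkn (pwX n).1 + ∑ x, F (x + s) = n + 1 + ∑ x, F x := by rw [shift_sum]; exact hj
  rw [RF_ff F hj] at hy
  rw [RF_ff _ hj'] at hz
  exact same_words hn F s hj hj' _ _ 0 (by funext x; rw [add_zero]) hy hz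

/-- `()R() ~ ()R'()` -/
theorem same_mid (hn : 1 ≤ n) (F : ZMod (2 * n + 1) → ℕ) (s : ZMod (2 * n + 1))
    (hy : y.1 = .nil △ app (RF n F) (.nil △ .nil))
    (hz : z.1 = .nil △ app (RF n fun x => F (x + s)) (.nil △ .nil)) :
    (TT : Equiv.Perm (X k)).SameCycle y z := by
  have hj := hj_of hn F
  have hj' : n + pkn (pwX n).1 + ∑ x, F (x + s) = n + 1 + ∑ x, F x := by rw [shift_sum]; exact hj
  rw [RF_fb F hj] at hy
  rw [RF_fb _ hj'] at hz
  exact same_words hn F s hj hj' _ _ 0 (by funext x; rw [add_zero]) hy hz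

/-! ### the order on the T-cycle -/

/-- `TT ^ (2 n + 1) (()()R) = R()()` -/
theorem turn_fb (hn : 1 ≤ n) (F : ZMod (2 * n + 1) → ℕ)
    (hy : y.1 = app (RF n F) (.nil △ (.nil △ .nil)))
    (hz : z.1 = .nil △ (.nil △ RF n F)) : (TT ^ (2 * n + 1)) z = y := by
  have hj := hj_of hn F
  rw [RF_bb F hj] at hy
  rw [RF_ff F hj] at hz
  obtain ⟨h1, rfl⟩ := eq_phi F hj _ hy
  obtain ⟨h2, rfl⟩ := eq_phi F hj _ hz
  rw [turn_phi hn]
  apply phi_congr rfl
  funext x
  have : x + 1 = 0 ↔ x = -1 := by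
    constructor
    · intro h; linear_combination h
    · rintro rfl; ring
  simp only [this]

theorem part_le (F : ZMod (2 * n + 1) → ℕ) {m : ℕ} (hm : m ≤ 2 * n + 1) :
    ∑ i ∈ range m, F ((i : ℕ) : ZMod (2 * n + 1)) ≤ ∑ x, F x := by
  have h1 : ∑ i ∈ range (2 * n + 1), F ((i : ℕ) : ZMod (2 * n + 1)) = ∑ x, F x := by
    rw [← lf_sum]
    rfl
  rw [← h1]
  apply sum_le_sum_of_subset
  intro i hi
  rw [mem_range] at hi ⊢
  omega

/-- the displacement of `T^2` over one soliton -/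
theorem sp_two (hn : 1 ≤ n) (F : ZMod (2 * n + 1) → ℕ) (hj : n + pkn (pwX n).1 + ∑ x, F x = j) :
    sp (phi (pwX n) F hj) 2 = -((1 + 2 * F (-1) : ℕ) : ZMod (2 * j + 1)) := by
  have h0 : sp (phi (pwX n) F hj) 2 = Vo (phi (pwX n) F hj) + Vo (TT (phi (pwX n) F hj)) := by
    rw [sp_succ, sp_succ, sp_zero, zero_add, pow_zero, Equiv.Perm.one_apply, pow_one]
  have hj' : n + pkn (pwX n).1 + ∑ x, F (x + n) = j := by rw [shift_sum]; exact hj
  have h1 : TT (phi (pwX n) F hj) = phi (pwX n) (fun x => F (x + n)) hj' := by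
    rw [TT_phi]
    apply phi_congr (T_pwX n)
    funext x
    rw [Vo_pw n hn]
  rw [h0, h1, Vo_phi_pw hn, Vo_phi_pw hn, ← Nat.cast_add]
  -- the sum over `2 n` places
  have h2 : ∑ i ∈ range n, F ((i : ℕ) : ZMod (2 * n + 1)) +
      ∑ i ∈ range n, F (((i : ℕ) : ZMod (2 * n + 1)) + n) + F (-1) = ∑ x, F x := by
    have h3 : ∑ i ∈ range (2 * n + 1), F ((i : ℕ) : ZMod (2 * n + 1)) = ∑ x, F x := by
      rw [← lf_sum]
      rfl
    obtain ⟨g, hg⟩ : ∃ g : ℕ → ℕ, g = fun i : ℕ => F ((i : ℕ) : ZMod (2 * n + 1)) := ⟨_, rfl⟩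
    have hg1 : ∀ i : ℕ, F ((i : ℕ) : ZMod (2 * n + 1)) = g i := fun i => by rw [hg]
    have hg2 : ∀ i : ℕ, F (((i : ℕ) : ZMod (2 * n + 1)) + n) = g (n + i) := fun i => by
      rw [hg]
      congr 1
      push_cast
      ring
    have hg3 : F (-1) = g (n + n) := by
      rw [hg]
      congr 1
      have := ZMod.natCast_self (2 * n + 1)
      push_cast at this ⊢
      linear_combination -this
    rw [← h3, hg3]
    simp only [hg1, hg2]
    have e : 2 * n + 1 = n + n + 1 := by ring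
    rw [e, sum_range_succ, sum_range_add]
  have h4 : n + 1 + 2 * ∑ i ∈ range n, F ((i : ℕ) : ZMod (2 * n + 1)) +
      (n + 1 + 2 * ∑ i ∈ range n, F (((i : ℕ) : ZMod (2 * n + 1)) + n)) + (1 + 2 * F (-1)) = 2 * j + 1 := by
    rw [← hj, pk_pwX hn, ← h2]
    ring
  have h5 := congrArg (Nat.cast : ℕ → ZMod (2 * j + 1)) h4
  rw [Nat.cast_add, ZMod.natCast_self] at h5
  linear_combination h5

theorem cast_ne {M m : ℕ} (h1 : 1 ≤ m) (h2 : m < M) : ((m : ℕ) : ZMod M) ≠ 0 := by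
  intro h
  rw [ZMod.natCast_eq_zero_iff] at h
  have := Nat.le_of_dvd (by omega) h
  omega

/-- `T (R()()) ≠ ()()R` -/
theorem TT_b_ne_f (hn : 1 ≤ n) (F : ZMod (2 * n + 1) → ℕ)
    (hy : y.1 = app (RF n F) (.nil △ (.nil △ .nil)))
    (hz : z.1 = .nil △ (.nil △ RF n F)) : TT y ≠ z := by
  intro he
  have hj := hj_of hn F
  rw [RF_bb F hj] at hy
  rw [RF_ff F hj] at hz
  obtain ⟨h1, rfl⟩ := eq_phi F hj _ hy
  obtain ⟨h2, rfl⟩ := eq_phi F hj _ hz
  rw [TT_phi] at he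
  have h3 := congrFun (phi_inj he).2 0
  simp only [zero_add, if_true] at h3
  have h4 : Vo (phi (pwX n) F hj) = -1 := by
    by_contra hne
    rw [if_neg hne] at h3
    omega
  rw [Vo_phi_pw hn] at h4
  have h5 := part_le F (m := n) (by omega)
  refine cast_ne (M := 2 * (n + 1 + ∑ x, F x) + 1)
    (m := n + 1 + 2 * ∑ i ∈ range n, F ((i : ℕ) : ZMod (2 * n + 1)) + 1) (by omega) (by omega) ?_
  rw [Nat.cast_add, h4]
  push_cast
  ring

/-- `R()() ≠ ()()R` -/
theorem b_ne_f (hn : 1 ≤ n) (F : ZMod (2 * n + 1) → ℕ)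
    (hy : y.1 = app (RF n F) (.nil △ (.nil △ .nil)))
    (hz : z.1 = .nil △ (.nil △ RF n F)) : y ≠ z := by
  intro he
  have hj := hj_of hn F
  rw [RF_bb F hj] at hy
  rw [RF_ff F hj] at hz
  obtain ⟨h1, rfl⟩ := eq_phi F hj _ hy
  obtain ⟨h2, rfl⟩ := eq_phi F hj _ hz
  have h3 := congrFun (phi_inj he).2 0
  simp only [if_true] at h3
  have h4 : (0 : ZMod (2 * (n + 1 + ∑ x, F x) + 1)) = -1 := by
    by_contra hne
    rw [if_neg hne] at h3
    omega
  refine cast_ne (M := 2 * (n + 1 + ∑ x, F x) + 1) (m := 1) le_rfl (by omega) ?_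
  rw [Nat.cast_one]
  linear_combination h4

/-- `T^2 (R()()) ≠ ()()R` if there is at least one bead of the first level -/
theorem TT2_b_ne_f (hn : 1 ≤ n) (F : ZMod (2 * n + 1) → ℕ) (hF : 1 ≤ ∑ x, F x)
    (hy : y.1 = app (RF n F) (.nil △ (.nil △ .nil)))
    (hz : z.1 = .nil △ (.nil △ RF n F)) : TT (TT y) ≠ z := by
  intro he
  have hj := hj_of hn F
  rw [RF_bb F hj] at hy
  rw [RF_ff F hj] at hz
  obtain ⟨h1, rfl⟩ := eq_phi F hj _ hy
  obtain ⟨h2, rfl⟩ := eq_phi F hj _ hz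
  have he2 : (TT ^ 2) (phi (phi (pwX n) F hj) _ h1) = phi (phi (pwX n) F hj) _ h2 := he
  rw [pow_phi] at he2
  obtain ⟨e1, e2⟩ := phi_inj he2
  have h3 := congrFun e2 0
  simp only [zero_add, if_true] at h3
  have h4 : sp (phi (pwX n) F hj) 2 = -1 := by
    by_contra hne
    rw [if_neg hne] at h3
    omega
  rw [sp_two hn] at h4
  -- `F (-1) = 0`
  have h5 : F (-1) ≤ ∑ x, F x := single_le_sum (fun _ _ => Nat.zero_le _) (mem_univ _)
  have h6 : F (-1) = 0 := by
    by_contra hne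
    refine cast_ne (M := 2 * (n + 1 + ∑ x, F x) + 1) (m := 2 * F (-1)) (by omega) (by omega) ?_
    push_cast at h4 ⊢
    linear_combination -h4
  -- `F` is constant
  rw [pow_phi] at e1
  have e3 := (phi_inj e1).2
  rw [(sp_pw n hn 2).1] at e3
  have h7 : ∀ x, F (x - 1) = F x := by
    intro x
    have := congrFun e3 x
    rw [two_n, ← sub_eq_add_neg] at this
    exact this
  have h8 : ∀ m : ℕ, F (-1 - (m : ZMod (2 * n + 1))) = 0 := by
    intro m
    induction m with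
    | zero => rw [Nat.cast_zero, sub_zero, h6]
    | succ m ih =>
      have := h7 (-1 - (m : ZMod (2 * n + 1)))
      rw [ih] at this
      rw [← this]
      congr 1
      push_cast
      ring
  have h9 : ∑ x, F x = 0 := by
    apply sum_eq_zero
    intro x _
    have := h8 (-1 - x).val
    rw [ZMod.natCast_zmod_val] at this
    rw [← this]
    congr 1
    ring
  omega

/-- `T^2` moves `R()()` -/
theorem TT2_b_ne (hn : 1 ≤ n) (F : ZMod (2 * n + 1) → ℕ)
    (hy : y.1 = app (RF n F) (.nil △ (.nil △ .nil))) : TT (TT y) ≠ y := by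
  intro he
  have hj := hj_of hn F
  rw [RF_bb F hj] at hy
  obtain ⟨h1, rfl⟩ := eq_phi F hj _ hy
  have he2 : (TT ^ 2) (phi (phi (pwX n) F hj) _ h1) = phi (phi (pwX n) F hj) _ h1 := he
  rw [pow_phi] at he2
  have h3 := congrFun (phi_inj he2).2 (-1)
  simp only [if_true] at h3
  have h4 : (-1 : ZMod (2 * (n + 1 + ∑ x, F x) + 1)) + sp (phi (pwX n) F hj) 2 = -1 := by
    by_contra hne
    rw [if_neg hne] at h3
    omega
  rw [sp_two hn] at h4
  have h5 : F (-1) ≤ ∑ x, F x := single_le_sum (fun _ _ => Nat.zero_le _) (mem_univ _)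
  refine cast_ne (M := 2 * (n + 1 + ∑ x, F x) + 1) (m := 1 + 2 * F (-1)) (by omega) (by omega) ?_
  linear_combination -h4

/-- `T^2` moves `()()R` -/
theorem TT2_f_ne (hn : 1 ≤ n) (F : ZMod (2 * n + 1) → ℕ)
    (hz : z.1 = .nil △ (.nil △ RF n F)) : TT (TT z) ≠ z := by
  intro he
  have hj := hj_of hn F
  rw [RF_ff F hj] at hz
  obtain ⟨h1, rfl⟩ := eq_phi F hj _ hz
  have he2 : (TT ^ 2) (phi (phi (pwX n) F hj) _ h1) = phi (phi (pwX n) F hj) _ h1 := he
  rw [pow_phi] at he2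
  have h3 := congrFun (phi_inj he2).2 0
  simp only [zero_add, if_true] at h3
  have h4 : sp (phi (pwX n) F hj) 2 = 0 := by
    by_contra hne
    rw [if_neg hne] at h3
    omega
  rw [sp_two hn] at h4
  have h5 : F (-1) ≤ ∑ x, F x := single_le_sum (fun _ _ => Nat.zero_le _) (mem_univ _)
  refine cast_ne (M := 2 * (n + 1 + ∑ x, F x) + 1) (m := 1 + 2 * F (-1)) (by omega) (by omega) ?_
  linear_combination -h4

/-- THE ORDER on the T-cycle of `y = R()()` (word 1), `TT (TT y)` (word 11), `z = ()()R` (word 5): `1, 11, 5` -/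
theorem order_right (hn : 1 ≤ n) (F : ZMod (2 * n + 1) → ℕ) (hF : 1 ≤ ∑ x, F x)
    (hy : y.1 = app (RF n F) (.nil △ (.nil △ .nil)))
    (hz : z.1 = .nil △ (.nil △ RF n F)) {v : X k} (hv : TT (TT y) = v) :
    FR TT {y, v, z} y v ∧ FR TT {y, v, z} v z ∧ FR TT {y, v, z} z y := by
  have hs : (TT : Equiv.Perm (X k)).SameCycle y z := by
    have h := same_bf hn F 0 hy (z := z) (by simp only [add_zero]; exact hz)
    exact h
  exact FR.three hv (fun h => TT2_b_ne hn F hy (hv.trans h.symm)) (b_ne_f hn F hy hz)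
    (fun h => TT2_b_ne_f hn F hF hy hz (hv.trans h)) (TT_b_ne_f hn F hy hz) hs

/-- THE ORDER in the mirror image: `z = ()()R` (word 1), `v` with `TT (TT v) = z` (word 11), `y = R()()` (word 5):
`11, 1, 5` -/
theorem order_left (hn : 1 ≤ n) (F : ZMod (2 * n + 1) → ℕ) (hF : 1 ≤ ∑ x, F x)
    (hy : y.1 = app (RF n F) (.nil △ (.nil △ .nil)))
    (hz : z.1 = .nil △ (.nil △ RF n F)) {v : X k} (hv : TT (TT v) = z) :
    FR TT {v, z, y} v z ∧ FR TT {v, z, y} z y ∧ FR TT {v, z, y} y v := by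
  have hs : (TT : Equiv.Perm (X k)).SameCycle y z := by
    have h := same_bf hn F 0 hy (z := z) (by simp only [add_zero]; exact hz)
    exact h
  have hvz : (TT : Equiv.Perm (X k)).SameCycle v z := ⟨2, by rw [← hv]; rfl⟩
  refine FR.three hv ?_ ?_ (fun h => b_ne_f hn F hy hz h.symm) ?_ (hvz.trans hs.symm)
  · intro h
    apply TT2_f_ne hn F hz
    rw [← h, hv, h]
  · intro h
    apply TT2_b_ne_f hn F hF hy hz
    rw [← h, hv]
  · intro h
    apply TT_b_ne_f hn F hy hz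
    rw [← h, hv]

end Ring1

end Pool.OddHC
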