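import Pool.Agent.Work.MP_8f87b2_h22.JP

/-!
# MP_8f87b2_co: the one-soliton gadgets: contents; against Cr, Cl
-/

set_option autoImplicit false
set_option linter.unusedSimpArgs false
set_option linter.unusedVariables false

namespace Pool.OddHC

open Finset Equiv BinaryTree Pool.Agent.Work.MP_8f87b2_co

namespace J

variable {k n : ℕ}

theorem raise_gen {s : ℕ} {M : Multiset ℕ} (h : ∀ x ∈ M, x ≤ s) :
    raise ({s} + M) = {s + 1} + M := by
  have hs' : ({s} + M : Multiset ℕ).sup = s := by
    rw [Multiset.sup_add, Multiset.sup_singleton]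
    exact sup_eq_left.2 (Multiset.sup_le.2 h)
  unfold raise
  rw [hs', Multiset.singleton_add, Multiset.erase_cons_head]
  rfl

theorem raise_b2 (t : ℕ) : raise (OddHC.cont (b2 (t + 1))) = {3} + Multiset.replicate t 2 := by
  rw [cont_b2, Multiset.replicate_succ, ← Multiset.singleton_add]
  exact raise_gen (s := 2) (fun x hx => by rw [Multiset.eq_of_mem_replicate hx])

/-- the words of a gadget with their contents -/
theorem JG.cases2 (hn : 1 ≤ n) {B : Finset (X k)} {P U M : Set (ZMod (2 * n + 1) → ℕ)}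
    (h : JG n B P U M) {w : X k} (hw : w ∈ B) : ∃ (s b : ℕ), 3 ≤ s ∧
    (OddHC.cont w.1 = {s} + Multiset.replicate b 2 ∨
      OddHC.cont w.1 = {s} + Multiset.replicate b 2 + {1} ∨
      OddHC.cont w.1 = {s} + Multiset.replicate b 2 + {1} + {1} ∨
      (OddHC.cont w.1 = {s} + {3} + Multiset.replicate b 2 + {1} ∧
        ∃ (t u : ℕ) (D : BinaryTree Unit), GD D ∧ (w.1 = (.nil △ b2 (t + 1)) △ RR u D 0 ∨
          w.1 = .nil △ (b2 (t + 1) △ RR u D 0) ∨ w.1 = b2 (t + 1) △ app (RR u D 0) (.nil △ .nil))) ∨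
      (OddHC.cont w.1 = {s} + {3} + Multiset.replicate b 2 ∧
        ∃ (t u : ℕ) (D : BinaryTree Unit), GD D ∧ w.1 = (b2 (t + 1) △ RR u D 0) △ .nil)) := by
  rcases h.cases hn hw with ⟨Φ, hΦ, p, q, D, hD, e, hcs⟩ | ⟨G, hG, p, q, D, hD, h0, e, hcs⟩ |
    ⟨Ψ, hΨ, t, u, D, hD, e, hcs⟩
  · have hc := Ring1.cont_RF hn Φ
    rw [e] at hc
    have h1 : raise ({n + 2} + Multiset.replicate (∑ x, Φ x) 2 + {1}) =
        {n + 3} + Multiset.replicate (∑ x, Φ x) 2 + {1} := by
      rw [add_assoc, raise_gen, ← add_assoc]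
      intro x hx
      rw [Multiset.mem_add, Multiset.mem_singleton] at hx
      rcases hx with hx | hx
      · rw [Multiset.eq_of_mem_replicate hx]; omega
      · omega
    have h2 := raise_one (s := n + 2) (a := ∑ x, Φ x) (by omega)
    have h3 := raise_one (s := n + 2 + 1) (a := ∑ x, Φ x) (by omega)
    rcases hcs with e1 | e1 | e1 | e1 | e1 | e1 | e1 | e1 <;> rw [e1]
    · refine ⟨n + 2, ∑ x, Φ x, by omega, Or.inr (Or.inr (Or.inl ?_))⟩
      rw [cont_app, cont_node, cont_node, raise_nil, cont_nil, hc]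
      abel
    · refine ⟨n + 2, ∑ x, Φ x, by omega, Or.inr (Or.inr (Or.inl ?_))⟩
      rw [cont_node, cont_app, cont_node, raise_nil, cont_nil, hc]
      abel
    · refine ⟨n + 3, ∑ x, Φ x, by omega, Or.inr (Or.inl ?_)⟩
      rw [cont_node, cont_nil, cont_app, cont_node, cont_nil, raise_zero, hc, add_zero, add_zero, h1]
    · refine ⟨n + 2, ∑ x, Φ x, by omega, Or.inr (Or.inr (Or.inl ?_))⟩
      rw [cont_node, cont_node, raise_nil, hc]
      abel
    · refine ⟨n + 3, ∑ x, Φ x, by omega, Or.inr (Or.inl ?_)⟩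
      rw [cont_node, cont_node, hc, cont_nil, raise_zero, h2]
      rfl
    · refine ⟨n + 3, ∑ x, Φ x, by omega, Or.inr (Or.inl ?_)⟩
      rw [cont_node, cont_node, hc, cont_nil, raise_zero, add_comm {1}, h1, add_zero]
    · refine ⟨n + 3, ∑ x, Φ x, by omega, Or.inr (Or.inl ?_)⟩
      rw [cont_node, cont_node, hc, cont_nil, raise_zero, h2, add_zero, add_comm {1}]
    · refine ⟨n + 4, ∑ x, Φ x, by omega, Or.inl ?_⟩
      rw [cont_node, cont_node, hc, cont_nil, add_zero, add_zero, h2, h3]
  · have hc := Ring1.cont_RF hn G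
    rw [e, ← hcs] at hc
    exact ⟨n + 2, _, by omega, Or.inl hc⟩
  · obtain ⟨a', ha', hcS⟩ := cont_S' hn e
    have hB := cont_b2 (t + 1)
    have hrB := raise_b2 t
    have h2 := raise_one (s := n + 2) (a := a') (by omega)
    have h1 : raise ({n + 2} + Multiset.replicate a' 2 + {1}) =
        {n + 3} + Multiset.replicate a' 2 + {1} := by
      rw [add_assoc, raise_gen, ← add_assoc]
      intro x hx
      rw [Multiset.mem_add, Multiset.mem_singleton] at hx
      rcases hx with hx | hx
      · rw [Multiset.eq_of_mem_replicate hx]; omega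
      · omega
    have h4 : raise ({1} + Multiset.replicate (t + 1) 2) = {3} + Multiset.replicate t 2 + {1} := by
      rw [Multiset.replicate_succ, ← Multiset.singleton_add, add_comm {1}, add_assoc, raise_gen,
        ← add_assoc]
      intro x hx
      rw [Multiset.mem_add, Multiset.mem_singleton] at hx
      rcases hx with hx | hx
      · rw [Multiset.eq_of_mem_replicate hx]
      · omega
    have h5 := raise_one (s := n + 3) (a := t + 1 + a') (by omega)
    have h6 : raise ({n + 2} + ({3} + Multiset.replicate (t + a') 2)) =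
        {n + 3} + ({3} + Multiset.replicate (t + a') 2) := by
      rw [raise_gen]
      intro x hx
      rw [Multiset.mem_add, Multiset.mem_singleton] at hx
      rcases hx with hx | hx
      · omega
      · rw [Multiset.eq_of_mem_replicate hx]; omega
    rcases hcs with e1 | e1 | e1 | e1 | e1 | e1 | e1 | e1 | e1
    · refine ⟨n + 2, t + 1 + a', by omega, Or.inr (Or.inr (Or.inl ?_))⟩
      rw [e1, cont_app, cont_node, cont_node, raise_nil, hB, hcS, Multiset.replicate_add (t + 1) a']
      abel
    · refine ⟨n + 3, t + 1 + a', by omega, Or.inr (Or.inl ?_)⟩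
      rw [e1, cont_node, cont_app, cont_node, raise_nil, cont_nil, hB, hcS, h2,
        Multiset.replicate_add (t + 1) a']
      change _ = {n + 2 + 1} + _ + _
      abel
    · refine ⟨n + 2, t + a', by omega, Or.inr (Or.inr (Or.inr (Or.inl ⟨?_, t, u, D, hD, Or.inl e1⟩)))⟩
      rw [e1, cont_node, cont_node, raise_nil, hB, hcS, h4, Multiset.replicate_add t a']
      abel
    · refine ⟨n + 3, t + 1 + a', by omega, Or.inr (Or.inl ?_)⟩
      rw [e1, cont_app, cont_node, cont_app, cont_node, raise_nil, cont_nil, hB, hcS, add_zero,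
        add_zero, h1, Multiset.replicate_add (t + 1) a']
      abel
    · refine ⟨n + 3, t + 1 + a', by omega, Or.inr (Or.inl ?_)⟩
      rw [e1, cont_app, cont_node, cont_node, raise_nil, cont_nil, hB, hcS, h2,
        Multiset.replicate_add (t + 1) a']
      change _ = {n + 2 + 1} + _ + _
      abel
    · refine ⟨n + 2, t + a', by omega, Or.inr (Or.inr (Or.inr (Or.inl
        ⟨?_, t, u, D, hD, Or.inr (Or.inl e1)⟩)))⟩
      rw [e1, cont_node, cont_node, raise_nil, hrB, hcS, Multiset.replicate_add t a']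
      abel
    · refine ⟨n + 4, t + 1 + a', by omega, Or.inl ?_⟩
      rw [e1, cont_node, cont_app, cont_node, cont_nil, hB, hcS, h2, add_zero, add_zero]
      change raise _ = {n + 3 + 1} + _
      rw [← h5, Multiset.replicate_add (t + 1) a']
      congr 1
      change _ + ({n + 2 + 1} + _) = _
      abel
    · refine ⟨n + 2, t + a', by omega, Or.inr (Or.inr (Or.inr (Or.inl
        ⟨?_, t, u, D, hD, Or.inr (Or.inr e1)⟩)))⟩
      rw [e1, cont_node, cont_app, cont_node, raise_nil, cont_nil, hrB, hcS,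
        Multiset.replicate_add t a']
      abel
    · refine ⟨n + 3, t + a', by omega, Or.inr (Or.inr (Or.inr (Or.inr ⟨?_, t, u, D, hD, e1⟩)))⟩
      rw [e1, cont_node, cont_node, cont_nil, hrB, hcS, add_zero]
      have h7 : ({3} + Multiset.replicate t 2 + ({n + 2} + Multiset.replicate a' 2) : Multiset ℕ) =
          {n + 2} + ({3} + Multiset.replicate (t + a') 2) := by
        rw [Multiset.replicate_add t a']
        abel
      rw [h7, h6]
      abel

/-- at most one part `≥ 4` -/
theorem JG.n4 (hn : 1 ≤ n) {B : Finset (X k)} {P U M : Set (ZMod (2 * n + 1) → ℕ)}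
    (h : JG n B P U M) {w : X k} (hw : w ∈ B) (x y : ℕ) (N : Multiset ℕ) (hx : 4 ≤ x) (hy : 4 ≤ y) :
    OddHC.cont w.1 ≠ {x} + {y} + N := by
  intro he
  have hcnt : 2 ≤ ((OddHC.cont w.1).filter (4 ≤ ·)).card := by
    rw [he, Multiset.filter_add, Multiset.filter_add, Multiset.filter_singleton,
      Multiset.filter_singleton, if_pos hx, if_pos hy, Multiset.card_add, Multiset.card_add,
      Multiset.card_singleton, Multiset.card_singleton]
    omega
  have hr : ∀ b, (Multiset.replicate b 2).filter (4 ≤ ·) = 0 := by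
    intro b
    rw [Multiset.filter_eq_nil]
    intro z hz
    rw [Multiset.eq_of_mem_replicate hz]
    omega
  have h1 : ({1} : Multiset ℕ).filter (4 ≤ ·) = 0 := rfl
  have h3 : ({3} : Multiset ℕ).filter (4 ≤ ·) = 0 := rfl
  have hs : ∀ s, (({s} : Multiset ℕ).filter (4 ≤ ·)).card ≤ 1 := by
    intro s
    exact (Multiset.card_le_card (Multiset.filter_le _ _)).trans (by rw [Multiset.card_singleton])
  obtain ⟨s, b, _, h4⟩ := h.cases2 hn hw
  have := hs s
  rcases h4 with h4 | h4 | h4 | ⟨h4, _⟩ | ⟨h4, _⟩ <;>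
    simp only [h4, Multiset.filter_add, hr, h1, h3, add_zero, Multiset.card_add,
      Multiset.card_zero] at hcnt <;> omega

theorem cont_top (t : BinaryTree Unit) (h : t ≠ .nil) :
    ∃ N, OddHC.cont t = {OddHC.ht t} + N := by
  have h1 := sup_mem (M := OddHC.cont t) (fun h2 => h (cont_eq_zero.1 h2))
  rw [← OddHC.ht_eq] at h1
  refine ⟨(OddHC.cont t).erase (OddHC.ht t), ?_⟩
  rw [Multiset.singleton_add, Multiset.cons_erase h1]

theorem cont_ch {c : ℕ} (h : 1 ≤ c) : OddHC.cont (H1.ch c) = {c} := by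
  have h1 : H1.ch c = pc c := by
    rw [Ring1.ch_eq]
    have : ∀ q : ℕ, OddHC.pw q = pc q := by
      intro q
      induction q with
      | zero => rfl
      | succ q ih =>
        change OddHC.pw q △ .nil = pc q △ .nil
        rw [ih]
    exact this _
  obtain ⟨c, rfl⟩ : ∃ c', c = c' + 1 := ⟨c - 1, by omega⟩
  rw [h1, cont_pc]

/-- two parts at least 3: only the forms 13, 16, 18, 19 -/
theorem JG.n3 (hn : 1 ≤ n) {B : Finset (X k)} {P U M : Set (ZMod (2 * n + 1) → ℕ)}
    (h : JG n B P U M) {w : X k} (hw : w ∈ B) (x y : ℕ) (N : Multiset ℕ) (hx : 3 ≤ x) (hy : 3 ≤ y)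
    (he : OddHC.cont w.1 = {x} + {y} + N) : ∃ (t u : ℕ) (D : BinaryTree Unit), GD D ∧
      (w.1 = (.nil △ b2 (t + 1)) △ RR u D 0 ∨ w.1 = .nil △ (b2 (t + 1) △ RR u D 0) ∨
        w.1 = b2 (t + 1) △ app (RR u D 0) (.nil △ .nil) ∨
        w.1 = (b2 (t + 1) △ RR u D 0) △ .nil) := by
  have hcnt : 2 ≤ ((OddHC.cont w.1).filter (3 ≤ ·)).card := by
    rw [he, Multiset.filter_add, Multiset.filter_add, Multiset.filter_singleton,
      Multiset.filter_singleton, if_pos hx, if_pos hy, Multiset.card_add, Multiset.card_add,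
      Multiset.card_singleton, Multiset.card_singleton]
    omega
  have hr : ∀ b, (Multiset.replicate b 2).filter (3 ≤ ·) = 0 := by
    intro b
    rw [Multiset.filter_eq_nil]
    intro z hz
    rw [Multiset.eq_of_mem_replicate hz]
    omega
  have h1 : ({1} : Multiset ℕ).filter (3 ≤ ·) = 0 := rfl
  have hs : ∀ s, (({s} : Multiset ℕ).filter (3 ≤ ·)).card ≤ 1 := by
    intro s
    exact (Multiset.card_le_card (Multiset.filter_le _ _)).trans (by rw [Multiset.card_singleton])
  obtain ⟨s, b, _, h4⟩ := h.cases2 hn hw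
  have := hs s
  rcases h4 with h4 | h4 | h4 | ⟨h4, t, u, D, hD, h5⟩ | ⟨h4, t, u, D, hD, h5⟩
  · simp only [h4, Multiset.filter_add, hr, h1, add_zero, Multiset.card_add,
      Multiset.card_zero] at hcnt
    omega
  · simp only [h4, Multiset.filter_add, hr, h1, add_zero, Multiset.card_add,
      Multiset.card_zero] at hcnt
    omega
  · simp only [h4, Multiset.filter_add, hr, h1, add_zero, Multiset.card_add,
      Multiset.card_zero] at hcnt
    omega
  · refine ⟨t, u, D, hD, ?_⟩
    rcases h5 with h5 | h5 | h5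
    · exact Or.inl h5
    · exact Or.inr (Or.inl h5)
    · exact Or.inr (Or.inr (Or.inl h5))
  · exact ⟨t, u, D, hD, Or.inr (Or.inr (Or.inr h5))⟩

theorem ht_b2le (t : ℕ) : OddHC.ht (.nil △ b2 (t + 1)) ≤ 2 := by
  have := ht_b2 (t + 1)
  rw [ht_node]
  have h0 : OddHC.ht (BinaryTree.nil : BinaryTree Unit) = 0 := rfl
  omega

/-- **Cr** -/
theorem JG.disj_Cr (hn : 1 ≤ n) {B : Finset (X k)} {P U M : Set (ZMod (2 * n + 1) → ℕ)}
    (h : JG n B P U M) {F : Set (Cyc k)} {g : DG k} (hC : TyCr F g) : ∀ w ∈ B, w ∉ g.B := by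
  obtain ⟨c, R, hc, hR, hodd, ht⟩ := hC
  have hc3 : 3 ≤ c := by
    obtain ⟨x, hx⟩ := hodd
    omega
  have hRn := ht_ge_ne hR
  have hcc := cont_ch (show 1 ≤ c by omega)
  have hcc1 := cont_ch (show 1 ≤ c + 1 by omega)
  obtain ⟨N, hN⟩ := cont_top R hRn
  have hchn := OddHC.ch_ne (show 1 ≤ c by omega)
  have hch2 := ch_ne2 hc
  have hcs : cs (H1.ch c) = [H1.ch (c - 1)] := by
    rw [← comps_cs]; exact comps_ch' (by omega)
  intro w hw hwE
  have hW := ht.words w hwE
  rcases hW with e | ⟨-, e | e⟩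
  · -- `(R)[c]`
    have hcont : OddHC.cont w.1 = {OddHC.ht R + 1} + {c} + (raise (OddHC.cont R)).erase (OddHC.ht R + 1) := by
      rw [e]
      change OddHC.cont (R △ H1.ch c) = _
      rw [cont_node, hcc]
      have h1 : OddHC.ht R + 1 ∈ raise (OddHC.cont R) := by
        unfold raise
        rw [← OddHC.ht_eq]
        exact Multiset.mem_cons_self _ _
      have h2 := Multiset.cons_erase h1
      rw [← Multiset.singleton_add] at h2
      conv_lhs => rw [← h2]
      abel
    obtain ⟨t, u, D, hD, h4⟩ := h.n3 hn hw _ _ _ (by omega) hc3 hcont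
    have hDn := hD.nil_ne
    rcases h4 with h4 | h4 | h4 | h4 <;> rw [h4] at e
    · have h5 : (BinaryTree.nil △ b2 (t + 1)) = R := (node_inj' e).1
      have h6 := ht_b2le t
      rw [h5] at h6
      omega
    · exact hRn (node_inj' e).1.symm
    · obtain ⟨h5, h6, h7⟩ := cs_fb e
      simp [w1, hcs] at h7
    · obtain ⟨h5, h6, h7⟩ := cs_fb e
      simp [w1, hcs] at h7
  · -- `R[c+1]`
    refine h.n4 hn hw (OddHC.ht R) (c + 1) N (by omega) (by omega) ?_
    rw [e]
    change OddHC.cont (app R (H1.ch c △ .nil)) = _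
    rw [cont_app, hN]
    change _ + OddHC.cont (H1.ch (c + 1)) = _
    rw [hcc1]
    abel
  · -- `[c]()R`
    have hcont : OddHC.cont w.1 = {c} + {OddHC.ht R} + ({1} + N) := by
      rw [e]
      change OddHC.cont (app (H1.ch c) (.nil △ R)) = _
      rw [cont_app, cont_node, raise_nil, hcc, hN]
      abel
    obtain ⟨t, u, D, hD, h4⟩ := h.n3 hn hw _ _ _ hc3 (by omega) hcont
    have hDn := hD.nil_ne
    obtain ⟨A2, Y2, f2, n2⟩ := RR_front u D 0 hD
    rcases h4 with h4 | h4 | h4 | h4 <;> rw [h4] at e <;> obtain ⟨h5, h6, h7⟩ := cs_fb e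
    · rw [cs_node, f2] at h5
      simp [w1, hcs, n2] at h5
    · simp [w1, hcs, hch2.symm] at h5
    · rw [cs_node, cs_app, f2] at h5
      simp [w1, hcs, n2] at h5
    · simp [w1, hcs] at h7

/-- **Cl** -/
theorem JG.disj_Cl (hn : 1 ≤ n) {B : Finset (X k)} {P U M : Set (ZMod (2 * n + 1) → ℕ)}
    (h : JG n B P U M) {c : ℕ} {R : BinaryTree Unit} {F : Set (Cyc k)} {g : DG k}
    (hc : 2 ≤ c) (hR : c + 1 ≤ OddHC.ht R) (hev : Even c) (ht : TyC' c R F g)
    (hU : ∀ G ∈ U, Ring1.RF n G ≠ l1 △ (R △ .nil))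
    (hM : ∀ (u : ℕ) (D : BinaryTree Unit), GD D → R ≠ app (RR u D 0) (.nil △ .nil)) :
    ∀ w ∈ B, w ∉ g.B := by
  have hRn := ht_ge_ne hR
  have hcc := cont_ch (show 1 ≤ c by omega)
  have hcc1 := cont_ch (show 1 ≤ c + 1 by omega)
  obtain ⟨N, hN⟩ := cont_top R hRn
  have hcs : cs (H1.ch c) = [H1.ch (c - 1)] := by
    rw [← comps_cs]; exact comps_ch' (by omega)
  intro w hw hwE
  have hW := ht.words w hwE
  by_cases hc4 : 4 ≤ c
  · rcases hW with e | ⟨-, e | e⟩
    · refine h.n4 hn hw (OddHC.ht R + 1) c ((raise (OddHC.cont R)).erase (OddHC.ht R + 1))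
        (by omega) hc4 ?_
      rw [e]
      change OddHC.cont (app (H1.ch c) (R △ .nil)) = _
      rw [cont_app, cont_node, cont_nil, add_zero, hcc]
      have h1 : OddHC.ht R + 1 ∈ raise (OddHC.cont R) := by
        unfold raise
        rw [← OddHC.ht_eq]
        exact Multiset.mem_cons_self _ _
      have h2 := Multiset.cons_erase h1
      rw [← Multiset.singleton_add] at h2
      conv_lhs => rw [← h2]
      abel
    · refine h.n4 hn hw (OddHC.ht R) c (N + {1}) (by omega) hc4 ?_
      rw [e]
      change OddHC.cont (app R (.nil △ H1.ch c)) = _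
      rw [cont_app, cont_node, raise_nil, hcc, hN]
      abel
    · refine h.n4 hn hw (OddHC.ht R) (c + 1) N (by omega) (by omega) ?_
      rw [e]
      change OddHC.cont (H1.ch c △ R) = _
      change OddHC.cont (app (H1.ch (c + 1)) R) = _
      rw [cont_app, hcc1, hN]
      abel
  · obtain rfl : c = 2 := by
      obtain ⟨x, hx⟩ := hev
      omega
    have hW' : w.1 = l1 △ (R △ .nil) ∨ w.1 = app R (.nil △ (l1 △ .nil)) ∨ w.1 = (l1 △ .nil) △ R := by
      rcases hW with h | ⟨_, h | h⟩
      · exact Or.inl h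
      · exact Or.inr (Or.inl h)
      · exact Or.inr (Or.inr h)
    have hfl : cs R ≠ [] := by
      cases R with
      | nil => exact absurd rfl hRn
      | node _ _ _ => rw [cs_node']; simp
    have hR1 : R ≠ l1 := by
      intro h
      rw [h] at hR
      change 3 ≤ 1 at hR
      omega
    rcases hW' with e0 | e0 | e0
    · -- host `[2](R)`
      rcases h.cases hn hw with ⟨Φ, hΦ, p, q, D, hD, e, hcs⟩ | ⟨G, hG, p, q, D, hD, h0, e, hcs⟩ |
        ⟨Ψ, hΨ, t, u, D, hD, e, hcs⟩
      · have hRn' := RR_ne p D q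
        have hl1 := RR_l1 p q hD
        rcases hcs with e1 | e1 | e1 | e1 | e1 | e1 | e1 | e1 <;> rw [e0] at e1 <;>
          obtain ⟨h5, h6, h7⟩ := cs_fb e1
        · simp [hRn] at h6
        · simp at h5
        · simp at h7
        · simp at h5
        · simp [hl1.symm] at h5
        · simp at h7
        · simp at h5
        · simp at h7
      · refine hU G hG ?_
        rw [e, ← hcs, e0]
      · have hRn' := RR_ne u D 0
        have hl1 := RR_l1 u 0 hD
        have hb0 : b2 (t + 1) ≠ .nil := by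
          intro h8
          have := congrArg cs h8
          simp [List.replicate_succ] at this
        rcases hcs with e1 | e1 | e1 | e1 | e1 | e1 | e1 | e1 | e1 <;> rw [e0] at e1 <;>
          obtain ⟨h5, h6, h7⟩ := cs_fb e1
        · simp at h7
          omega
        · simp at h5
        · simp [hb0.symm] at h5
        · have ht0 : t = 0 := by
            simp at h7
            omega
          subst ht0
          simp [List.replicate_succ] at h5
          exact hM u D hD h5
        · simp [hRn] at h6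
        · simp at h5
        · simp at h7
        · simp [hRn] at h6
        · simp at h7
    · -- `R()[2]`
      have hlen : 1 ≤ (cs R).length := List.length_pos_iff.2 hfl
      rcases h.cases hn hw with ⟨Φ, hΦ, p, q, D, hD, e, hcs⟩ | ⟨G, hG, p, q, D, hD, h0, e, hcs⟩ |
        ⟨Ψ, hΨ, t, u, D, hD, e, hcs⟩
      · have hRn' := RR_ne p D q
        have hl1 := RR_l1 p q hD
        have hDn := hD.nil_ne
        have hDl := hD.ne
        rcases hcs with e1 | e1 | e1 | e1 | e1 | e1 | e1 | e1 <;> rw [e0] at e1 <;>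
          obtain ⟨h5, h6, h7⟩ := cs_fb e1
        · simp at h6
        · simp at h6
        · simp at h7
        · rcases q with _ | _ | q
          · simp [hDl.symm] at h6
          · simp [hDn.symm] at h6
          · simp [List.replicate_succ, rep_comm] at h6
        · simp at h6
        · simp at h7
        · simp [hl1.symm] at h6
        · simp at h7
      · have hDn := hD.nil_ne
        have hDl := hD.ne
        rw [e0] at hcs
        obtain ⟨h5, h6, h7⟩ := cs_fb hcs
        rcases q with _ | _ | q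
        · simp [hDl.symm] at h6
        · simp [hDn.symm] at h6
        · simp [List.replicate_succ, rep_comm] at h6
      · have hRn' := RR_ne u D 0
        have hl1 := RR_l1 u 0 hD
        have hDn := hD.nil_ne
        have hDl := hD.ne
        have h9 : app (RR u D 0) (.nil △ .nil) ≠ l1 := by
          intro h8
          have := congrArg (fun t => (cs t).length) h8
          simp at this
        rcases hcs with e1 | e1 | e1 | e1 | e1 | e1 | e1 | e1 | e1 <;> rw [e0] at e1 <;>
          obtain ⟨h5, h6, h7⟩ := cs_fb e1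
        · rcases t with _ | t
          · refine hM u D hD ?_
            apply app_right (X := .nil △ (l1 △ .nil))
            rw [e1]
            apply cs_inj
            simp
          · simp [List.replicate_succ, rep_comm] at h6
        · simp [hl1.symm] at h6
        · simp [hDl.symm] at h6
        · simp [h9.symm] at h6
        · simp at h6
        · simp [hDl.symm] at h6
        · simp at h7
        · simp at h6
        · simp at h7
    · -- `[3]R`
      have hcont : OddHC.cont w.1 = {3} + {OddHC.ht R} + N := by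
        rw [e0]
        change OddHC.cont (app (H1.ch 3) R) = _
        rw [cont_app, cont_ch (by omega), hN]
        abel
      obtain ⟨t, u, D, hD, h4⟩ := h.n3 hn hw _ _ _ le_rfl (by omega) hcont
      rcases h4 with h4 | h4 | h4 | h4 <;> rw [e0] at h4
      · have h5 := (node_inj' h4).1
        have h6 := (node_inj' h5).1
        simp at h6
      · have h5 := (node_inj' h4).1
        simp at h5
      · exact hM u D hD (node_inj' h4).2
      · exact hRn (node_inj' h4).2

/-- **Cl**, two heavy solitons -/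
theorem JG.disj_Cl2 (hn : 1 ≤ n) {B : Finset (X k)} {P U M : Set (ZMod (2 * n + 1) → ℕ)}
    (h : JG n B P U M) {F : Set (Cyc k)} {g : DG k} (hC : TyCl F g)
    (hU : ∀ (R : BinaryTree Unit) (w : X k), w ∈ g.B → w.1 = l1 △ (R △ .nil) → ∀ G ∈ U,
      Ring1.RF n G ≠ w.1)
    (hM : ∀ (R : BinaryTree Unit) (w : X k), w ∈ g.B → w.1 = l1 △ (R △ .nil) →
      ∀ (u : ℕ) (D : BinaryTree Unit), GD D → R ≠ app (RR u D 0) (.nil △ .nil)) :
    ∀ w ∈ B, w ∉ g.B := by
  obtain ⟨c, R, hc, hR, hev, ht⟩ := hC
  by_cases hc2 : c = 2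
  · subst hc2
    obtain ⟨a, b, c', ha, hb, hcw, h1, h2, h3, hF, hg⟩ := id ht
    have ha' : a.1 = l1 △ (R △ .nil) := ha
    have haB : a ∈ g.B := by rw [hg]; simp [pDG]
    refine h.disj_Cl hn hc hR hev ht (fun G hG e => ?_) (hM R a haB ha')
    exact hU R a haB ha' G hG (by rw [e, ha'])
  · intro w hw hwE
    have hev' := hev
    obtain ⟨x, hx⟩ := hev'
    have hRn := ht_ge_ne hR
    have hcc := cont_ch (show 1 ≤ c by omega)
    have hcc1 := cont_ch (show 1 ≤ c + 1 by omega)
    obtain ⟨N, hN⟩ := cont_top R hRn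
    rcases ht.words w hwE with e | ⟨-, e | e⟩
    · refine h.n4 hn hw (OddHC.ht R + 1) c ((raise (OddHC.cont R)).erase (OddHC.ht R + 1))
        (by omega) (by omega) ?_
      rw [e]
      change OddHC.cont (app (H1.ch c) (R △ .nil)) = _
      rw [cont_app, cont_node, cont_nil, add_zero, hcc]
      have h1 : OddHC.ht R + 1 ∈ raise (OddHC.cont R) := by
        unfold raise
        rw [← OddHC.ht_eq]
        exact Multiset.mem_cons_self _ _
      have h2 := Multiset.cons_erase h1
      rw [← Multiset.singleton_add] at h2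
      conv_lhs => rw [← h2]
      abel
    · refine h.n4 hn hw (OddHC.ht R) c (N + {1}) (by omega) (by omega) ?_
      rw [e]
      change OddHC.cont (app R (.nil △ H1.ch c)) = _
      rw [cont_app, cont_node, raise_nil, hcc, hN]
      abel
    · refine h.n4 hn hw (OddHC.ht R) (c + 1) N (by omega) (by omega) ?_
      rw [e]
      change OddHC.cont (app (H1.ch (c + 1)) R) = _
      rw [cont_app, hcc1, hN]
      abel

end J

end Pool.OddHC
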