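import Pool.Agent.Work.MP_8f87b2_h22.JA
import Pool.Agent.Work.MP_8f87b2_h62.W3c

/-!
MP_8f87b2_co, matrix rows W-T-JM, W-T-J3: the words of the J gadgets against the windows of height 3.
-/

set_option autoImplicit false
set_option linter.unusedSimpArgs false

namespace Pool.OddHC

namespace J

open Finset Equiv BinaryTree Pool.Agent.Work.MP_8f87b2_co

variable {k n : ℕ}

theorem cs_th (b : ℕ) : cs (H1.th b .nil) = List.replicate b (l1 △ .nil) := by
  induction b with
  | zero => rfl
  | succ b ih =>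
    change (l1 △ .nil) :: cs (H1.th b .nil) = _
    rw [ih, List.replicate_succ]

theorem winF_T {m a b : ℕ} (h : H1.NodeT k b m a) : WinF (H1.R3 b m a) (H1.th b .nil) (H1.S3 m a) := by
  have ha := h.pos
  have hm := h.mpos
  have heq : OddHC.cont (H1.th b .nil) + OddHC.cont (H1.S3 m a) = OddHC.cont (H1.R3 b m a) :=
    (H1.dat3 b m a).cont
  have hR : OddHC.cont (H1.R3 b m a) = Multiset.replicate b 3 + ({3} + (Multiset.replicate m 1 + Multiset.replicate a 2)) :=
    H1.cont_R3 b m a
  have hB : OddHC.cont (H1.th b .nil) = Multiset.replicate b 3 := H1.cont_th b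
  have hS : OddHC.cont (H1.S3 m a) = {3} + (Multiset.replicate m 1 + Multiset.replicate a 2) := by
    have := heq
    rw [hR, hB] at this
    exact add_left_cancel this
  have hfS : ∃ A Y, cs (H1.S3 m a) = A :: Y ∧ A ≠ .nil ∧ A ≠ l1 ∧ ∀ b, A ≠ .nil △ b2 (b + 1) :=
    ⟨l1 △ .nil, cs (H1.L3 m a), rfl, by simp, by simp, fun b e => by simpa using (node_inj' e).1⟩
  obtain ⟨a, rfl⟩ : ∃ a', a = a' + 1 := ⟨a - 1, by omega⟩
  obtain ⟨Y, e, _⟩ := H1.L3_succ m a
  have hL : (cs (H1.L3 m (a + 1))).reverse = l1 :: (cs Y).reverse := by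
    rw [e]
    simp
  refine ⟨?_, ?_, hfS, ?_, ?_, ?_, ?_, ?_, ?_, ?_, ?_, heq⟩
  · exact ⟨l1 △ H1.L3 m (a + 1), cs (H1.th b .nil), rfl, by simp, fun e => by simpa using (node_inj' e).1,
      fun b e => by simpa using (node_inj' e).1⟩
  · cases b with
    | zero => exact ⟨l1 △ H1.L3 m (a + 1), [], rfl, by simp, fun e => by simpa using (node_inj' e).1⟩
    | succ b =>
      refine ⟨l1 △ .nil, List.replicate b (l1 △ .nil) ++ [l1 △ H1.L3 m (a + 1)], ?_, by simp, by simp⟩
      change ((l1 △ H1.L3 m (a + 1)) :: cs (H1.th (b + 1) .nil)).reverse = _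
      rw [cs_th, List.replicate_succ, List.reverse_cons, List.reverse_cons, List.reverse_replicate,
        rep_comm]
      simp
  · refine ⟨l1, (cs Y).reverse ++ [l1 △ .nil], ?_, by simp⟩
    change ((l1 △ .nil) :: cs (H1.L3 m (a + 1))).reverse = _
    rw [List.reverse_cons, hL]
    rfl
  · cases b with
    | zero => exact Or.inl rfl
    | succ b =>
      exact Or.inr ⟨l1 △ .nil, cs (H1.th b .nil), rfl, by simp, by simp,
        fun b e => by simpa using (node_inj' e).1⟩
  · cases b with
    | zero => exact Or.inl rfl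
    | succ b =>
      refine Or.inr ⟨l1 △ .nil, List.replicate b (l1 △ .nil), ?_, by simp, by simp⟩
      rw [cs_th, List.reverse_replicate, List.replicate_succ]
  · rw [hR]
    exact Multiset.le_sup (by simp)
  · rw [hS]
    exact le_trans (by norm_num : 2 ≤ 3) (Multiset.le_sup (by simp))
  · rw [hR]
    simp [Multiset.count_replicate, Multiset.count_singleton]
    omega
  · rw [hS]
    simp [Multiset.count_replicate, Multiset.count_singleton]
    omega
  · rw [hB]
    simp [Multiset.count_replicate]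

/-- **W-T-JM, W-T-J3** -/
theorem JG.disj_T (hn : 1 ≤ n) {B0 : Finset (X k)} {P U M : Set (ZMod (2 * n + 1) → ℕ)}
    (h : JG n B0 P U M) {F : Set (Cyc k)} {g : DG k} (hA : TyT F g) : ∀ w ∈ B0, w ∉ g.B := by
  obtain ⟨b, m, a, w0, hg, rfl, rfl⟩ := hA
  intro w hw hwB
  obtain ⟨i, hi, rfl⟩ := mem_gad20.1 hwB
  exact h.disj_win hn (q := 0) (winF_T hg) hi (hg.word w0 hi) hw

end J

end Pool.OddHC
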