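import Pool.Agent.Work.MP_8f87b2_h40.JG
import Pool.Agent.Work.MP_8f87b2_h27.DisKm
import Pool.Agent.Work.MP_8f87b2_mid.DisC

/-!
# MP_8f87b2_co, one soliton: the words of JM, J5, NM by their components

`pu_cases`, `mx_cases`: the forms of the words. `R = RF n Φ` or `S'B'`, `B' = (())^t`.
-/

set_option autoImplicit false
set_option linter.unusedSimpArgs false

namespace Pool.OddHC

open Finset Equiv BinaryTree Pool.Agent.Work.MP_8f87b2_co

namespace J

variable {k n : ℕ}

theorem comps_cs (t : BinaryTree Unit) : comps t = cs t := by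
  induction t with
  | nil => rfl
  | node _ A B _ ih =>
    change A :: comps B = A :: cs B
    rw [ih]

theorem mirx_b2 (t : ℕ) : Tsq.mir (b2 t) = b2 t := by
  apply cs_inj
  induction t with
  | zero => rfl
  | succ t ih =>
    change cs (app (Tsq.mir (b2 t)) (l1 △ .nil)) = _
    rw [cs_app, ih, cs_b2, cs_b2, List.replicate_succ']
    rfl

theorem mirx_RR (p : ℕ) (D : BinaryTree Unit) (t : ℕ) :
    Tsq.mir (RR p D t) = RR t (Tsq.mir D) p := by
  apply cs_inj
  have h : ∀ (p : ℕ) (X : BinaryTree Unit), cs (Tsq.mir (lv2 p X)) = cs (Tsq.mir X) ++ List.replicate p l1 := by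
    intro p X
    induction p with
    | zero => simp [lv2]
    | succ p ih =>
      rw [lv2, Tsq.mir_node, cs_app, ih, List.append_assoc, List.replicate_succ']
      rfl
  rw [RR, h, Tsq.mir_node, cs_app, mirx_b2, cs_b2, cs_RR, List.append_assoc]
  rfl

theorem cs_mirx (t : BinaryTree Unit) : cs (Tsq.mir t) = ((cs t).map Tsq.mir).reverse := by
  induction t with
  | nil => rfl
  | node _ A B _ ih =>
    change cs (app (Tsq.mir B) (Tsq.mir A △ .nil)) = _
    rw [cs_app, ih]
    simp [cs_node']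

theorem ht_mir (t : BinaryTree Unit) : ht (Tsq.mir t) = ht t := by
  induction t with
  | nil => rfl
  | node _ A B ihA ihB =>
    change ht (app (Tsq.mir B) (Tsq.mir A △ .nil)) = ht (A △ B)
    rw [ht_app, ht_node, ht_node, ihA, ihB]
    have : ht (BinaryTree.nil : BinaryTree Unit) = 0 := rfl
    omega

theorem isN_mirx (A : BinaryTree Unit) : isN (Tsq.mir A) = isN A := by
  cases A with
  | nil => rfl
  | node _ A B =>
    have h : Tsq.mir (A △ B) ≠ .nil := by
      intro h
      have := congrArg BinaryTree.numNodes h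
      rw [Tsq.mir_num] at this
      simp [BinaryTree.numNodes] at this
    have h2 : isN (Tsq.mir (A △ B)) ≠ true := fun h3 => h (isN_iff.1 h3)
    exact Bool.eq_false_iff.2 h2

theorem GD.mirx {D : BinaryTree Unit} (h : GD D) : GD (Tsq.mir D) := by
  refine ⟨by rw [ht_mir]; exact h.ht, ?_⟩
  intro X hX
  rw [cs_mirx, List.mem_reverse, List.mem_map] at hX
  obtain ⟨Y, hY, rfl⟩ := hX
  rw [isN_mirx]
  exact h.nn Y hY

/-- **pure words** -/
theorem pu_cases (hn : 1 ≤ n) {Φ : ZMod (2 * n + 1) → ℕ} {w : BinaryTree Unit} (h : IsPu n Φ w) :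
    ∃ (p q : ℕ) (D : BinaryTree Unit), GD D ∧ Ring1.RF n Φ = RR p D q ∧
      (w = app (RR p D q) (.nil △ (.nil △ .nil)) ∨ w = .nil △ app (RR p D q) (.nil △ .nil) ∨
        w = app (RR p D q) (.nil △ .nil) △ .nil ∨ w = .nil △ (.nil △ RR p D q) ∨
        w = RR p D q △ (.nil △ .nil) ∨ w = (.nil △ RR p D q) △ .nil ∨ w = .nil △ (RR p D q △ .nil) ∨
        w = (RR p D q △ .nil) △ .nil) := by
  obtain ⟨i, hi, h0, h4, rfl⟩ := h
  obtain ⟨D, hD, e⟩ := RF_shape hn Φ
  refine ⟨_, _, D, hD, e, ?_⟩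
  rw [e]
  interval_cases i
  · exact absurd rfl h0
  · exact Or.inl rfl
  · exact Or.inr (Or.inl rfl)
  · exact Or.inr (Or.inr (Or.inl rfl))
  · exact absurd rfl h4
  · exact Or.inr (Or.inr (Or.inr (Or.inl rfl)))
  · exact Or.inr (Or.inr (Or.inr (Or.inr (Or.inl rfl))))
  · exact Or.inr (Or.inr (Or.inr (Or.inr (Or.inr (Or.inl rfl)))))
  · exact Or.inr (Or.inr (Or.inr (Or.inr (Or.inr (Or.inr (Or.inl rfl))))))
  · exact Or.inr (Or.inr (Or.inr (Or.inr (Or.inr (Or.inr (Or.inr rfl))))))

/-- **mirrored mixed words**: `RF n Ψ = S'B'`, `S' = (())^u (D)`, `B' = (())^t` -/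
theorem mx_cases {Ψ : ZMod (2 * n + 1) → ℕ} {w : BinaryTree Unit} (h : IsMx n Ψ w) :
    ∃ (t u : ℕ) (D : BinaryTree Unit), 1 ≤ t ∧ GD D ∧ Ring1.RF n Ψ = RR u D t ∧
      (w = app (RR u D 0) (.nil △ (.nil △ b2 t)) ∨ w = .nil △ app (b2 t) (RR u D 0 △ .nil) ∨
        w = (.nil △ b2 t) △ RR u D 0 ∨ w = app (b2 t) (app (RR u D 0) (.nil △ .nil) △ .nil) ∨
        w = app (b2 t) (RR u D 0 △ (.nil △ .nil)) ∨ w = .nil △ (b2 t △ RR u D 0) ∨
        w = app (b2 t) (RR u D 0 △ .nil) △ .nil ∨ w = b2 t △ app (RR u D 0) (.nil △ .nil) ∨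
        w = (b2 t △ RR u D 0) △ .nil) := by
  obtain ⟨t, D, u, i, ht, hD, e, hi, hi', rfl⟩ := h
  refine ⟨t, u, Tsq.mir D, ht, hD.mirx, ?_, ?_⟩
  · rw [← mirx_RR, ← e, Tsq.mir_mir]
  · have e1 : Tsq.mir (RR 0 D u) = RR u (Tsq.mir D) 0 := mirx_RR 0 D u
    have h0 : Tsq.mir BinaryTree.nil = BinaryTree.nil := rfl
    have hm : ∀ A B : BinaryTree Unit, Tsq.mir (A △ B) = app (Tsq.mir B) (Tsq.mir A △ .nil) :=
      fun _ _ => rfl
    interval_cases i
    · left
      change Tsq.mir (app (b2 t) (.nil △ (.nil △ RR 0 D u))) = _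
      simp only [Tsq.mir_app, hm, mirx_b2, e1, h0, app, app_nil', app_assoc']
    · right; left
      change Tsq.mir (RR 0 D u △ app (b2 t) (.nil △ .nil)) = _
      simp only [Tsq.mir_app, hm, mirx_b2, e1, h0, app, app_nil', app_assoc']
    · right; right; left
      change Tsq.mir (app (RR 0 D u) (app (b2 t) (.nil △ .nil) △ .nil)) = _
      simp only [Tsq.mir_app, hm, mirx_b2, e1, h0, app, app_nil', app_assoc']
    · right; right; right; left
      change Tsq.mir ((.nil △ RR 0 D u) △ b2 t) = _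
      simp only [Tsq.mir_app, hm, mirx_b2, e1, h0, app, app_nil', app_assoc']
    · right; right; right; right; left
      change Tsq.mir (.nil △ (RR 0 D u △ b2 t)) = _
      simp only [Tsq.mir_app, hm, mirx_b2, e1, h0, app, app_nil', app_assoc']
    · right; right; right; right; right; left
      change Tsq.mir (app (RR 0 D u) (b2 t △ (.nil △ .nil))) = _
      simp only [Tsq.mir_app, hm, mirx_b2, e1, h0, app, app_nil', app_assoc']
    · right; right; right; right; right; right; left
      change Tsq.mir ((RR 0 D u △ b2 t) △ .nil) = _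
      simp only [Tsq.mir_app, hm, mirx_b2, e1, h0, app, app_nil', app_assoc']
    · right; right; right; right; right; right; right; left
      change Tsq.mir (.nil △ app (RR 0 D u) (b2 t △ .nil)) = _
      simp only [Tsq.mir_app, hm, mirx_b2, e1, h0, app, app_nil', app_assoc']
    · right; right; right; right; right; right; right; right
      change Tsq.mir (app (RR 0 D u) (b2 t △ .nil) △ .nil) = _
      simp only [Tsq.mir_app, hm, mirx_b2, e1, h0, app, app_nil', app_assoc']

end J

end Pool.OddHC
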