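import Pool.Agent.Work.MP_8f87b2_h22.JC
import Pool.Agent.Work.MP_8f87b2_h62.W3c
import Pool.Agent.Work.MP_8f87b2_h60.TyA0

/-!
# MP_8f87b2_co: the one-soliton gadgets against the windows A, T (with a `()` in the marker)
-/

set_option autoImplicit false
set_option linter.unusedSimpArgs false
set_option linter.unusedVariables false

namespace Pool.OddHC

open Finset Equiv BinaryTree Pool.Agent.Work.MP_8f87b2_co

namespace J

variable {k n : ℕ}

theorem one_raise {M : Multiset ℕ} (h : 2 ≤ M.sup) : (raise M).count 1 = M.count 1 := by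
  unfold raise
  rw [Multiset.count_cons_of_ne (by omega), Multiset.count_erase_of_ne (by omega)]

theorem one_raise_ge (M : Multiset ℕ) : M.count 1 ≤ (raise M).count 1 + 1 := by
  unfold raise
  by_cases h : M.sup = 1
  · rw [h, Multiset.count_cons_of_ne (by omega), Multiset.count_erase_self]
    omega
  · have h1 : (M.erase M.sup).count 1 = M.count 1 := Multiset.count_erase_of_ne (by omega) _
    have h2 := Multiset.count_le_count_cons 1 (M.sup + 1) (M.erase M.sup)
    omega

theorem one_Q (q : ℕ) : ({q + 1} : Multiset ℕ).count 1 = if q = 0 then 1 else 0 := by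
  rw [Multiset.count_singleton]
  by_cases h : q = 0
  · subst h; rfl
  · rw [if_neg (by omega), if_neg h]

/-- the shape of the words of a gadget by the number of `1`-parts -/
theorem JG.sig (hn : 1 ≤ n) {B : Finset (X k)} {P U M : Set (ZMod (2 * n + 1) → ℕ)}
    (h : JG n B P U M) {w : X k} (hw : w ∈ B) :
    (OddHC.cont w.1).count 1 = 0 ∨
    ((OddHC.cont w.1).count 1 = 1 ∧ ((cs w.1).length = 1 ∨ (∃ Y, cs w.1 = .nil :: Y) ∨
      (∃ Y, (cs w.1).reverse = .nil :: Y) ∨
      (∃ (t u : ℕ) (D : BinaryTree Unit), GD D ∧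
        w.1 = app (b2 (t + 1)) (app (RR u D 0) (.nil △ .nil) △ .nil)) ∨
      (∃ (t u : ℕ) (D : BinaryTree Unit), GD D ∧ w.1 = (.nil △ b2 (t + 1)) △ RR u D 0))) ∨
    ((OddHC.cont w.1).count 1 = 2 ∧ 3 ≤ (cs w.1).length ∧ ((∃ Y, cs w.1 = .nil :: Y) ∨
      (∃ Y, (cs w.1).reverse = .nil :: Y) ∨
      (∃ (t u : ℕ) (D : BinaryTree Unit), GD D ∧
        w.1 = app (RR u D 0) (.nil △ (.nil △ b2 (t + 1)))))) := by
  have hz : ∀ s b, 3 ≤ s → ({s} + Multiset.replicate b 2 : Multiset ℕ).count 1 = 0 := by
    intro s b hs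
    rw [Multiset.count_add, Multiset.count_singleton, Multiset.count_replicate, if_neg (by omega),
      if_neg (by omega)]
  rcases h.cases hn hw with ⟨Φ, hΦ, p, q, D, hD, e, hcs⟩ | ⟨G, hG, p, q, D, hD, h0, e, hcs⟩ |
    ⟨Ψ, hΨ, t, u, D, hD, e, hcs⟩
  · have h1R := (count_RF hn Φ).1
    rw [e] at h1R
    have hsup : 2 ≤ (OddHC.cont (RR p D q)).sup := by
      rw [← OddHC.ht_eq, ht_RR hD]
      have := hD.ht
      omega
    have h11 : ({1} : Multiset ℕ).count 1 = 1 := rfl
    rcases hcs with e1 | e1 | e1 | e1 | e1 | e1 | e1 | e1 <;> rw [e1]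
    · right; right
      refine ⟨?_, ?_, Or.inr (Or.inl ⟨_, by simp; rfl⟩)⟩
      · rw [cont_app, cont_node, cont_node, raise_nil, cont_nil, Multiset.count_add,
          Multiset.count_add, Multiset.count_add, h1R]
        rfl
      · simp
        omega
    · right; right
      refine ⟨?_, ?_, Or.inl ⟨_, rfl⟩⟩
      · rw [cont_node, cont_app, cont_node, raise_nil, cont_nil, Multiset.count_add,
          Multiset.count_add, Multiset.count_add, h1R]
        rfl
      · simp
        omega
    · right; left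
      refine ⟨?_, Or.inl (by simp)⟩
      rw [cont_node, cont_nil, add_zero, cont_app, cont_node, cont_nil, raise_zero, add_zero,
        one_raise (by rw [sup_add']; omega), Multiset.count_add, h1R]
      rfl
    · right; right
      refine ⟨?_, ?_, Or.inl ⟨_, rfl⟩⟩
      · rw [cont_node, cont_node, raise_nil, Multiset.count_add, Multiset.count_add, h1R]
        rfl
      · simp
        omega
    · right; left
      refine ⟨?_, Or.inr (Or.inr (Or.inl ⟨_, by simp; rfl⟩))⟩
      rw [cont_node, cont_node, raise_nil, cont_nil, Multiset.count_add, Multiset.count_add,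
        one_raise hsup, h1R]
      rfl
    · right; left
      refine ⟨?_, Or.inl (by simp)⟩
      rw [cont_node, cont_nil, add_zero, cont_node, raise_nil,
        one_raise (by rw [sup_add']; omega), Multiset.count_add, h1R]
      rfl
    · right; left
      refine ⟨?_, Or.inr (Or.inl ⟨_, rfl⟩)⟩
      rw [cont_node, cont_node, raise_nil, cont_nil, Multiset.count_add, Multiset.count_add,
        one_raise hsup, h1R]
      rfl
    · left
      have h2 : 2 ≤ (raise (OddHC.cont (RR p D q))).sup := by
        have := OddHC.ht_eq (RR p D q △ .nil)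
        rw [cont_node, cont_nil, add_zero] at this
        rw [← this, ht_node]
        have := ht_RR hD p q
        have := hD.ht
        omega
      rw [cont_node, cont_nil, add_zero, cont_node, cont_nil, add_zero, one_raise h2,
        one_raise hsup, h1R]
  · left
    rw [hcs, ← e]
    exact (count_RF hn G).1
  · obtain ⟨a', ha', hcS⟩ := cont_S' hn e
    have hS1 : (OddHC.cont (RR u D 0)).count 1 = 0 := by
      rw [hcS]; exact hz _ _ (by omega)
    have hSs : 2 ≤ (OddHC.cont (RR u D 0)).sup := by
      rw [← OddHC.ht_eq, ht_RR hD]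
      have := hD.ht
      omega
    have hB1 : (OddHC.cont (b2 (t + 1))).count 1 = 0 := count_b2 _
    have hBs : 2 ≤ (OddHC.cont (b2 (t + 1))).sup := by
      rw [cont_b2, Multiset.replicate_succ, Multiset.sup_cons]
      exact le_max_left _ _
    rcases hcs with e1 | e1 | e1 | e1 | e1 | e1 | e1 | e1 | e1
    · right; right
      refine ⟨?_, ?_, Or.inr (Or.inr ⟨t, u, D, hD, e1⟩)⟩
      · rw [e1, cont_app, cont_node, cont_node, raise_nil, Multiset.count_add,
          Multiset.count_add, Multiset.count_add, hS1, hB1]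
        rfl
      · rw [e1]
        simp
        omega
    · right; left
      refine ⟨?_, Or.inr (Or.inl ⟨_, by rw [e1]; rfl⟩)⟩
      rw [e1, cont_node, cont_app, cont_node, raise_nil, cont_nil, Multiset.count_add,
        Multiset.count_add, Multiset.count_add, one_raise hSs, hS1, hB1]
      rfl
    · right; left
      refine ⟨?_, Or.inr (Or.inr (Or.inr (Or.inr ⟨t, u, D, hD, e1⟩)))⟩
      rw [e1, cont_node, cont_node, raise_nil, Multiset.count_add,
        one_raise (by rw [sup_add']; omega), Multiset.count_add, hS1, hB1]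
      rfl
    · right; left
      refine ⟨?_, Or.inr (Or.inr (Or.inr (Or.inl ⟨t, u, D, hD, e1⟩)))⟩
      rw [e1, cont_app, cont_node, cont_nil, add_zero, cont_app, cont_node, cont_nil, raise_zero,
        add_zero, Multiset.count_add, one_raise (by rw [sup_add']; omega), Multiset.count_add,
        hS1, hB1]
      rfl
    · right; left
      refine ⟨?_, Or.inr (Or.inr (Or.inl ⟨_, by rw [e1]; simp; rfl⟩))⟩
      rw [e1, cont_app, cont_node, cont_node, raise_nil, cont_nil, Multiset.count_add,
        Multiset.count_add, Multiset.count_add, one_raise hSs, hS1, hB1]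
      rfl
    · right; left
      refine ⟨?_, Or.inr (Or.inl ⟨_, by rw [e1]; rfl⟩)⟩
      rw [e1, cont_node, cont_node, raise_nil, Multiset.count_add,
        Multiset.count_add, one_raise hBs, hS1, hB1]
      rfl
    · left
      have h2 : 2 ≤ (OddHC.cont (b2 (t + 1)) + raise (OddHC.cont (RR u D 0))).sup := by
        rw [sup_add']
        omega
      rw [e1, cont_node, cont_nil, add_zero, cont_app, cont_node, cont_nil, add_zero,
        one_raise h2, Multiset.count_add, one_raise hSs, hS1, hB1]
    · right; left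
      refine ⟨?_, Or.inr (Or.inr (Or.inl ⟨_, by rw [e1]; simp; rfl⟩))⟩
      rw [e1, cont_node, cont_app, cont_node, raise_nil, cont_nil, Multiset.count_add,
        Multiset.count_add, Multiset.count_add, one_raise hBs, hS1, hB1]
      rfl
    · left
      have h2 : 2 ≤ (raise (OddHC.cont (b2 (t + 1))) + OddHC.cont (RR u D 0)).sup := by
        rw [sup_add']
        omega
      rw [e1, cont_node, cont_nil, add_zero, cont_node,
        one_raise h2, Multiset.count_add, one_raise hBs, hS1, hB1]

/-- the facts on a window with a `()` in the marker -/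
structure WinF (R B S : BinaryTree Unit) : Prop where
  fR : ∃ A Y, cs R = A :: Y ∧ A ≠ .nil ∧ A ≠ l1 ∧ ∀ b, A ≠ .nil △ b2 (b + 1)
  lR : ∃ A Y, (cs R).reverse = A :: Y ∧ A ≠ .nil ∧ A ≠ l1
  fS : ∃ A Y, cs S = A :: Y ∧ A ≠ .nil ∧ A ≠ l1 ∧ ∀ b, A ≠ .nil △ b2 (b + 1)
  lS : ∃ A Y, (cs S).reverse = A :: Y ∧ A ≠ .nil
  fB : B = .nil ∨ ∃ A Y, cs B = A :: Y ∧ A ≠ .nil ∧ A ≠ l1 ∧ ∀ b, A ≠ .nil △ b2 (b + 1)
  lB : B = .nil ∨ ∃ A Y, (cs B).reverse = A :: Y ∧ A ≠ .nil ∧ A ≠ l1
  hR : 3 ≤ (OddHC.cont R).sup
  hS : 2 ≤ (OddHC.cont S).sup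
  oR : 1 ≤ (OddHC.cont R).count 1
  oS : 1 ≤ (OddHC.cont S).count 1
  oB : (OddHC.cont B).count 1 = 0
  eq : OddHC.cont B + OddHC.cont S = OddHC.cont R

theorem chs (q : ℕ) : cs (H1.ch (q + 1)) = [H1.ch q] := rfl

theorem ch_ne1 (q : ℕ) : H1.ch (q + 1) ≠ .nil := by
  change H1.ch q △ .nil ≠ .nil
  simp

/-- **the windows** -/
theorem JG.disj_win (hn : 1 ≤ n) {B0 : Finset (X k)} {P U M : Set (ZMod (2 * n + 1) → ℕ)}
    (h : JG n B0 P U M) {R B S : BinaryTree Unit} {q : ℕ} (hf : WinF R B S) {x : X k} {i : ℕ}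
    (hi : i < 20) (hx : x.1 = H1.W R (H1.ch (q + 1)) B S i) : x ∉ B0 := by
  intro hx0
  have hsig := h.sig hn hx0
  obtain ⟨AR, YR, fR, fR0, fR1, fR2⟩ := hf.fR
  obtain ⟨ZR, VR, lR, lR0, lR1⟩ := hf.lR
  obtain ⟨AS, YS, fS, fS0, fS1, fS2⟩ := hf.fS
  obtain ⟨ZS, VS, lS, lS0⟩ := hf.lS
  have hQn := ch_ne1 q
  have hQc : OddHC.cont (H1.ch (q + 1)) = {q + 1} := cont_ch (by omega)
  have hQ1 := one_Q q
  have oR := hf.oR
  have oS := hf.oS
  have oB := hf.oB
  have sR := hf.hR
  have sS := hf.hS
  have hRn : R ≠ .nil := by rintro rfl; simp at fR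
  have hSn : S ≠ .nil := by rintro rfl; simp at fS
  have hRl : R ≠ l1 := by
    rintro rfl
    simp at fR
    exact fR0 fR.1.symm
  have hSl : S ≠ l1 := by
    rintro rfl
    simp at fS
    exact fS0 fS.1.symm
  have hBl : B ≠ l1 := by
    rintro rfl
    rcases hf.fB with h1 | ⟨A, Y, h1, h2, _⟩
    · simp at h1
    · simp at h1
      exact h2 h1.1.symm
  have lenR : 1 ≤ (cs R).length := by rw [fR]; simp
  have lenS : 1 ≤ (cs S).length := by rw [fS]; simp
  have h11 : ({1} : Multiset ℕ).count 1 = 1 := rfl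
  have hb0 : ∀ t, b2 (t + 1) ≠ .nil := by
    intro t h8
    have := congrArg cs h8
    simp [List.replicate_succ] at this
  have hchq : q ≠ 0 → H1.ch q ≠ .nil := fun h => OddHC.ch_ne (by omega)
  have hchb : ∀ (t : ℕ), H1.ch q ≠ .nil △ b2 (t + 1) := by
    intro t h1
    cases q with
    | zero => simp [H1.ch] at h1
    | succ q =>
      have := (node_inj' (show H1.ch q △ .nil = _ from h1)).2
      exact hb0 t this.symm
  have hQb : ∀ (t : ℕ), H1.ch (q + 1) ≠ .nil △ b2 (t + 1) := by
    intro t h1
    have := (node_inj' (show H1.ch q △ .nil = _ from h1)).2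
    exact hb0 t this.symm
  -- general
  have two : 2 ≤ (OddHC.cont x.1).count 1 → 3 ≤ (cs x.1).length ∧ (OddHC.cont x.1).count 1 = 2 ∧
      ((∃ Y, cs x.1 = .nil :: Y) ∨ (∃ Y, (cs x.1).reverse = .nil :: Y) ∨
      (∃ (t u : ℕ) (D : BinaryTree Unit), GD D ∧
        x.1 = app (RR u D 0) (.nil △ (.nil △ b2 (t + 1))))) := by
    intro h2
    rcases hsig with h3 | ⟨h3, _⟩ | ⟨h3, h4, h5⟩
    · omega
    · omega
    · exact ⟨h4, h3, h5⟩
  have two' : 2 ≤ (OddHC.cont x.1).count 1 → ∀ {A Z : BinaryTree Unit} {Y V},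
      cs x.1 = A :: Y → A ≠ .nil → (cs x.1).reverse = Z :: V → Z ≠ .nil →
      Z = l1 ∧ (∃ (t u : ℕ) (D : BinaryTree Unit), GD D ∧
        x.1 = app (RR u D 0) (.nil △ (.nil △ b2 (t + 1)))) := by
    intro h2 A Z Y V hA hA0 hZ hZ0
    obtain ⟨_, _, h5⟩ := two h2
    rcases h5 with ⟨Y', h5⟩ | ⟨Y', h5⟩ | ⟨t, u, D, hD, h5⟩
    · rw [hA, List.cons.injEq] at h5
      exact absurd h5.1 hA0
    · rw [hZ, List.cons.injEq] at h5
      exact absurd h5.1 hZ0
    · refine ⟨?_, t, u, D, hD, h5⟩
      have h6 := congrArg (fun t => (cs t).reverse) h5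
      rw [hZ] at h6
      simp [List.replicate_succ, rep_comm] at h6
      exact h6.1
  have one' : 1 ≤ (OddHC.cont x.1).count 1 → ∀ {A Z : BinaryTree Unit} {Y V},
      cs x.1 = A :: Y → A ≠ .nil → A ≠ l1 → (∀ t, A ≠ .nil △ b2 (t + 1)) →
      (cs x.1).reverse = Z :: V → Z ≠ .nil → 2 ≤ (cs x.1).length →
      2 ≤ (OddHC.cont x.1).count 1 ∧ 3 ≤ (cs x.1).length ∧
      Z = l1 ∧ (∃ (t u : ℕ) (D : BinaryTree Unit), GD D ∧
        x.1 = app (RR u D 0) (.nil △ (.nil △ b2 (t + 1)))) := by
    intro h1 A Z Y V hA hA0 hA1 hA2 hZ hZ0 hlen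
    by_cases h2 : 2 ≤ (OddHC.cont x.1).count 1
    · obtain ⟨h3, h4⟩ := two' h2 hA hA0 hZ hZ0
      exact ⟨h2, (two h2).1, h3, h4⟩
    · exfalso
      rcases hsig with h3 | ⟨h3, h4⟩ | ⟨h3, _⟩
      · omega
      · rcases h4 with h4 | ⟨Y', h5⟩ | ⟨Y', h5⟩ | ⟨t, u, D, hD, h5⟩ | ⟨t, u, D, hD, h5⟩
        · omega
        · rw [hA, List.cons.injEq] at h5
          exact hA0 h5.1
        · rw [hZ, List.cons.injEq] at h5
          exact hZ0 h5.1
        · have h6 := congrArg cs h5
          rw [hA] at h6
          simp [List.replicate_succ] at h6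
          exact hA1 h6.1
        · have h6 := congrArg cs h5
          rw [hA] at h6
          simp at h6
          exact hA2 t h6.1
      · omega
  interval_cases i
  · -- 0
    have hx' : x.1 = app R ((H1.ch (q + 1) △ .nil) △ .nil) := hx
    have hlast : (cs x.1).reverse = (H1.ch (q + 1) △ .nil) :: (cs R).reverse := by
      rw [hx']; simp
    obtain ⟨_, _, h3, _⟩ := one' (by rw [hx', cont_app, Multiset.count_add]; omega)
      (A := AR) (Y := YR ++ [H1.ch (q + 1) △ .nil]) (by rw [hx']; simp [fR]) fR0 fR1 fR2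
      hlast (by simp) (by rw [hx']; simp; omega)
    exact hQn (node_inj' h3).1
  · -- 1
    have hx' : x.1 = app R (.nil △ app (H1.ch (q + 1)) (.nil △ .nil)) := hx
    have h3 : 3 ≤ (OddHC.cont x.1).count 1 := by
      rw [hx', cont_app, cont_node, cont_app, cont_node, raise_nil, cont_nil]
      simp only [Multiset.count_add, h11]
      omega
    have := (two (by omega)).2.1
    omega
  · -- 2
    have hx' : x.1 = .nil △ app R (.nil △ H1.ch (q + 1)) := hx
    have h3 : 3 ≤ (OddHC.cont x.1).count 1 := by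
      rw [hx', cont_node, cont_app, cont_node, raise_nil]
      simp only [Multiset.count_add, h11]
      omega
    have := (two (by omega)).2.1
    omega
  · -- 3
    have hx' : x.1 = app R (.nil △ H1.ch (q + 1)) △ .nil := hx
    have h3 : 2 ≤ (OddHC.cont x.1).count 1 := by
      rw [hx', cont_node, cont_nil, add_zero, cont_app, cont_node, raise_nil,
        one_raise (by rw [sup_add']; omega)]
      simp only [Multiset.count_add, h11]
      omega
    have := (two (by omega)).1
    rw [hx'] at this
    simp at this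
  · -- 4
    have hx' : x.1 = app (H1.ch (q + 1)) (.nil △ .nil) △ R := hx
    have h3 : 2 ≤ (OddHC.cont x.1).count 1 := by
      rw [hx', cont_node, cont_app, cont_node, raise_nil, cont_nil]
      have := one_raise_ge (OddHC.cont (H1.ch (q + 1)) + ({1} + 0))
      by_cases hq : q = 0
      · subst hq
        simp only [Multiset.count_add, h11, hQc] at this ⊢
        omega
      · rw [Multiset.count_add, one_raise (by rw [hQc, sup_add', Multiset.sup_singleton]; omega)]
        simp only [Multiset.count_add, h11]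
        omega
    obtain ⟨h4, _⟩ := two' h3 (A := app (H1.ch (q + 1)) (.nil △ .nil)) (Y := cs R) (by rw [hx']; rfl)
      (by
        intro h5
        have := congrArg cs h5
        simp at this)
      (Z := ZR) (V := VR ++ [app (H1.ch (q + 1)) (.nil △ .nil)]) (by rw [hx']; simp [lR]) lR0
    exact lR1 h4
  · -- 5
    have hx' : x.1 = H1.ch (q + 1) △ (.nil △ R) := hx
    have h3 : 2 ≤ (OddHC.cont x.1).count 1 := by
      rw [hx', cont_node, cont_node, raise_nil]
      simp only [Multiset.count_add, h11]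
      omega
    obtain ⟨h4, _⟩ := two' h3 (A := H1.ch (q + 1)) (Y := .nil :: cs R) (by rw [hx']; rfl) hQn
      (Z := ZR) (V := VR ++ [.nil] ++ [H1.ch (q + 1)]) (by rw [hx']; simp [lR]) lR0
    exact lR1 h4
  · -- 6
    have hx' : x.1 = R △ (H1.ch (q + 1) △ .nil) := hx
    have h3 : 1 ≤ (OddHC.cont x.1).count 1 := by
      rw [hx', cont_node, Multiset.count_add, one_raise (by omega)]
      omega
    obtain ⟨_, h4, _⟩ := one' h3 (A := R) (Y := [H1.ch (q + 1)]) (by rw [hx']; rfl) hRn hRl
      (by
        rintro t rfl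
        simp at fR
        exact fR0 fR.1.symm) (Z := H1.ch (q + 1)) (V := [R]) (by rw [hx']; rfl) hQn
      (by rw [hx']; simp)
    rw [hx'] at h4
    simp at h4
  · -- 7
    have hx' : x.1 = app (H1.ch (q + 1)) ((.nil △ R) △ .nil) := hx
    have h3 : 2 ≤ (OddHC.cont x.1).count 1 := by
      rw [hx', cont_app, cont_node, cont_nil, add_zero, cont_node, raise_nil, Multiset.count_add,
        one_raise (by rw [sup_add']; omega)]
      simp only [Multiset.count_add, h11]
      omega
    have := (two (by omega)).1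
    rw [hx'] at this
    simp [chs] at this
  · -- 8
    have hx' : x.1 = app (H1.ch (q + 1)) (.nil △ (R △ .nil)) := hx
    have h3 : (if q = 0 then 1 else 0) + 2 ≤ (OddHC.cont x.1).count 1 := by
      rw [hx', cont_app, cont_node, cont_node, raise_nil, hQc, Multiset.count_add, hQ1,
        Multiset.count_add, Multiset.count_add, one_raise (by omega), h11]
      omega
    by_cases hq : q = 0
    · rw [if_pos hq] at h3
      have := (two (by omega)).2.1
      omega
    · rw [if_neg hq] at h3
      obtain ⟨h4, _⟩ := two' (by omega) (A := H1.ch q) (Y := [.nil, R]) (by rw [hx']; simp [chs])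
        (hchq hq) (Z := R) (V := [.nil, H1.ch q]) (by rw [hx']; simp [chs]) hRn
      exact hRl h4
  · -- 9
    have hx' : x.1 = (R △ .nil) △ H1.ch (q + 1) := hx
    have h2 : 2 ≤ (raise (OddHC.cont R)).sup := by
      have := OddHC.ht_eq (R △ .nil)
      rw [cont_node, cont_nil, add_zero] at this
      rw [← this, ht_node]
      have := OddHC.ht_eq R
      omega
    have h3 : (if q = 0 then 1 else 0) + 1 ≤ (OddHC.cont x.1).count 1 := by
      rw [hx', cont_node, cont_node, cont_nil, add_zero, hQc, Multiset.count_add, hQ1,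
        one_raise h2, one_raise (by omega)]
      omega
    have hlen : (cs x.1).length = 2 := by rw [hx']; simp [chs]
    by_cases hq : q = 0
    · rw [if_pos hq] at h3
      have := (two (by omega)).1
      omega
    · rw [if_neg hq] at h3
      obtain ⟨_, h4, _⟩ := one' (by omega) (A := R △ .nil) (Y := [H1.ch q])
        (by rw [hx']; simp [chs]) (by simp)
        (by
          intro h5
          exact hRn (node_inj' h5).1)
        (by
          intro t h5
          exact hRn (node_inj' h5).1) (Z := H1.ch q) (V := [R △ .nil]) (by rw [hx']; simp [chs])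
        (hchq hq) (by omega)
      omega
  · -- 10
    have hx' : x.1 = app B ((H1.ch (q + 1) △ .nil) △ S) := hx
    obtain ⟨N, hN⟩ := cont_top R hRn
    rw [OddHC.ht_eq] at hN
    have hcont : OddHC.cont x.1 = {q + 3} + {(OddHC.cont R).sup} + N := by
      rw [hx']
      change OddHC.cont (app B (app (H1.ch (q + 3)) S)) = _
      rw [cont_app, cont_app, cont_ch (by omega)]
      have e1 : OddHC.cont B + ({q + 3} + OddHC.cont S) = {q + 3} + (OddHC.cont B + OddHC.cont S) := by
        abel
      rw [e1, hf.eq]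
      conv_lhs => rw [hN]
      abel
    obtain ⟨t, u, D, hD, h4⟩ := h.n3 hn hx0 _ _ _ (by omega) sR hcont
    have hfirst : ∃ A Y, cs x.1 = A :: Y ∧ A ≠ .nil ∧ (∀ b, A ≠ .nil △ b2 (b + 1)) ∧
        2 ≤ (cs x.1).length := by
      rcases hf.fB with h1 | ⟨A, Y, h1, h2, _, h3⟩
      · refine ⟨H1.ch (q + 1) △ .nil, cs S, by rw [hx', h1]; rfl, by simp, ?_, ?_⟩
        · intro b h2
          exact hQn (node_inj' h2).1
        · rw [hx', h1]
          simp [app]
          omega
      · refine ⟨A, Y ++ ((H1.ch (q + 1) △ .nil) :: cs S), by rw [hx']; simp [h1], h2, h3, ?_⟩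
        rw [hx']
        simp [h1]
        omega
    obtain ⟨A, Y, hA, hA0, hA1, hlen⟩ := hfirst
    rcases h4 with h4 | h4 | h4 | h4
    · rw [h4] at hA
      simp at hA
      exact hA1 t hA.1.symm
    · rw [h4] at hA
      simp at hA
      exact hA0 hA.1.symm
    · have h5 := congrArg (fun t => (cs t).reverse) h4
      rw [hx'] at h5
      simp [lS] at h5
      exact lS0 h5.1
    · rw [h4] at hlen
      simp at hlen
  · -- 11
    have hx' : x.1 = app B (.nil △ app (H1.ch (q + 1)) (.nil △ S)) := hx
    have h3 : 3 ≤ (OddHC.cont x.1).count 1 := by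
      rw [hx', cont_app, cont_node, cont_app, cont_node, raise_nil]
      simp only [Multiset.count_add, h11]
      omega
    have := (two (by omega)).2.1
    omega
  · -- 12
    have hx' : x.1 = S △ app B (.nil △ H1.ch (q + 1)) := hx
    have h3 : (if q = 0 then 1 else 0) + 2 ≤ (OddHC.cont x.1).count 1 := by
      rw [hx', cont_node, cont_app, cont_node, raise_nil, hQc, Multiset.count_add, one_raise sS,
        Multiset.count_add, Multiset.count_add, hQ1, h11]
      omega
    by_cases hq : q = 0
    · rw [if_pos hq] at h3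
      have := (two (by omega)).2.1
      omega
    · rw [if_neg hq] at h3
      have hl : (cs x.1).reverse = H1.ch q :: .nil :: ((cs B).reverse ++ [S]) := by
        rw [hx']; simp [chs]
      obtain ⟨h4, t, u, D, hD, h5⟩ := two' (by omega) (A := S) (Y := cs B ++ [.nil, H1.ch q])
        (by rw [hx']; simp [chs]) hSn hl (hchq hq)
      have h6 := congrArg (fun t => (cs t).reverse) h5
      rw [hl] at h6
      rcases t with _ | t
      · simp at h6
        rcases hf.lB with h7 | ⟨A, Y, h7, h8, _⟩
        · rw [h7] at h6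
          simp at h6
        · rw [h7] at h6
          simp at h6
          exact h8 h6.2.1
      · simp [List.replicate_succ, rep_comm] at h6
  · -- 13
    have hx' : x.1 = app S (app B (.nil △ H1.ch (q + 1)) △ .nil) := hx
    have h3 : 2 ≤ (OddHC.cont x.1).count 1 := by
      rw [hx', cont_app, cont_node, cont_nil, add_zero, cont_app, cont_node, raise_nil, hQc]
      have := one_raise_ge (OddHC.cont B + ({1} + {q + 1}))
      by_cases hq : q = 0
      · subst hq
        simp only [Multiset.count_add, h11] at this ⊢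
        omega
      · rw [Multiset.count_add, one_raise (by
          rw [sup_add', sup_add', Multiset.sup_singleton, Multiset.sup_singleton]; omega)]
        simp only [Multiset.count_add, h11]
        omega
    obtain ⟨h4, _⟩ := two' h3 (A := AS) (Y := YS ++ [app B (.nil △ H1.ch (q + 1))])
      (by rw [hx']; simp [fS]) fS0 (Z := app B (.nil △ H1.ch (q + 1))) (V := (cs S).reverse)
      (by rw [hx']; simp)
      (by
        intro h5
        have := congrArg cs h5
        simp at this)
    have h5 := congrArg cs h4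
    rcases hf.fB with h1 | ⟨A, Y, h1, h2, _, h3⟩
    · rw [h1] at h5
      simp [app, chs] at h5
    · simp [h1] at h5
  · -- 14
    have hx' : x.1 = app (H1.ch (q + 1)) (.nil △ S) △ B := hx
    have h3 : 2 ≤ (OddHC.cont x.1).count 1 := by
      rw [hx', cont_node, cont_app, cont_node, raise_nil, Multiset.count_add,
        one_raise (by rw [sup_add', sup_add']; omega)]
      simp only [Multiset.count_add, h11]
      omega
    rcases hf.lB with h1 | ⟨A, Y, h1, h2, h4⟩
    · have := (two (by omega)).1
      rw [hx', h1] at this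
      simp at this
    · obtain ⟨h5, _⟩ := two' h3 (A := app (H1.ch (q + 1)) (.nil △ S)) (Y := cs B)
        (by rw [hx']; rfl)
        (by
          intro h5
          have := congrArg cs h5
          simp at this) (Z := A) (V := Y ++ [app (H1.ch (q + 1)) (.nil △ S)])
        (by rw [hx']; simp [h1]) h2
      exact h4 h5
  · -- 15
    have hx' : x.1 = H1.ch (q + 1) △ (S △ B) := hx
    have h3 : 1 ≤ (OddHC.cont x.1).count 1 := by
      rw [hx', cont_node, cont_node, Multiset.count_add, Multiset.count_add, one_raise sS]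
      omega
    have hlast : ∃ Z V, (cs x.1).reverse = Z :: V ∧ Z ≠ .nil ∧ Z ≠ l1 := by
      rcases hf.lB with h1 | ⟨A, Y, h1, h2, h4⟩
      · exact ⟨S, [H1.ch (q + 1)], by rw [hx', h1]; rfl, hSn, hSl⟩
      · exact ⟨A, Y ++ [S] ++ [H1.ch (q + 1)], by rw [hx']; simp [h1], h2, h4⟩
    obtain ⟨Z, V, hZ, hZ0, hZ1⟩ := hlast
    have hlen : 2 ≤ (cs x.1).length := by rw [hx']; simp
    by_cases h4 : 2 ≤ (OddHC.cont x.1).count 1
    · obtain ⟨h5, _⟩ := two' h4 (A := H1.ch (q + 1)) (Y := S :: cs B) (by rw [hx']; rfl) hQn hZ hZ0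
      exact hZ1 h5
    · rcases hsig with h5 | ⟨h5, h6⟩ | ⟨h5, _⟩
      · omega
      · rcases h6 with h6 | ⟨Y', h6⟩ | ⟨Y', h6⟩ | ⟨t, u, D, hD, h6⟩ | ⟨t, u, D, hD, h6⟩
        · omega
        · rw [hx'] at h6
          simp at h6
          exact hQn h6.1
        · rw [hZ, List.cons.injEq] at h6
          exact hZ0 h6.1
        · have h7 := congrArg cs h6
          rw [hx'] at h7
          rcases t with _ | t
          · simp [List.replicate_succ] at h7
            have h8 := congrArg (fun t => (cs t).reverse) h7.2.1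
            rw [lS] at h8
            simp at h8
            exact lS0 h8.1
          · simp [List.replicate_succ] at h7
            exact hSl h7.2.1
        · have h7 := congrArg cs h6
          rw [hx'] at h7
          simp at h7
          exact hQb t h7.1
      · omega
  · -- 16
    have hx' : x.1 = app S (B △ (H1.ch (q + 1) △ .nil)) := hx
    have h3 : 1 ≤ (OddHC.cont x.1).count 1 := by
      rw [hx', cont_app, Multiset.count_add]
      omega
    have hl : (cs x.1).reverse = H1.ch (q + 1) :: B :: (cs S).reverse := by rw [hx']; simp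
    obtain ⟨h4, _, h5, t, u, D, hD, h6⟩ := one' h3 (A := AS) (Y := YS ++ [B, H1.ch (q + 1)])
      (by rw [hx']; simp [fS]) fS0 fS1 fS2 hl hQn (by rw [hx']; simp)
    have h7 := congrArg (fun t => (cs t).reverse) h6
    rw [hl] at h7
    rcases t with _ | t
    · simp [lS] at h7
      exact lS0 h7.2.2.1
    · simp [List.replicate_succ, rep_comm] at h7
      exact hBl h7.2.1
  · -- 17
    have hx' : x.1 = app (H1.ch (q + 1)) ((S △ B) △ .nil) := hx
    have h2 : 2 ≤ (raise (OddHC.cont S) + OddHC.cont B).sup := by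
      have := OddHC.ht_eq (S △ B)
      rw [cont_node] at this
      rw [← this, ht_node]
      have := OddHC.ht_eq S
      omega
    have h3 : (if q = 0 then 1 else 0) + 1 ≤ (OddHC.cont x.1).count 1 := by
      rw [hx', cont_app, cont_node, cont_nil, add_zero, cont_node, hQc, Multiset.count_add, hQ1,
        one_raise h2, Multiset.count_add, one_raise sS]
      omega
    have hlen : (cs x.1).length = 2 := by rw [hx']; simp [chs]
    by_cases h4 : 2 ≤ (OddHC.cont x.1).count 1
    · have := (two h4).1
      omega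
    · have hq : q ≠ 0 := by
        intro hq
        rw [if_pos hq] at h3
        omega
      rcases hsig with h5 | ⟨h5, h6⟩ | ⟨h5, _⟩
      · omega
      · rcases h6 with h6 | ⟨Y', h6⟩ | ⟨Y', h6⟩ | ⟨t, u, D, hD, h6⟩ | ⟨t, u, D, hD, h6⟩
        · omega
        · rw [hx'] at h6
          simp [chs] at h6
          exact hchq hq h6.1
        · rw [hx'] at h6
          simp [chs] at h6
        · have h7 := congrArg cs h6
          rw [hx'] at h7
          rcases t with _ | t
          · simp [chs, List.replicate_succ] at h7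
            have h8 := congrArg (fun t => (cs t).reverse) h7.2
            rcases hf.lB with h1 | ⟨A, Y, h1, h2, _⟩
            · have h9 := congrArg List.length h8
              rw [h1] at h9
              simp at h9
            · simp [h1] at h8
              exact h2 h8.1
          · simp [chs, List.replicate_succ] at h7
        · have h7 := congrArg cs h6
          rw [hx'] at h7
          simp [chs] at h7
          exact hchb t h7.1
      · omega
  · -- 18
    have hx' : x.1 = app (H1.ch (q + 1)) (.nil △ app S (B △ .nil)) := hx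
    have hcnt : (OddHC.cont x.1).count 1 = (if q = 0 then 1 else 0) +
        (1 + ((OddHC.cont S).count 1 + (raise (OddHC.cont B)).count 1)) := by
      rw [hx', cont_app, cont_node, cont_app, cont_node, raise_nil, cont_nil, add_zero, hQc,
        Multiset.count_add, hQ1, Multiset.count_add, Multiset.count_add, h11]
    by_cases hq : q = 0
    · rw [if_pos hq] at hcnt
      have := (two (by omega)).2.1
      omega
    · rw [if_neg hq] at hcnt
      by_cases hB : B = .nil
      · rw [hB, cont_nil, raise_zero, h11] at hcnt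
        have := (two (by omega)).2.1
        omega
      · obtain ⟨h5, _⟩ := two' (by omega) (A := H1.ch q) (Y := .nil :: (cs S ++ [B]))
          (by rw [hx']; simp [chs]) (hchq hq) (Z := B) (V := (cs S).reverse ++ [.nil, H1.ch q])
          (by rw [hx']; simp [chs]) hB
        exact hBl h5
  · -- 19
    have hx' : x.1 = app S (B △ .nil) △ H1.ch (q + 1) := hx
    have h2 : 2 ≤ (OddHC.cont S + raise (OddHC.cont B)).sup := by
      rw [sup_add']
      omega
    have h3 : (if q = 0 then 1 else 0) + 1 ≤ (OddHC.cont x.1).count 1 := by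
      rw [hx', cont_node, cont_app, cont_node, cont_nil, add_zero, hQc, Multiset.count_add, hQ1,
        one_raise h2, Multiset.count_add]
      omega
    have hlen : (cs x.1).length = 2 := by rw [hx']; simp [chs]
    by_cases h4 : 2 ≤ (OddHC.cont x.1).count 1
    · have := (two h4).1
      omega
    · have hq : q ≠ 0 := by
        intro hq
        rw [if_pos hq] at h3
        omega
      obtain ⟨h5, _⟩ := one' (by omega) (A := app S (B △ .nil)) (Y := [H1.ch q])
        (by rw [hx']; simp [chs])
        (by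
          intro h5
          have := congrArg cs h5
          simp at this)
        (by
          intro h5
          have := congrArg cs h5
          simp [fS] at this)
        (by
          intro t h5
          have := congrArg cs h5
          simp [fS] at this
          exact fS0 this.1) (Z := H1.ch q) (V := [app S (B △ .nil)]) (by rw [hx']; simp [chs])
        (hchq hq) (by omega)
      omega

theorem hv_first {A : BinaryTree Unit} (h : H1.hv A) (h0 : A ≠ .nil) :
    ∃ E Y, cs A = E :: Y ∧ E ≠ .nil ∧ E ≠ l1 ∧ ∀ b, E ≠ .nil △ b2 (b + 1) := by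
  cases A with
  | nil => exact absurd rfl h0
  | node _ E Y =>
    refine ⟨E, cs Y, rfl, ?_⟩
    rcases h.1 with rfl | ⟨h1, h2⟩
    · refine ⟨by simp, by simp, ?_⟩
      intro b e
      have := (node_inj' e).1
      simp at this
    · refine ⟨h1, ?_, ?_⟩
      · rintro rfl
        rcases h2.1 with h3 | ⟨h3, _⟩
        · simp at h3
        · exact h3 rfl
      · rintro b rfl
        rcases h2.1 with h3 | ⟨h3, _⟩
        · simp at h3
        · exact h3 rfl

theorem hv_back {A : BinaryTree Unit} (h : H1.hv A) (h0 : A ≠ .nil) :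
    ∃ E Y, (cs A).reverse = E :: Y ∧ E ≠ .nil ∧ E ≠ l1 := by
  induction A with
  | nil => exact absurd rfl h0
  | node _ E Y _ ih =>
    by_cases hY : Y = .nil
    · subst hY
      refine ⟨E, [], rfl, ?_⟩
      rcases h.1 with rfl | ⟨h1, h2⟩
      · exact ⟨by simp, by simp⟩
      · refine ⟨h1, ?_⟩
        rintro rfl
        rcases h2.1 with h3 | ⟨h3, _⟩
        · simp at h3
        · exact h3 rfl
    · obtain ⟨G, Z, e, h1, h2⟩ := ih h.2 hY
      exact ⟨G, Z ++ [E], by rw [cs_node', List.reverse_cons, e]; rfl, h1, h2⟩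

/-- **the data of a node of type A with a `()` in the marker** -/
theorem winF_A {q : ℕ} {B1 H s B : BinaryTree Unit} (h : H1.NodeG k q B1 H s B)
    (h1 : 1 ≤ (OddHC.cont (H1.gR B1 H s B)).count 1) :
    WinF (H1.gR B1 H s B) B (Tsq.sq (H1.gR B1 H s B)).1 := by
  have hd := h.dat
  obtain ⟨X, Y, g, g1, g2, g3⟩ := H1.sq_hv h.hs h.s0
  have hs3 := H1.hv_ht h.hs h.s0
  have hH2 := H1.bl_ht h.light
  have e1 : Tsq.ht (app H s) = Tsq.ht s := by rw [Tsq.ht_app]; omega
  have hlow := h.low
  have htop := h.top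
  have e2 : Tsq.sq (app H s) = (app H X △ Y, (Tsq.sq s).2) := by
    rw [Tsq.sq_pre H s (by omega), g.e]
    rfl
  have e3 : Tsq.sq (app H s △ B) = ((app H X △ Y) △ (Tsq.sq s).2, B) := by
    rw [Tsq.sq_ge (H1.app_ne h.s0) (by rw [e1, H1.ht_eq, H1.ht_eq]; omega), e2]
  have e4 : Tsq.sq (H1.gR B1 H s B) = (app B1 (app H X △ Y) △ (Tsq.sq s).2, B) := by
    unfold H1.gR
    rw [Tsq.sq_pre B1 _ (by rw [Tsq.ht_node, H1.ht_eq, H1.ht_eq, H1.ht_eq, ht_app]; omega), e3]
    rfl
  have hB1 : (OddHC.cont B).count 1 = 0 := by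
    rw [Multiset.count_eq_zero]
    intro h2
    have := h.bare 1 h2
    omega
  have heq : OddHC.cont B + OddHC.cont (Tsq.sq (H1.gR B1 H s B)).1 =
      OddHC.cont (H1.gR B1 H s B) := hd.cont
  have htR : OddHC.ht (H1.gR B1 H s B) = OddHC.ht s + 1 := by
    unfold H1.gR
    rw [ht_app, ht_node, ht_app]
    rw [H1.ht_eq] at hH2
    rw [H1.ht_eq] at hs3
    omega
  rw [H1.ht_eq] at hs3
  have hHs : app H s ≠ .nil := H1.app_ne h.s0
  have hHs3 : 3 ≤ OddHC.ht (app H s) := by rw [ht_app]; omega
  have hHl : app H s ≠ l1 := by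
    intro e
    rw [e] at hHs3
    change 3 ≤ 1 at hHs3
    omega
  have hHb : ∀ b, app H s ≠ .nil △ b2 (b + 1) := by
    intro b e
    rw [e] at hHs3
    have := ht_b2le b
    omega
  have hHX : app H X ≠ .nil := H1.app_ne g.X0
  refine ⟨?_, ?_, ?_, ?_, ?_, ?_, ?_, ?_, h1, ?_, hB1, heq⟩
  · unfold H1.gR
    by_cases hb : B1 = .nil
    · exact ⟨app H s, cs B, by rw [hb]; rfl, hHs, hHl, hHb⟩
    · obtain ⟨E, Y', h2, h3, h4, h5⟩ := hv_first h.h1 hb
      exact ⟨E, Y' ++ cs (app H s △ B), by rw [cs_app, h2]; rfl, h3, h4, h5⟩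
  · unfold H1.gR
    by_cases hb : B = .nil
    · exact ⟨app H s, (cs B1).reverse, by rw [hb]; simp, hHs, hHl⟩
    · obtain ⟨E, Y', h2, h3, h4⟩ := hv_back h.hB hb
      exact ⟨E, Y' ++ (app H s :: (cs B1).reverse), by simp [h2], h3, h4⟩
  · rw [e4]
    refine ⟨app B1 (app H X △ Y), cs (Tsq.sq s).2, rfl, H1.app_ne (by simp), ?_, ?_⟩
    · intro e
      have h2 := congrArg cs e
      by_cases hb : B1 = .nil
      · rw [hb] at h2
        simp [app] at h2
        have h3 := congrArg cs h2.1
        simp at h3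
        exact g.X0 (cs_inj (by simp [h3.2]))
      · obtain ⟨E, Y', h3, h4, _⟩ := hv_first h.h1 hb
        simp [h3] at h2
    · intro b e
      have h2 := congrArg cs e
      by_cases hb : B1 = .nil
      · rw [hb] at h2
        simp [app] at h2
        have h3 := congrArg cs h2.1
        simp at h3
        exact g.X0 (cs_inj (by simp [h3.2]))
      · obtain ⟨E, Y', h3, h4, _⟩ := hv_first h.h1 hb
        simp [h3] at h2
        exact h4 h2.1
  · rw [e4]
    have hl := g.l2
    by_cases h2 : (Tsq.sq s).2 = .nil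
    · exact ⟨app B1 (app H X △ Y), [], by rw [h2]; rfl, H1.app_ne (by simp)⟩
    · obtain ⟨E, Y', h3, h4⟩ := last_ne h2 hl
      exact ⟨E, Y' ++ [app B1 (app H X △ Y)], by simp [h3], h4⟩
  · by_cases hb : B = .nil
    · exact Or.inl hb
    · obtain ⟨E, Y', h2, h3, h4, h5⟩ := hv_first h.hB hb
      exact Or.inr ⟨E, Y', h2, h3, h4, h5⟩
  · by_cases hb : B = .nil
    · exact Or.inl hb
    · obtain ⟨E, Y', h2, h3, h4⟩ := hv_back h.hB hb
      exact Or.inr ⟨E, Y', h2, h3, h4⟩
  · rw [← OddHC.ht_eq, htR]
    omega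
  · have := hd.htS
    rw [← OddHC.ht_eq, this, htR]
    omega
  · have := congrArg (Multiset.count 1) heq
    rw [Multiset.count_add, hB1, zero_add] at this
    omega

/-- **W-A-JM, W-A-J3** -/
theorem JG.disj_A (hn : 1 ≤ n) {B0 : Finset (X k)} {P U M : Set (ZMod (2 * n + 1) → ℕ)}
    (h : JG n B0 P U M) {F : Set (Cyc k)} {g : DG k} (hA : TyA F g)
    (hm : ∀ c ∈ F, 1 ≤ (contc c).count 1) : ∀ w ∈ B0, w ∉ g.B := by
  obtain ⟨q, B1, H, s, B, w0, hg, rfl, rfl⟩ := hA
  intro w hw hwB
  obtain ⟨i, hi, rfl⟩ := mem_gad20.1 hwB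
  have h1 := hm _ rfl
  have h0 : OddHC.cont (H1.gX q B1 H s B w0 0).1 = OddHC.cont (H1.gR B1 H s B) + {q + 3} := by
    rw [hg.word w0 (by norm_num)]
    change OddHC.cont (app (H1.gR B1 H s B) (H1.ch (q + 3))) = _
    rw [cont_app, cont_ch (by omega)]
  have h2 : 1 ≤ (OddHC.cont (H1.gR B1 H s B)).count 1 := by
    change 1 ≤ (OddHC.cont (H1.gX q B1 H s B w0 0).1).count 1 at h1
    rw [h0, Multiset.count_add, Multiset.count_singleton, if_neg (by omega)] at h1
    omega
  exact h.disj_win hn (winF_A hg h2) hi (hg.word w0 hi) hw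

end J

end Pool.OddHC
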