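import Pool.Agent.Work.MP_8f87b2_h22.JA
import Pool.Agent.Work.MP_8f87b2_h60.TyA0
import Pool.Agent.Work.MP_8f87b2_h60.TyB0

/-!
MP_8f87b2_co, matrix rows W-A0-JM, W-A0-J3: the words of the J gadgets against the bare windows.
-/

set_option autoImplicit false
set_option linter.unusedSimpArgs false
set_option linter.unusedVariables false

namespace Pool.OddHC

namespace J

open Finset Equiv BinaryTree Pool.Agent.Work.MP_8f87b2_co

variable {k n : ℕ}

theorem cardn (A B : BinaryTree Unit) : Multiset.card (OddHC.cont (A △ B)) =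
    max 1 (Multiset.card (OddHC.cont A)) + Multiset.card (OddHC.cont B) := by
  rw [cont_node, Multiset.card_add, HM.card_raise]

theorem carda (A B : BinaryTree Unit) : Multiset.card (OddHC.cont (app A B)) =
    Multiset.card (OddHC.cont A) + Multiset.card (OddHC.cont B) := by
  rw [cont_app, Multiset.card_add]

theorem card_smc (d κ : ℕ) : Multiset.card (smc d κ) =
    match κ with | 0 => 0 | 1 => 3 | 2 => 2 | 3 => 2 | 4 => 1 | _ => 1 := by
  rcases κ with _ | _ | _ | _ | _ | κ <;> rfl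

theorem A0D.two {d : ℕ} {R B S : BinaryTree Unit} (h : A0D d R B S) {e : Bool}
    (he : e = true ↔ B = .nil) {i : ℕ} (hi : i < 20) :
    ∃ H, OddHC.cont (aw R (pc (d + 1)) B S i) = smc d (kap e i) + H ∧ (∀ x ∈ H, d + 3 ≤ x) ∧
      2 ≤ Multiset.card H ∧ (kap e i = 0 → 3 ≤ Multiset.card H) := by
  obtain ⟨H, h1, h2, _, _⟩ := cont_aw h he hi
  refine ⟨H, h1, h2, ?_⟩
  have hR : 2 ≤ Multiset.card (OddHC.cont R) := h.cardR
  have hS : 1 ≤ Multiset.card (OddHC.cont S) :=
    Multiset.card_pos.2 (cont_ne h.S_ne)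
  have hQ : Multiset.card (OddHC.cont (pc (d + 1))) = 1 := by rw [cont_pc, Multiset.card_singleton]
  have hbs := congrArg Multiset.card h.eq
  rw [Multiset.card_add] at hbs
  have hB : e = true → Multiset.card (OddHC.cont B) = 0 := by
    intro h3
    rw [he.1 h3]
    rfl
  have hB' : e = false → 1 ≤ Multiset.card (OddHC.cont B) := by
    intro h3
    apply Multiset.card_pos.2
    apply cont_ne
    intro h4
    have := he.2 h4
    rw [h3] at this
    exact absurd this (by simp)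
  have h0 : Multiset.card (OddHC.cont (BinaryTree.nil : BinaryTree Unit)) = 0 := rfl
  have hc := congrArg Multiset.card h1
  rw [Multiset.card_add, card_smc] at hc
  cases e
  · have := hB' rfl
    interval_cases i <;> simp only [aw, cardn, carda, hQ, h0, kap, if_false, Bool.false_eq_true] at hc ⊢ <;>
      constructor <;> intros <;> omega
  · have := hB rfl
    interval_cases i <;> simp only [aw, cardn, carda, hQ, h0, kap, if_true] at hc ⊢ <;>
      constructor <;> intros <;> omega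

theorem two_of {c : ℕ} {M : Multiset ℕ} (h : ∀ x ∈ M, c ≤ x) (h2 : 2 ≤ Multiset.card M) :
    ∃ x y N, c ≤ x ∧ c ≤ y ∧ M = {x} + {y} + N := by
  obtain ⟨x, hx⟩ := Multiset.card_pos_iff_exists_mem.1 (by omega : 0 < Multiset.card M)
  have h3 := Multiset.card_erase_add_one hx
  obtain ⟨y, hy⟩ := Multiset.card_pos_iff_exists_mem.1 (by omega : 0 < Multiset.card (M.erase x))
  refine ⟨x, y, (M.erase x).erase y, h x hx, h y (Multiset.mem_of_mem_erase hy), ?_⟩
  rw [add_assoc, Multiset.singleton_add y, Multiset.cons_erase hy, Multiset.singleton_add,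
    Multiset.cons_erase hx]

/-- at most two parts `≥ 3` -/
theorem JG.c3 (hn : 1 ≤ n) {B : Finset (X k)} {P U M : Set (ZMod (2 * n + 1) → ℕ)}
    (h : JG n B P U M) {w : X k} (hw : w ∈ B) :
    Multiset.card ((OddHC.cont w.1).filter (3 ≤ ·)) ≤ 2 := by
  have hr : ∀ b, (Multiset.replicate b 2).filter (3 ≤ ·) = 0 := by
    intro b
    rw [Multiset.filter_eq_nil]
    intro z hz
    rw [Multiset.eq_of_mem_replicate hz]
    omega
  have h1 : ({1} : Multiset ℕ).filter (3 ≤ ·) = 0 := rfl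
  have hs : ∀ s, Multiset.card (({s} : Multiset ℕ).filter (3 ≤ ·)) ≤ 1 := by
    intro s
    exact (Multiset.card_le_card (Multiset.filter_le _ _)).trans (by rw [Multiset.card_singleton])
  obtain ⟨s, b, _, h4⟩ := h.cases2 hn hw
  have := hs s
  have := hs 3
  rcases h4 with h4 | h4 | h4 | ⟨h4, t, u, D, hD, h5⟩ | ⟨h4, t, u, D, hD, h5⟩ <;>
    rw [h4] <;> simp only [Multiset.filter_add, hr, h1, add_zero, Multiset.card_add,
      Multiset.card_zero] <;> omega

/-- two parts at least 3: only the forms 13, 16, 18, 19 -/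
theorem JG.n3c (hn : 1 ≤ n) {B : Finset (X k)} {P U M : Set (ZMod (2 * n + 1) → ℕ)}
    (h : JG n B P U M) {w : X k} (hw : w ∈ B) (x y : ℕ) (N : Multiset ℕ) (hx : 3 ≤ x) (hy : 3 ≤ y)
    (he : OddHC.cont w.1 = {x} + {y} + N) : ∃ (t u : ℕ) (D : BinaryTree Unit), GD D ∧
      (((OddHC.cont w.1).count 1 = 1 ∧ (w.1 = (.nil △ b2 (t + 1)) △ RR u D 0 ∨
          w.1 = .nil △ (b2 (t + 1) △ RR u D 0) ∨
          w.1 = b2 (t + 1) △ app (RR u D 0) (.nil △ .nil))) ∨
        ((OddHC.cont w.1).count 1 = 0 ∧ w.1 = (b2 (t + 1) △ RR u D 0) △ .nil)) := by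
  have hcnt : 2 ≤ Multiset.card ((OddHC.cont w.1).filter (3 ≤ ·)) := by
    rw [he, Multiset.filter_add, Multiset.filter_add, Multiset.filter_singleton,
      Multiset.filter_singleton, if_pos hx, if_pos hy, Multiset.card_add, Multiset.card_add,
      Multiset.card_singleton, Multiset.card_singleton]
    omega
  have hr : ∀ b, (Multiset.replicate b 2).filter (3 ≤ ·) = 0 := by
    intro b
    rw [Multiset.filter_eq_nil]
    intro z hz
    rw [Multiset.eq_of_mem_replicate hz]
    omega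
  have h1 : ({1} : Multiset ℕ).filter (3 ≤ ·) = 0 := rfl
  have hs : ∀ s, Multiset.card (({s} : Multiset ℕ).filter (3 ≤ ·)) ≤ 1 := by
    intro s
    exact (Multiset.card_le_card (Multiset.filter_le _ _)).trans (by rw [Multiset.card_singleton])
  obtain ⟨s, b, hs3, h4⟩ := h.cases2 hn hw
  have := hs s
  rcases h4 with h4 | h4 | h4 | ⟨h4, t, u, D, hD, h5⟩ | ⟨h4, t, u, D, hD, h5⟩
  · simp only [h4, Multiset.filter_add, hr, h1, add_zero, Multiset.card_add,
      Multiset.card_zero] at hcnt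
    omega
  · simp only [h4, Multiset.filter_add, hr, h1, add_zero, Multiset.card_add,
      Multiset.card_zero] at hcnt
    omega
  · simp only [h4, Multiset.filter_add, hr, h1, add_zero, Multiset.card_add,
      Multiset.card_zero] at hcnt
    omega
  · refine ⟨t, u, D, hD, Or.inl ⟨?_, ?_⟩⟩
    · rw [h4]
      simp only [Multiset.count_add, Multiset.count_singleton, Multiset.count_replicate]
      rw [if_neg (by omega), if_neg (by omega), if_neg (by omega)]
      rfl
    · exact h5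
  · refine ⟨t, u, D, hD, Or.inr ⟨?_, h5⟩⟩
    rw [h4]
    simp only [Multiset.count_add, Multiset.count_singleton, Multiset.count_replicate]
    rw [if_neg (by omega), if_neg (by omega), if_neg (by omega)]

theorem card3 {c : ℕ} (hc : 3 ≤ c) {M L : Multiset ℕ} (h : ∀ x ∈ M, c ≤ x) :
    Multiset.card M ≤ Multiset.card ((L + M).filter (3 ≤ ·)) := by
  have h1 : M.filter (3 ≤ ·) = M := Multiset.filter_eq_self.2 (fun x hx => hc.trans (h x hx))
  rw [Multiset.filter_add, h1, Multiset.card_add]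
  omega

/-- **the bare windows** -/
theorem JG.disj_bare (hn : 1 ≤ n) {B0 : Finset (X k)} {P U M : Set (ZMod (2 * n + 1) → ℕ)}
    (h : JG n B0 P U M) {q : ℕ} {R B S : BinaryTree Unit} (hA : A0D q R B S) {x : X k} {i : ℕ}
    (hi : i < 20) (hx : x.1 = aw R (pc (q + 1)) B S i) : x ∉ B0 := by
  intro hxB
  obtain ⟨e, he⟩ : ∃ e : Bool, e = true ↔ B = .nil := ⟨decide (B = .nil), by simp⟩
  obtain ⟨H, h1, h2, h3, h4⟩ := A0D.two hA he hi
  rw [← hx] at h1
  obtain ⟨a, b, N, ha, hb, hN⟩ := two_of h2 h3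
  have hab : OddHC.cont x.1 = {a} + {b} + (smc q (kap e i) + N) := by
    rw [h1, hN]
    abel
  have hk0 : kap e i ≠ 0 := by
    intro h5
    have h6 := h4 h5
    have h7 := h.c3 hn hxB
    rw [h1] at h7
    have := card3 (by omega) (L := smc q (kap e i)) h2
    omega
  by_cases hq : q = 0
  swap
  · exact h.n4 hn hxB a b _ (by omega) (by omega) hab
  subst hq
  obtain ⟨t, u, D, hD, hform⟩ := h.n3c hn hxB a b _ (by omega) (by omega) hab
  have hc1 : (OddHC.cont x.1).count 1 = (smc 0 (kap e i)).count 1 := by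
    rw [h1, Multiset.count_add, Multiset.count_eq_zero (a := 1) (s := H) |>.2, add_zero]
    intro h5
    have := h2 1 h5
    omega
  have hRn := hA.R_ne
  have hSn := hA.S_ne
  have hDn : D ≠ .nil := by
    rintro rfl
    have := hD.ht
    change 2 ≤ 0 at this
    omega
  have hDl : D ≠ l1 := hD.ne
  have hb2 : b2 (t + 1) = l1 △ b2 t := rfl
  have hb0 : b2 (t + 1) ≠ .nil := by rw [hb2]; simp
  have hDc : ∀ Y, D ≠ .nil △ Y := by
    rintro Y rfl
    have h5 := hD.nn .nil (by simp)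
    simp at h5
  have hDc' : ∀ Y, .nil △ Y ≠ D := fun Y h5 => hDc Y h5.symm
  have hb2' : ∀ Y, b2 (t + 1) ≠ .nil △ Y := by
    intro Y h5
    rw [hb2] at h5
    simp at h5
  have hb2'' : ∀ Y, .nil △ Y ≠ b2 (t + 1) := fun Y h5 => hb2' Y h5.symm
  have hs1 : (smc 0 1).count 1 = 3 := by decide
  have hs2 : (smc 0 2).count 1 = 2 := by decide
  have hs3 : (smc 0 3).count 1 = 1 := by decide
  have hs4 : (smc 0 4).count 1 = 0 := by decide
  have hs5 : (smc 0 5).count 1 = 1 := by decide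
  have hQ : pc (0 + 1) = l1 := rfl
  rw [hQ] at hx
  -- the first, the last component, the number of components
  have hcases : ((OddHC.cont x.1).count 1 = 1 ∧ ((∃ Y, cs x.1 = (.nil △ b2 (t + 1)) :: Y ∧
        ∃ Z, (cs x.1).reverse = D :: Z) ∨
      (∃ Y, cs x.1 = .nil :: Y ∧ 3 ≤ (cs x.1).length ∧ ∃ Z, (cs x.1).reverse = D :: Z) ∨
      (∃ Y, cs x.1 = b2 (t + 1) :: Y ∧ 3 ≤ (cs x.1).length ∧
        ∃ Z, (cs x.1).reverse = .nil :: Z))) ∨
      ((OddHC.cont x.1).count 1 = 0 ∧ (cs x.1).length = 1) := by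
    rcases hform with ⟨h5, h6 | h6 | h6⟩ | ⟨h5, h6⟩
    · refine Or.inl ⟨h5, Or.inl ⟨_, by rw [h6]; rfl, ?_⟩⟩
      rw [h6]
      simp
    · refine Or.inl ⟨h5, Or.inr (Or.inl ⟨_, by rw [h6]; rfl, ?_, ?_⟩)⟩
      · rw [h6]; simp
      · rw [h6]; simp
    · refine Or.inl ⟨h5, Or.inr (Or.inr ⟨_, by rw [h6]; rfl, ?_, ?_⟩)⟩
      · rw [h6]; simp
      · rw [h6]; simp
    · refine Or.inr ⟨h5, ?_⟩
      rw [h6]; rfl
  rcases hcases with ⟨h5, h6⟩ | ⟨h5, h6⟩
  · rw [hc1] at h5
    cases e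
    · interval_cases i <;> simp only [kap, if_false, Bool.false_eq_true, hs1, hs2, hs3, hs4, hs5] at h5 hk0 <;>
        try omega
      all_goals
        rw [hx] at h6
        rcases h6 with ⟨Y, hY, Z, hZ⟩ | ⟨Y, hY, hl, Z, hZ⟩ | ⟨Y, hY, hl, Z, hZ⟩ <;>
          simp [aw] at hY hZ
      all_goals first
        | exact hDc' _ hZ.1
        | exact hDl hZ.1.symm
        | exact hDn hZ.1.symm
        | exact hb2'' _ hY.1
        | (simp [aw] at hl; done)
        | exact hb2'' _ (node_inj' (show BinaryTree.nil △ (.nil △ .nil) = .nil △ b2 (t + 1) from hY.1)).2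
        | exact hb0 hY.1.symm
        | exact (by simp : (BinaryTree.nil △ (.nil △ .nil) : BinaryTree Unit) ≠ .nil) hY.1
    · have hB : B = .nil := he.1 rfl
      subst hB
      interval_cases i <;> simp only [kap, if_true, hs1, hs2, hs3, hs4, hs5] at h5 hk0 <;>
        try omega
      all_goals
        rw [hx] at h6
        rcases h6 with ⟨Y, hY, Z, hZ⟩ | ⟨Y, hY, hl, Z, hZ⟩ | ⟨Y, hY, hl, Z, hZ⟩ <;>
          simp [aw] at hY hZ
      all_goals first
        | exact hDc' _ hZ.1
        | exact hDl hZ.1.symm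
        | exact hDn hZ.1.symm
        | exact hb2'' _ hY.1
        | (simp [aw] at hl; done)
        | exact hb2'' _ (node_inj' (show BinaryTree.nil △ (.nil △ .nil) = .nil △ b2 (t + 1) from hY.1)).2
        | exact hb0 hY.1.symm
        | exact (by simp : (BinaryTree.nil △ (.nil △ .nil) : BinaryTree Unit) ≠ .nil) hY.1
  · rw [hc1] at h5
    cases e
    · interval_cases i <;> simp only [kap, if_false, Bool.false_eq_true, hs1, hs2, hs3, hs4, hs5] at h5 hk0 <;>
        try omega
      all_goals (rw [hx] at h6; simp [aw] at h6)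
    · have hB : B = .nil := he.1 rfl
      subst hB
      interval_cases i <;> simp only [kap, if_true, hs1, hs2, hs3, hs4, hs5] at h5 hk0 <;>
        try omega
      all_goals (rw [hx] at h6; simp [aw] at h6)

/-- **W-A0-JM, W-A0-J3** -/
theorem JG.disj_A0 (hn : 1 ≤ n) {B0 : Finset (X k)} {P U M : Set (ZMod (2 * n + 1) → ℕ)}
    (h : JG n B0 P U M) {F : Set (Cyc k)} {g : DG k} (hA : TyA0 F g) : ∀ w ∈ B0, w ∉ g.B := by
  obtain ⟨q, R, B, S, w0, h1, _, rfl, rfl⟩ := hA
  intro w hw hwB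
  obtain ⟨i, hi, rfl⟩ := mem_gad20M.1 hwB
  exact h.disj_bare hn h1.a0d hi (h1.word' w0 hi) hw

/-- the merged bare windows -/
theorem JG.disj_B0 (hn : 1 ≤ n) {B0 : Finset (X k)} {P U M : Set (ZMod (2 * n + 1) → ℕ)}
    (h : JG n B0 P U M) {F : Set (Cyc k)} {g : DG k} (hA : TyB0 F g) : ∀ w ∈ B0, w ∉ g.B := by
  obtain ⟨q, R, B, S, w0, h1, _, _, _, rfl, rfl⟩ := hA
  intro w hw hwB
  obtain ⟨i, hi, _, rfl⟩ := mem_gadSM.1 hwB
  exact h.disj_bare hn h1.a0d hi (h1.word' w0 hi) hw

end J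

end Pool.OddHC
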