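import Pool.Agent.Work.MP_8f87b2_h22.JE

/-!
# MP_8f87b2_co: the one-soliton gadgets (JM, JY, J5, NM) against the plain types L, K, K', Cr, Cl
-/

set_option autoImplicit false
set_option linter.unusedSimpArgs false
set_option linter.unusedVariables false

namespace Pool.OddHC

open Finset Equiv BinaryTree Pool.Agent.Work.MP_8f87b2_co

namespace J

variable {k n : ℕ}

/-- all forms of a word of a gadget of the class -/
theorem JG.cases (hn : 1 ≤ n) {B : Finset (X k)} {P U M : Set (ZMod (2 * n + 1) → ℕ)}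
    (h : JG n B P U M) {w : X k} (hw : w ∈ B) :
    (∃ Φ ∈ P, ∃ (p q : ℕ) (D : BinaryTree Unit), GD D ∧ Ring1.RF n Φ = RR p D q ∧
      (w.1 = app (RR p D q) (.nil △ (.nil △ .nil)) ∨ w.1 = .nil △ app (RR p D q) (.nil △ .nil) ∨
        w.1 = app (RR p D q) (.nil △ .nil) △ .nil ∨ w.1 = .nil △ (.nil △ RR p D q) ∨
        w.1 = RR p D q △ (.nil △ .nil) ∨ w.1 = (.nil △ RR p D q) △ .nil ∨
        w.1 = .nil △ (RR p D q △ .nil) ∨ w.1 = (RR p D q △ .nil) △ .nil)) ∨
    (∃ G ∈ U, ∃ (p q : ℕ) (D : BinaryTree Unit), GD D ∧ 1 ≤ p + q ∧ Ring1.RF n G = RR p D q ∧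
      w.1 = RR p D q) ∨
    (∃ Ψ ∈ M, ∃ (t u : ℕ) (D : BinaryTree Unit), GD D ∧ Ring1.RF n Ψ = RR u D (t + 1) ∧
      (w.1 = app (RR u D 0) (.nil △ (.nil △ b2 (t + 1))) ∨
        w.1 = .nil △ app (b2 (t + 1)) (RR u D 0 △ .nil) ∨
        w.1 = (.nil △ b2 (t + 1)) △ RR u D 0 ∨
        w.1 = app (b2 (t + 1)) (app (RR u D 0) (.nil △ .nil) △ .nil) ∨
        w.1 = app (b2 (t + 1)) (RR u D 0 △ (.nil △ .nil)) ∨
        w.1 = .nil △ (b2 (t + 1) △ RR u D 0) ∨
        w.1 = app (b2 (t + 1)) (RR u D 0 △ .nil) △ .nil ∨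
        w.1 = b2 (t + 1) △ app (RR u D 0) (.nil △ .nil) ∨
        w.1 = (b2 (t + 1) △ RR u D 0) △ .nil)) := by
  rcases h w hw with ⟨Φ, hΦ, hp⟩ | ⟨G, hG, hu⟩ | ⟨Ψ, hΨ, hm⟩
  · obtain ⟨p, q, D, hD, e, hcs⟩ := pu_cases hn hp
    exact Or.inl ⟨Φ, hΦ, p, q, D, hD, e, hcs⟩
  · obtain ⟨h0, hw0⟩ := hu
    obtain ⟨D, hD, e⟩ := RF_shape hn G
    exact Or.inr (Or.inl ⟨G, hG, _, _, D, hD, h0, e, by rw [hw0, e]⟩)
  · obtain ⟨t, u, D, ht, hD, e, hcs⟩ := mx_cases hm
    obtain ⟨t, rfl⟩ : ∃ m, t = m + 1 := ⟨t - 1, by omega⟩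
    exact Or.inr (Or.inr ⟨Ψ, hΨ, t, u, D, hD, e, hcs⟩)

theorem GD.nil_ne {D : BinaryTree Unit} (hD : GD D) : D ≠ .nil := fun h => by
  have := hD.ht
  rw [h, OddHC.ht] at this
  omega

theorem RR_l1 (p : ℕ) {D : BinaryTree Unit} (q : ℕ) (hD : GD D) : RR p D q ≠ l1 := by
  intro h
  have h1 := congrArg cs h
  have h2 := hD.nil_ne
  cases p with
  | zero => simp [h2] at h1
  | succ p => simp [List.replicate_succ] at h1

theorem cont_inner (hn : 1 ≤ n) {D : BinaryTree Unit} {Φ : ZMod (2 * n + 1) → ℕ}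
    (e : Ring1.RF n Φ = D △ .nil) :
    OddHC.cont D = {n + 1} + Multiset.replicate (∑ x, Φ x) 2 := by
  have hc := Ring1.cont_RF hn Φ
  rw [e, cont_node, cont_nil, add_zero] at hc
  obtain ⟨M, hM⟩ : ∃ M, M = OddHC.cont D := ⟨_, rfl⟩
  rw [← hM] at hc ⊢
  unfold raise at hc
  have h0 : M ≠ 0 := by
    rintro rfl
    have h1 := congrArg Multiset.card hc
    have h3 : n + 2 ∈ ({n + 2} + Multiset.replicate (∑ x, Φ x) 2 : Multiset ℕ) :=
      Multiset.mem_add.2 (Or.inl (Multiset.mem_singleton_self _))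
    rw [← hc] at h3
    simp at h3
  have hs := sup_mem h0
  have h1 : M.sup + 1 = n + 2 := by
    have h2 : M.sup + 1 ∈ ({n + 2} + Multiset.replicate (∑ x, Φ x) 2 : Multiset ℕ) := by
      rw [← hc]
      exact Multiset.mem_cons_self _ _
    have h3 : n + 2 ∈ (M.sup + 1) ::ₘ M.erase M.sup := by
      rw [hc]
      exact Multiset.mem_add.2 (Or.inl (Multiset.mem_singleton_self _))
    rw [Multiset.mem_cons] at h3
    rcases h3 with h3 | h3
    · exact h3.symm
    · have h4 := Multiset.le_sup (Multiset.mem_of_mem_erase h3)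
      rw [Multiset.mem_add, Multiset.mem_singleton] at h2
      rcases h2 with h2 | h2
      · exact h2
      · have := Multiset.eq_of_mem_replicate h2
        omega
  have h2 : M.sup = n + 1 := by omega
  rw [h2, Multiset.singleton_add] at hc
  have h3 := (Multiset.cons_inj_right _).1 hc
  have h4 := Multiset.cons_erase hs
  rw [h2, h3] at h4
  rw [← h4]
  rfl

theorem first_ne {R : BinaryTree Unit} (hR : R ≠ .nil) (h : H1.fb R = false) :
    ∃ A Y, cs R = A :: Y ∧ A ≠ .nil := by
  cases R with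
  | nil => exact absurd rfl hR
  | node _ A C =>
    refine ⟨A, cs C, rfl, ?_⟩
    rintro rfl
    exact absurd h (by simp [H1.fb, H1.isNil])

theorem last_ne {R : BinaryTree Unit} (hR : R ≠ .nil) (h : H1.lastB R = false) :
    ∃ A Y, (cs R).reverse = A :: Y ∧ A ≠ .nil := by
  induction R with
  | nil => exact absurd rfl hR
  | node _ A C _ ih =>
    cases C with
    | nil =>
      refine ⟨A, [], rfl, ?_⟩
      rintro rfl
      exact absurd h (by simp [H1.lastB, H1.isNil])
    | node _ E G =>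
      obtain ⟨Z, Y, e, hZ⟩ := ih (by simp) h
      refine ⟨Z, Y ++ [A], ?_, hZ⟩
      rw [cs_node', List.reverse_cons, e]
      rfl

theorem rep_comm {α : Type*} (t : ℕ) (x : α) (L : List α) :
    List.replicate t x ++ x :: L = x :: (List.replicate t x ++ L) := by
  induction t with
  | zero => rfl
  | succ t ih => rw [List.replicate_succ, List.cons_append, ih, List.cons_append]

/-- front and back of an equality of words -/
theorem cs_fb {A B : BinaryTree Unit} (h : A = B) :
    cs A = cs B ∧ (cs A).reverse = (cs B).reverse ∧ (cs A).length = (cs B).length := by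
  rw [h]; exact ⟨rfl, rfl, rfl⟩

theorem RR_back (p : ℕ) (D : BinaryTree Unit) (q : ℕ) (hD : GD D) :
    ∃ A Y, (cs (RR p D q)).reverse = A :: Y ∧ A ≠ .nil := by
  rw [cs_RR, rev_RR]
  cases q with
  | zero => exact ⟨D, _, rfl, hD.nil_ne⟩
  | succ q => exact ⟨l1, _, rfl, by simp⟩

theorem RR_front (p : ℕ) (D : BinaryTree Unit) (q : ℕ) (hD : GD D) :
    ∃ A Y, cs (RR p D q) = A :: Y ∧ A ≠ .nil := by
  rw [cs_RR]
  cases p with
  | zero => exact ⟨D, _, rfl, hD.nil_ne⟩
  | succ q => exact ⟨l1, _, rfl, by simp⟩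

theorem b2_back (t : ℕ) : (cs (b2 (t + 1))).reverse = l1 :: List.replicate t l1 := by
  rw [cs_b2, List.reverse_replicate, List.replicate_succ]

theorem b2_front (t : ℕ) : cs (b2 (t + 1)) = l1 :: List.replicate t l1 := by
  rw [cs_b2, List.replicate_succ]

theorem RR0_back (u : ℕ) (D : BinaryTree Unit) :
    (cs (RR u D 0)).reverse = D :: List.replicate u l1 := by
  rw [cs_RR, rev_RR]
  rfl

theorem lenRR (p : ℕ) (D : BinaryTree Unit) (q : ℕ) : (cs (RR p D q)).length = p + q + 1 := by
  rw [cs_RR, List.length_append, List.length_cons, List.length_replicate, List.length_replicate]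
  omega

theorem lenb2 (t : ℕ) : (cs (b2 t)).length = t := by
  rw [cs_b2, List.length_replicate]

theorem cont_b2 (t : ℕ) : OddHC.cont (b2 t) = Multiset.replicate t 2 := by
  induction t with
  | zero => rfl
  | succ t ih =>
    change OddHC.cont (l1 △ b2 t) = _
    rw [cont_l1', ih, Multiset.replicate_succ]
    rfl

theorem cont_S' (hn : 1 ≤ n) {Ψ : ZMod (2 * n + 1) → ℕ} {u t : ℕ}
    {D : BinaryTree Unit} (e : Ring1.RF n Ψ = RR u D t) :
    ∃ a, ∑ x, Ψ x = t + a ∧ OddHC.cont (RR u D 0) = {n + 2} + Multiset.replicate a 2 := by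
  have e1 : Ring1.RF n Ψ = app (RR u D 0) (b2 t) := by
    rw [e]
    apply cs_inj
    simp
  have hc := Ring1.cont_RF hn Ψ
  rw [e1, cont_app, cont_b2] at hc
  have ha : t ≤ ∑ x, Ψ x := by
    have h1 := congrArg (Multiset.count 2) hc
    rw [Multiset.count_add, Multiset.count_add, Multiset.count_replicate, Multiset.count_replicate,
      Multiset.count_singleton, if_pos rfl, if_pos rfl, if_neg (by omega)] at h1
    omega
  obtain ⟨a, ha⟩ := Nat.exists_eq_add_of_le ha
  refine ⟨a, ha, ?_⟩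
  rw [ha, Multiset.replicate_add, add_comm (Multiset.replicate t 2), ← add_assoc] at hc
  exact add_right_cancel hc

theorem raise_one {s a : ℕ} (hs : 2 ≤ s) :
    raise ({s} + Multiset.replicate a 2) = {s + 1} + Multiset.replicate a 2 := by
  have hs' : ({s} + Multiset.replicate a 2 : Multiset ℕ).sup = s := by
    rw [Multiset.sup_add, Multiset.sup_singleton]
    apply sup_eq_left.2
    apply Multiset.sup_le.2
    intro b hb
    rw [Multiset.eq_of_mem_replicate hb]
    omega
  unfold raise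
  rw [hs', Multiset.singleton_add, Multiset.erase_cons_head]
  rfl

theorem one_ne_l1 : (BinaryTree.nil : BinaryTree Unit) ≠ l1 := by simp

/-- **K** -/
theorem JG.disj_K (hn : 1 ≤ n) {B : Finset (X k)} {P U M : Set (ZMod (2 * n + 1) → ℕ)}
    (h : JG n B P U M) (hP : ∀ Φ ∈ P, 2 ≤ ∑ x, Φ x) (hU : ∀ G ∈ U, 2 ≤ ∑ x, G x)
    (hM : ∀ Ψ ∈ M, 2 ≤ ∑ x, Ψ x) {F : Set (Cyc k)} {g : DG k} {S : BinaryTree Unit}
    (ht : IsTri .nil S (.nil △ .nil) F g) (hS2 : 2 ≤ OddHC.ht S)
    (hS0 : (OddHC.cont S).count 2 = 0) : ∀ w ∈ B, w ∉ g.B := by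
  have hSn : S ≠ .nil := ht2_ne hS2
  intro w hw hwE
  have hW : w.1 = w1 .nil S (.nil △ .nil) ∨ w.1 = w1 S (.nil △ .nil) .nil ∨
      w.1 = w1 (.nil △ .nil) .nil S := by
    rcases ht.words w hwE with h | ⟨_, h | h⟩
    · exact Or.inl h
    · exact Or.inr (Or.inl h)
    · exact Or.inr (Or.inr h)
  have hfl : cs S ≠ [] := by
    cases S with
    | nil => exact absurd rfl hSn
    | node _ _ _ => rw [cs_node']; simp
  -- `S(())` has one part 2
  have hc2 : (OddHC.cont (w1 S (.nil △ .nil) .nil)).count 2 = 1 := by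
    change (OddHC.cont (app S (l1 △ .nil))).count 2 = 1
    rw [cont_app, cont_l1', cont_nil, add_zero, Multiset.count_add, hS0]
    rfl
  rcases h.cases hn hw with ⟨Φ, hΦ, p, q, D, hD, e, hcs⟩ | ⟨G, hG, p, q, D, hD, h0, e, hcs⟩ |
    ⟨Ψ, hΨ, t, u, D, hD, e, hcs⟩
  · have hDn := hD.nil_ne
    have hRn' := RR_ne p D q
    have hl1 := RR_l1 p q hD
    obtain ⟨A2, Y2, f2, n2⟩ := RR_front p D q hD
    obtain ⟨A3, Y3, f3, n3⟩ := RR_back p D q hD
    have h2R := (count_RF hn Φ).2
    rw [e] at h2R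
    have hsum := hP Φ hΦ
    rcases hcs with e1 | e1 | e1 | e1 | e1 | e1 | e1 | e1 <;> rw [e1] at hW
    · -- R()()
      rcases hW with e2 | e2 | e2 <;> obtain ⟨h5, h6, h7⟩ := cs_fb e2
      · simp [w1] at h7
        omega
      · simp [w1] at h6
      · simp [w1, f2, n2] at h5
    · -- ()R()
      rcases hW with e2 | e2 | e2 <;> obtain ⟨h5, h6, h7⟩ := cs_fb e2
      · simp [w1, hSn.symm] at h5
      · simp [w1] at h6
      · simp [w1, f2, n2] at h5
    · -- (R())
      rcases hW with e2 | e2 | e2 <;> obtain ⟨h5, h6, h7⟩ := cs_fb e2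
      · simp [w1] at h7
      · simp [w1, hfl] at h7
      · simp [w1] at h7
    · -- ()()R
      rcases hW with e2 | e2 | e2 <;> obtain ⟨h5, h6, h7⟩ := cs_fb e2
      · simp [w1, hSn.symm] at h5
      · rw [← e2] at hc2
        rw [cont_node, cont_node, raise_nil, Multiset.count_add, Multiset.count_add, h2R] at hc2
        have : Multiset.count 2 ({1} : Multiset ℕ) = 0 := rfl
        omega
      · have h8 : RR p D q = S := by
          apply cs_inj
          simpa [w1] using h5
        rw [h8] at h2R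
        omega
    · -- (R)()
      rcases hW with e2 | e2 | e2 <;> obtain ⟨h5, h6, h7⟩ := cs_fb e2
      · have h8 : RR p D q = S := by
          simpa [w1] using h5
        rw [h8] at h2R
        omega
      · simp [w1] at h6
      · simp [w1, hRn'] at h5
    · -- (()R)
      rcases hW with e2 | e2 | e2 <;> obtain ⟨h5, h6, h7⟩ := cs_fb e2
      · simp [w1] at h7
      · simp [w1, hfl] at h7
      · simp [w1] at h7
    · -- ()(R)
      rcases hW with e2 | e2 | e2 <;> obtain ⟨h5, h6, h7⟩ := cs_fb e2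
      · simp [w1, hSn.symm] at h5
      · simp [w1, hl1] at h6
      · simp [w1, hRn'] at h5
    · -- ((R))
      rcases hW with e2 | e2 | e2 <;> obtain ⟨h5, h6, h7⟩ := cs_fb e2
      · simp [w1] at h7
      · simp [w1, hfl] at h7
      · simp [w1] at h7
  · rw [hcs] at hW
    obtain ⟨A2, Y2, f2, n2⟩ := RR_front p D q hD
    obtain ⟨A3, Y3, f3, n3⟩ := RR_back p D q hD
    have h2R := (count_RF hn G).2
    rw [e] at h2R
    have hsum := hU G hG
    rcases hW with e2 | e2 | e2 <;> obtain ⟨h5, h6, h7⟩ := cs_fb e2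
    · rw [f3] at h6
      simp [w1, n3] at h6
    · rw [← e2] at hc2
      omega
    · simp [w1, f2, n2] at h5
  · have hDn := hD.nil_ne
    have hDl := hD.ne
    have hRn' := RR_ne u D 0
    have hl1 := RR_l1 u 0 hD
    obtain ⟨A2, Y2, f2, n2⟩ := RR_front u D 0 hD
    have f3 := RR0_back u D
    have g2 := b2_front t
    have g3 := b2_back t
    have hb2 : b2 (t + 1) ≠ l1 := by
      intro h
      have := congrArg cs h
      simp [List.replicate_succ] at this
    have hb0 : b2 (t + 1) ≠ .nil := by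
      intro h8
      have := congrArg cs h8
      simp [List.replicate_succ] at this
    have hsum := hM Ψ hΨ
    obtain ⟨a', ha', hcS⟩ := cont_S' hn e
    rcases hcs with e1 | e1 | e1 | e1 | e1 | e1 | e1 | e1 | e1 <;> rw [e1] at hW
    · -- S'()()B'
      rcases hW with e2 | e2 | e2 <;> obtain ⟨h5, h6, h7⟩ := cs_fb e2
      · simp [w1, List.replicate_succ, rep_comm] at h6
      · rw [← e2] at hc2
        rw [cont_app, cont_node, cont_node, raise_nil, hcS, cont_b2] at hc2
        simp only [Multiset.count_add, Multiset.count_replicate, Multiset.count_singleton,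
          if_pos, if_true] at hc2
        split at hc2 <;> omega
      · simp [w1, f2, n2] at h5
    · -- ()B'(S')
      rcases hW with e2 | e2 | e2 <;> obtain ⟨h5, h6, h7⟩ := cs_fb e2
      · simp [w1, hSn.symm] at h5
      · simp [w1, hl1] at h6
      · simp [w1, List.replicate_succ] at h5
    · -- (()B')S'
      rcases hW with e2 | e2 | e2 <;> obtain ⟨h5, h6, h7⟩ := cs_fb e2
      · simp [w1, f3, hDn] at h6
      · simp [w1, f3, hDl] at h6
      · simp [w1] at h5
    · -- B'(S'())
      have h8 : app (RR u D 0) (.nil △ .nil) ≠ .nil := by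
        intro h8
        have := congrArg cs h8
        simp at this
      have h9 : app (RR u D 0) (.nil △ .nil) ≠ l1 := by
        intro h8
        have := congrArg (fun t => (cs t).length) h8
        simp at this
      rcases hW with e2 | e2 | e2 <;> obtain ⟨h5, h6, h7⟩ := cs_fb e2
      · simp [w1, h8] at h6
      · simp [w1, h9] at h6
      · simp [w1, List.replicate_succ] at h5
    · -- B'(S')()
      rcases hW with e2 | e2 | e2 <;> obtain ⟨h5, h6, h7⟩ := cs_fb e2
      · simp [w1] at h7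
      · simp [w1] at h6
      · simp [w1, List.replicate_succ] at h5
    · -- ()(B')S'
      rcases hW with e2 | e2 | e2 <;> obtain ⟨h5, h6, h7⟩ := cs_fb e2
      · simp [w1, hSn.symm] at h5
      · simp [w1, f3, hDl] at h6
      · simp [w1, hb0] at h5
    · -- (B'(S'))
      rcases hW with e2 | e2 | e2 <;> obtain ⟨h5, h6, h7⟩ := cs_fb e2
      · simp [w1] at h7
      · simp [w1, hfl] at h7
      · simp [w1] at h7
    · -- (B')S'()
      rcases hW with e2 | e2 | e2 <;> obtain ⟨h5, h6, h7⟩ := cs_fb e2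
      · simp [w1] at h7
      · simp [w1] at h6
      · simp [w1, hb0] at h5
    · -- ((B')S')
      rcases hW with e2 | e2 | e2 <;> obtain ⟨h5, h6, h7⟩ := cs_fb e2
      · simp [w1] at h7
      · simp [w1, hfl] at h7
      · simp [w1] at h7

/-- **K'** -/
theorem JG.disj_Km (hn : 1 ≤ n) {B : Finset (X k)} {P U M : Set (ZMod (2 * n + 1) → ℕ)}
    (h : JG n B P U M) (hP : ∀ Φ ∈ P, 2 ≤ ∑ x, Φ x) (hU : ∀ G ∈ U, 2 ≤ ∑ x, G x)
    (hM : ∀ Ψ ∈ M, 2 ≤ ∑ x, Ψ x) {F : Set (Cyc k)} {g : DG k} {S : BinaryTree Unit}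
    (ht : IsTri (.nil △ .nil) S .nil F g) (hS2 : 2 ≤ OddHC.ht S)
    (hS0 : (OddHC.cont S).count 2 = 0) : ∀ w ∈ B, w ∉ g.B := by
  have hSn : S ≠ .nil := ht2_ne hS2
  intro w hw hwE
  -- host `()(S)`, new `S()()`, `(())S`
  have hW : w.1 = w1 (.nil △ .nil) S .nil ∨ w.1 = w1 S .nil (.nil △ .nil) ∨
      w.1 = w1 .nil (.nil △ .nil) S := by
    rcases ht.words w hwE with h | ⟨_, h | h⟩
    · exact Or.inl h
    · exact Or.inr (Or.inl h)
    · exact Or.inr (Or.inr h)
  have hfl : cs S ≠ [] := by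
    cases S with
    | nil => exact absurd rfl hSn
    | node _ _ _ => rw [cs_node']; simp
  have hc2 : (OddHC.cont (w1 .nil (.nil △ .nil) S)).count 2 = 1 := by
    change (OddHC.cont (l1 △ S)).count 2 = 1
    rw [cont_l1', Multiset.count_add, hS0]
    rfl
  have hc1 : Multiset.count 2 ({1} : Multiset ℕ) = 0 := rfl
  rcases h.cases hn hw with ⟨Φ, hΦ, p, q, D, hD, e, hcs⟩ | ⟨G, hG, p, q, D, hD, h0, e, hcs⟩ |
    ⟨Ψ, hΨ, t, u, D, hD, e, hcs⟩
  · have hDn := hD.nil_ne
    have hRn' := RR_ne p D q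
    have hl1 := RR_l1 p q hD
    obtain ⟨A2, Y2, f2, n2⟩ := RR_front p D q hD
    obtain ⟨A3, Y3, f3, n3⟩ := RR_back p D q hD
    have h2R := (count_RF hn Φ).2
    rw [e] at h2R
    have hsum := hP Φ hΦ
    rcases hcs with e1 | e1 | e1 | e1 | e1 | e1 | e1 | e1 <;> rw [e1] at hW
    · -- R()()
      rcases hW with e2 | e2 | e2 <;> obtain ⟨h5, h6, h7⟩ := cs_fb e2
      · simp [w1, f2, n2] at h5
      · have h8 : RR p D q = S := app_right e2
        rw [h8] at h2R
        omega
      · rw [← e2] at hc2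
        rw [cont_app, cont_node, cont_node, raise_nil, cont_nil, Multiset.count_add, h2R] at hc2
        omega
    · -- ()R()
      rcases hW with e2 | e2 | e2 <;> obtain ⟨h5, h6, h7⟩ := cs_fb e2
      · simp [w1, hSn.symm] at h6
      · rw [cs_node, cs_app] at h6
        simp only [List.reverse_cons, List.reverse_append, f3] at h6
        simp [w1, n3] at h6
      · simp [w1] at h5
    · -- (R())
      rcases hW with e2 | e2 | e2 <;> obtain ⟨h5, h6, h7⟩ := cs_fb e2
      · simp [w1] at h7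
      · simp [w1] at h7
      · simp [w1, hfl] at h7
    · -- ()()R
      rcases hW with e2 | e2 | e2 <;> obtain ⟨h5, h6, h7⟩ := cs_fb e2
      · simp [w1, hSn.symm] at h5
      · rw [cs_node, cs_node] at h6
        simp only [List.reverse_cons, List.reverse_append, f3] at h6
        simp [w1, n3] at h6
      · simp [w1] at h5
    · -- (R)()
      rcases hW with e2 | e2 | e2 <;> obtain ⟨h5, h6, h7⟩ := cs_fb e2
      · simp [w1, hRn'] at h5
      · simp [w1, hfl] at h7
      · simp [w1, hl1] at h5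
    · -- (()R)
      rcases hW with e2 | e2 | e2 <;> obtain ⟨h5, h6, h7⟩ := cs_fb e2
      · simp [w1] at h7
      · simp [w1] at h7
      · simp [w1, hfl] at h7
    · -- ()(R)
      rcases hW with e2 | e2 | e2 <;> obtain ⟨h5, h6, h7⟩ := cs_fb e2
      · have h8 : RR p D q = S := by
          simpa [w1] using h5
        rw [h8] at h2R
        omega
      · simp [w1, hRn'] at h6
      · simp [w1] at h5
    · -- ((R))
      rcases hW with e2 | e2 | e2 <;> obtain ⟨h5, h6, h7⟩ := cs_fb e2
      · simp [w1] at h7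
      · simp [w1] at h7
      · simp [w1, hfl] at h7
  · rw [hcs] at hW
    obtain ⟨A2, Y2, f2, n2⟩ := RR_front p D q hD
    obtain ⟨A3, Y3, f3, n3⟩ := RR_back p D q hD
    have h2R := (count_RF hn G).2
    rw [e] at h2R
    have hsum := hU G hG
    rcases hW with e2 | e2 | e2 <;> obtain ⟨h5, h6, h7⟩ := cs_fb e2
    · simp [w1, f2, n2] at h5
    · rw [f3] at h6
      simp [w1, n3] at h6
    · rw [← e2] at hc2
      omega
  · have hDn := hD.nil_ne
    have hDl := hD.ne
    have hRn' := RR_ne u D 0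
    have hl1 := RR_l1 u 0 hD
    obtain ⟨A2, Y2, f2, n2⟩ := RR_front u D 0 hD
    have f3 := RR0_back u D
    have g2 := b2_front t
    have g3 := b2_back t
    have hb2 : b2 (t + 1) ≠ l1 := by
      intro h
      have := congrArg cs h
      simp [List.replicate_succ] at this
    have hb0 : b2 (t + 1) ≠ .nil := by
      intro h8
      have := congrArg cs h8
      simp [List.replicate_succ] at this
    have hsum := hM Ψ hΨ
    obtain ⟨a', ha', hcS⟩ := cont_S' hn e
    have hSS := raise_one (s := n + 2) (a := a') (by omega)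
    rcases hcs with e1 | e1 | e1 | e1 | e1 | e1 | e1 | e1 | e1 <;> rw [e1] at hW
    · -- S'()()B'
      rcases hW with e2 | e2 | e2 <;> obtain ⟨h5, h6, h7⟩ := cs_fb e2
      · simp [w1, f2, n2] at h5
      · simp [w1, List.replicate_succ, rep_comm] at h6
      · rw [← e2] at hc2
        rw [cont_app, cont_node, cont_node, raise_nil, hcS, cont_b2] at hc2
        simp only [Multiset.count_add, Multiset.count_replicate, Multiset.count_singleton,
          if_pos, if_true] at hc2
        split at hc2 <;> omega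
    · -- ()B'(S')
      rcases hW with e2 | e2 | e2 <;> obtain ⟨h5, h6, h7⟩ := cs_fb e2
      · simp [w1] at h7
      · simp [w1, hRn'] at h6
      · simp [w1] at h5
    · -- (()B')S'
      have h8 : (BinaryTree.nil △ b2 (t + 1)) ≠ l1 := by
        intro h8
        exact hb0 (node_inj' h8).2
      rcases hW with e2 | e2 | e2 <;> obtain ⟨h5, h6, h7⟩ := cs_fb e2
      · simp [w1] at h5
      · simp [w1, f3, hDn] at h6
      · simp [w1, hb0] at h5
    · -- B'(S'())
      have h8 : app (RR u D 0) (.nil △ .nil) ≠ .nil := by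
        intro h8
        have := congrArg cs h8
        simp at this
      rcases hW with e2 | e2 | e2 <;> obtain ⟨h5, h6, h7⟩ := cs_fb e2
      · simp [w1, List.replicate_succ] at h5
      · simp [w1, h8] at h6
      · rw [← e2] at hc2
        rw [cont_app, cont_b2, cont_node, cont_nil, add_zero, cont_app, cont_node, cont_nil,
          raise_zero, hcS, add_zero] at hc2
        have h9 : (raise ({n + 2} + Multiset.replicate a' 2 + {1})).count 2 = a' := by
          have hs' : ({n + 2} + Multiset.replicate a' 2 + {1} : Multiset ℕ).sup = n + 2 := by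
            rw [Multiset.sup_add, Multiset.sup_add, Multiset.sup_singleton, Multiset.sup_singleton]
            have : (Multiset.replicate a' 2).sup ≤ n + 2 := by
              apply Multiset.sup_le.2
              intro b hb
              rw [Multiset.eq_of_mem_replicate hb]
              omega
            omega
          unfold raise
          rw [hs', Multiset.singleton_add, Multiset.cons_add, Multiset.erase_cons_head,
            Multiset.count_cons_of_ne (by omega), Multiset.count_add, Multiset.count_replicate,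
            if_pos rfl]
          rfl
        rw [Multiset.count_add, h9, Multiset.count_replicate, if_pos rfl] at hc2
        omega
    · -- B'(S')()
      rcases hW with e2 | e2 | e2 <;> obtain ⟨h5, h6, h7⟩ := cs_fb e2
      · simp [w1, List.replicate_succ] at h5
      · simp [w1, hRn'] at h6
      · rw [← e2] at hc2
        rw [cont_app, cont_b2, cont_node, cont_node, cont_nil, raise_zero, hcS, hSS] at hc2
        simp only [Multiset.count_add, Multiset.count_replicate, Multiset.count_singleton,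
          if_pos, if_true, add_zero] at hc2
        split at hc2 <;> omega
    · -- ()(B')S'
      rcases hW with e2 | e2 | e2 <;> obtain ⟨h5, h6, h7⟩ := cs_fb e2
      · simp [w1] at h7
      · simp [w1, f3, hDn] at h6
      · simp [w1] at h5
    · -- (B'(S'))
      rcases hW with e2 | e2 | e2 <;> obtain ⟨h5, h6, h7⟩ := cs_fb e2
      · simp [w1] at h7
      · simp [w1] at h7
      · simp [w1, hfl] at h7
    · -- (B')S'()
      rcases hW with e2 | e2 | e2 <;> obtain ⟨h5, h6, h7⟩ := cs_fb e2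
      · simp [w1, hb0] at h5
      · simp [w1, hDn] at h6
      · simp [w1, hb2] at h5
    · -- ((B')S')
      rcases hW with e2 | e2 | e2 <;> obtain ⟨h5, h6, h7⟩ := cs_fb e2
      · simp [w1] at h7
      · simp [w1] at h7
      · simp [w1, hfl] at h7

/-- **L** -/
theorem JG.disj_L (hn : 1 ≤ n) {B : Finset (X k)} {P U M : Set (ZMod (2 * n + 1) → ℕ)}
    (h : JG n B P U M) {F : Set (Cyc k)} {g : DG k} (hL : TyL F g)
    (hc : ∀ c ∈ F, ∀ s b : ℕ, contc c ≠ {s} + Multiset.replicate b 2 + {1}) :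
    ∀ w ∈ B, w ∉ g.B := by
  obtain ⟨R', e', hR', he', hfb, hlb, ht⟩ := hL
  obtain ⟨R, hR⟩ : ∃ R, R = ins R' e' := ⟨_, rfl⟩
  rw [← hR] at hfb hlb ht
  have hR2 : 2 ≤ OddHC.ht R := by rw [hR]; exact ht_ins_ge R' e' hR'
  have hRn : R ≠ .nil := ht2_ne hR2
  have hone : lp 1 = .nil △ .nil := rfl
  intro w hw hwE
  have hW := ht.words w hwE
  obtain ⟨a, b, c, ha, hb, hcw, h1, h2, h3, hF, -⟩ := ht
  rw [hone] at ha hb hcw hW
  obtain ⟨A0, Y0, f0, n0⟩ := first_ne hRn hfb
  obtain ⟨A1, Y1, f1, n1⟩ := last_ne hRn hlb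
  have fl : (cs R).length = Y0.length + 1 := by rw [f0]; rfl
  rcases h.cases hn hw with ⟨Φ, hΦ, p, q, D, hD, e, hcs⟩ | ⟨G, hG, p, q, D, hD, h0, e, hcs⟩ |
    ⟨Ψ, hΨ, t, u, D, hD, e, hcs⟩
  · have hDn := hD.nil_ne
    have hRn' := RR_ne p D q
    have hl1 := RR_l1 p q hD
    obtain ⟨A2, Y2, f2, n2⟩ := RR_front p D q hD
    obtain ⟨A3, Y3, f3, n3⟩ := RR_back p D q hD
    rcases hcs with e1 | e1 | e1 | e1 | e1 | e1 | e1 | e1 <;> rw [e1] at hW
    · -- R()()
      rcases hW with e2 | ⟨-, e2 | e2⟩ <;> obtain ⟨h5, h6, h7⟩ := cs_fb e2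
      · simp [w1, f2, n2] at h5
      · simp [w1] at h6
      · simp [w1, f2, n2] at h5
    · -- ()R()
      rcases hW with e2 | ⟨-, e2 | e2⟩ <;> obtain ⟨h5, h6, h7⟩ := cs_fb e2
      · -- R = (D)
        simp only [w1, app, cs_app, cs_node, cs_nil, List.cons.injEq, true_and,
          List.append_assoc] at h5
        have h8 := congrArg List.length h5
        simp only [List.length_append, lenRR, List.length_cons, List.length_nil] at h8
        obtain rfl : p = 0 := by omega
        obtain rfl : q = 0 := by omega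
        simp only [cs_RR, List.replicate_zero, List.nil_append, List.cons_append, List.cons.injEq,
          and_true] at h5
        have hcD := cont_inner hn (D := D) (Φ := Φ) (by rw [e]; rfl)
        refine hc (cyc b) (by rw [hF]; exact Or.inl rfl) (n + 1) (∑ x, Φ x + 1) ?_
        change OddHC.cont b.1 = _
        rw [hb, ← h5]
        change OddHC.cont (app D (l1 △ (.nil △ .nil))) = _
        rw [cont_app, cont_l1', hcD, cont_node, raise_nil, cont_nil, add_zero, Multiset.replicate_succ,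
          ← Multiset.singleton_add]
        simp only [← add_assoc]
        congr 1
        simp only [add_assoc, add_left_comm, add_comm]
      · simp [w1, f0, n0.symm] at h5
      · simp [w1, f1, n1.symm] at h6
    · -- (R())
      rcases hW with e2 | ⟨-, e2 | e2⟩ <;> obtain ⟨h5, h6, h7⟩ := cs_fb e2 <;>
        simp [w1, fl] at h7
    · -- ()()R
      rcases hW with e2 | ⟨-, e2 | e2⟩ <;> obtain ⟨h5, h6, h7⟩ := cs_fb e2
      · simp [w1, hRn.symm] at h5
      · simp [w1, f0, n0.symm] at h5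
      · simp [w1] at h5
    · -- (R)()
      rcases hW with e2 | ⟨-, e2 | e2⟩ <;> obtain ⟨h5, h6, h7⟩ := cs_fb e2 <;>
        simp [w1, fl] at h7
    · -- (()R)
      rcases hW with e2 | ⟨-, e2 | e2⟩ <;> obtain ⟨h5, h6, h7⟩ := cs_fb e2 <;>
        simp [w1, fl] at h7
    · -- ()(R)
      rcases hW with e2 | ⟨-, e2 | e2⟩ <;> obtain ⟨h5, h6, h7⟩ := cs_fb e2 <;>
        simp [w1, fl] at h7
    · -- ((R))
      rcases hW with e2 | ⟨-, e2 | e2⟩ <;> obtain ⟨h5, h6, h7⟩ := cs_fb e2 <;>
        simp [w1, fl] at h7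
  · rw [hcs] at hW
    obtain ⟨A2, Y2, f2, n2⟩ := RR_front p D q hD
    obtain ⟨A3, Y3, f3, n3⟩ := RR_back p D q hD
    rcases hW with e2 | ⟨-, e2 | e2⟩ <;> obtain ⟨h5, h6, h7⟩ := cs_fb e2
    · simp [w1, f2, n2] at h5
    · rw [f3] at h6
      simp [w1, n3] at h6
    · simp [w1, f2, n2] at h5
  · have hDn := hD.nil_ne
    have hDl := hD.ne
    have hRn' := RR_ne u D 0
    have hl1 := RR_l1 u 0 hD
    obtain ⟨A2, Y2, f2, n2⟩ := RR_front u D 0 hD
    have f3 := RR0_back u D
    have g2 := b2_front t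
    have g3 := b2_back t
    have hb2 : b2 (t + 1) ≠ l1 := by
      intro h
      have := congrArg cs h
      simp [List.replicate_succ] at this
    rcases hcs with e1 | e1 | e1 | e1 | e1 | e1 | e1 | e1 | e1 <;> rw [e1] at hW
    · -- S'()()B'
      rcases hW with e2 | ⟨-, e2 | e2⟩ <;> obtain ⟨h5, h6, h7⟩ := cs_fb e2
      · simp [w1, f2, n2] at h5
      · simp [w1, List.replicate_succ, rep_comm] at h6
      · simp [w1, f2, n2] at h5
    · -- ()B'(S')
      rcases hW with e2 | ⟨hwF, e2 | e2⟩ <;> obtain ⟨h5, h6, h7⟩ := cs_fb e2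
      · simp [w1, hRn'] at h6
      · simp [w1, hRn'] at h6
      · obtain ⟨a', ha', hcS⟩ := cont_S' hn e
        refine hc (cyc w) hwF (n + 3) (t + 1 + a') ?_
        change OddHC.cont w.1 = _
        rw [e1, cont_node, raise_nil, cont_app, cont_node, cont_nil, add_zero, cont_b2, hcS,
          raise_one (by omega), Multiset.replicate_add (t + 1) a']
        change _ = {n + 2 + 1} + _ + _
        abel
    · -- (()B')S'
      rcases hW with e2 | ⟨-, e2 | e2⟩ <;> obtain ⟨h5, h6, h7⟩ := cs_fb e2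
      · simp [w1] at h5
      · simp [w1, f3, hDn] at h6
      · simp [w1] at h5
    · -- B'(S'())
      rcases hW with e2 | ⟨-, e2 | e2⟩ <;> obtain ⟨h5, h6, h7⟩ := cs_fb e2
      · simp [w1, List.replicate_succ] at h5
      · have h8 : app (RR u D 0) (.nil △ .nil) ≠ .nil := by
          intro h8
          have := congrArg cs h8
          simp at this
        simp [w1, h8] at h6
      · simp [w1, List.replicate_succ] at h5
    · -- B'(S')()
      rcases hW with e2 | ⟨-, e2 | e2⟩ <;> obtain ⟨h5, h6, h7⟩ := cs_fb e2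
      · simp [w1, List.replicate_succ] at h5
      · simp [w1, hl1] at h6
      · simp [w1, List.replicate_succ] at h5
    · -- ()(B')S'
      rcases hW with e2 | ⟨-, e2 | e2⟩ <;> obtain ⟨h5, h6, h7⟩ := cs_fb e2
      · simp [w1, f3, hDn] at h6
      · simp [w1, f3, hDn] at h6
      · simp [w1, hb2] at h5
    · -- (B'(S'))
      rcases hW with e2 | ⟨-, e2 | e2⟩ <;> obtain ⟨h5, h6, h7⟩ := cs_fb e2 <;>
        simp [w1, fl] at h7
    · -- (B')S'()
      rcases hW with e2 | ⟨-, e2 | e2⟩ <;> obtain ⟨h5, h6, h7⟩ := cs_fb e2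
      · have h8 : b2 (t + 1) ≠ .nil := by
          intro h8
          have := congrArg cs h8
          simp [List.replicate_succ] at this
        simp [w1, h8] at h5
      · simp [w1, hDl] at h6
      · have h8 : b2 (t + 1) ≠ .nil := by
          intro h8
          have := congrArg cs h8
          simp [List.replicate_succ] at this
        simp [w1, h8] at h5
    · -- ((B')S')
      rcases hW with e2 | ⟨-, e2 | e2⟩ <;> obtain ⟨h5, h6, h7⟩ := cs_fb e2 <;>
        simp [w1, fl] at h7

end J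

end Pool.OddHC
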